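import Pool.Agent.Work.MP_8dbde4_lc.Loc.Lift
import Pool.Agent.Work.MP_8dbde4_lc.Phy.I_TRA

/-!
# The expansion of a local language by the split relation
-/

set_option autoImplicit false
open Classical

namespace Pool.Agent.Work.MP_8dbde4_lc.Loc

open Pool.Agent.Work.MP_8dbde4_lc.TS
open Pool.Agent.Work.MP_8dbde4_lc.Tree (Word Agr Sp Cc SameT)
open Pool.Agent.Work.MP_8dbde4_lc.HP (add adds)

variable {σ : Sig} {K : Type} {c : ℚ → K}

/-- The split relation as a set of triples. -/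
def CC (t : Fin 3 → Word c) : Prop := Cc (t 0) (t 1) (t 2)

/-- Reducts: instances without the additional relation. -/
lemma inFP_adds {B : Type} {𝔅 : Str σ B} {r : ℕ} {T : (Fin r → B) → Prop}
    (h : InFP (CSP (adds 𝔅 T))) : InFP (CSP 𝔅) := by
  obtain ⟨Φ, hΦ⟩ := h
  let a : (R : (add σ r).S) → (Fin ((add σ r).ar R) → ℕ) → FP σ := fun R =>
    match R with
    | none => fun _ => Phy.XTRA.ffF
    | some R => fun xs => FP.rel R xs
  refine ⟨Phy.trA a Φ, ?_⟩
  intro A _ _ 𝔄 v
  rw [Phy.TRA_pf (add σ r) σ a A (adds 𝔄 (fun _ : Fin r → A => False)) 𝔄 ?_ Φ v _]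
  · rw [hΦ A _ v]
    constructor
    · rintro ⟨g, hg⟩
      exact ⟨g, fun R t ht => hg (some R) t ht⟩
    · rintro ⟨g, hg⟩
      refine ⟨g, fun R t ht => ?_⟩
      rcases R with _ | R
      · exact absurd ht id
      · exact hg R t ht
  · intro R xs v β
    rcases R with _ | R
    · exact Phy.XTRA.eval_ffF 𝔄 v β
    · exact Iff.rfl

lemma inv_adds {𝔅 : Str σ (Word c)} (hB : Inv 𝔅) : Inv (adds 𝔅 (CC (c := c))) := by
  intro R v w hvw hv
  rcases R with _ | R
  · exact (hvw.2.2 (0 : Fin 3) (1 : Fin 3) (2 : Fin 3)).1 hv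
  · exact hB R v w hvw hv

lemma isC_adds (𝔅 : Str σ (Word c)) : IsC (adds 𝔅 (CC (c := c))) none :=
  ⟨rfl, fun _ => Iff.rfl⟩

lemma cc_local {w u : Fin 3 → Word c} (hu : CC u) (hl : Look Set.univ w u) : CC w := by
  rcases hl with h | ⟨q, q', h1, h2, i, _, j, _, h3⟩
  · obtain ⟨r, _, _, h4, h5⟩ := (hu : Cc (u 0) (u 1) (u 2))
    refine absurd ?_ h5
    rw [h.2 0 trivial 1 trivial]
  · -- the first split of `u` is the split of the relation
    have h1' : ∀ i j : Fin 3, Agr (w i) (w j) q ∧ Agr (u i) (u j) q' :=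
      fun i j => h1 i trivial j trivial
    have h2' : ∀ i : Fin 3, (w i).1 q = (u i).1 q' := fun i => h2 i trivial
    have h3' : (u i).1 q' ≠ (u j).1 q' := by
      rw [← h2 i trivial, ← h2 j trivial]
      exact h3
    obtain ⟨r, h4, h5, h6, h7⟩ := (hu : Cc (u 0) (u 1) (u 2))
    have hr : r = q' := by
      rcases lt_trichotomy r q' with h8 | h8 | h8
      · exact absurd ((h1' 0 1).2 r h8) h7
      · exact h8
      · exfalso
        have e1 : (u 0).1 q' = (u 1).1 q' := h4 q' h8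
        have e2 : (u 0).1 q' = (u 2).1 q' := h5 q' h8
        have e3 : ∀ l : Fin 3, (u l).1 q' = (u 0).1 q' := by
          intro l
          fin_cases l
          · rfl
          · exact e1.symm
          · exact e2.symm
        exact h3' ((e3 i).trans (e3 j).symm)
    subst hr
    refine (⟨q, (h1' 0 1).1, (h1' 0 2).1, ?_, ?_⟩ : Cc (w 0) (w 1) (w 2))
    · rw [h2' 1, h2' 2]
      exact h6
    · rw [h2' 0, h2' 1]
      exact h7

lemma isLocal_adds {𝔅 : Str σ (Word c)} (hB : IsLocal 𝔅) : IsLocal (adds 𝔅 (CC (c := c))) := by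
  intro R w hw
  rcases R with _ | R
  · obtain ⟨u, hu, h⟩ := hw Set.univ
    exact cc_local hu h
  · exact hB R w hw

end Pool.Agent.Work.MP_8dbde4_lc.Loc
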