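import Pool.Agent.Work.MP_8dbde4_lc.Tree.StmtsH
import Pool.Agent.Work.MP_8dbde4_lc.HP.Defs

/-!
# Local languages over branching trees

The domain is the set of the words `ℚ → K` which differ from a fixed word `c` in finitely many
places. A relation is invariant if it depends only on the splits of the words of a tuple, and local if
a tuple belongs to it as soon as each of its subtuples looks, at its first split, like a subtuple
of some member of the relation.
-/

set_option autoImplicit false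
open Classical

namespace Pool.Agent.Work.MP_8dbde4_lc.Loc

open Pool.Agent.Work.MP_8dbde4_lc.TS
open Pool.Agent.Work.MP_8dbde4_lc.Tree (Word Agr Sp Cc SameT)

variable {σ : Sig} {K : Type} {c : ℚ → K}

/-- The relations depend only on the splits. -/
def Inv (𝔅 : Str σ (Word c)) : Prop :=
  ∀ (R : σ.S) (v w : Fin (σ.ar R) → Word c), SameT v w → 𝔅.rel R v → 𝔅.rel R w

/-- On the set `s` of coordinates the tuples `w` and `u` are both constant, or they split
first with the same letters: the words `w i`, `i ∈ s`, agree below `q` but not at `q`, the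
words `u i`, `i ∈ s`, agree below `q'`, and the letters of `w i` at `q` and `u i` at `q'` are the
same. -/
def Look {n : ℕ} (s : Set (Fin n)) (w u : Fin n → Word c) : Prop :=
  ((∀ i ∈ s, ∀ j ∈ s, w i = w j) ∧ ∀ i ∈ s, ∀ j ∈ s, u i = u j) ∨
  ∃ q q' : ℚ, (∀ i ∈ s, ∀ j ∈ s, Agr (w i) (w j) q ∧ Agr (u i) (u j) q') ∧
    (∀ i ∈ s, (w i).1 q = (u i).1 q') ∧ ∃ i ∈ s, ∃ j ∈ s, (w i).1 q ≠ (w j).1 q

/-- Local: a tuple all of whose subtuples look like subtuples of members of a relation belongs to
the relation. -/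
def IsLocal (𝔅 : Str σ (Word c)) : Prop :=
  ∀ (R : σ.S) (w : Fin (σ.ar R) → Word c),
    (∀ s : Set (Fin (σ.ar R)), ∃ u, 𝔅.rel R u ∧ Look s w u) → 𝔅.rel R w

/-- The split relation is a relation of `𝔅`, with the symbol `C`. -/
def IsC (𝔅 : Str σ (Word c)) (C : σ.S) : Prop :=
  ∃ h : 3 = σ.ar C, ∀ t : Fin (σ.ar C) → Word c,
    𝔅.rel C t ↔ Cc (t (Fin.cast h 0)) (t (Fin.cast h 1)) (t (Fin.cast h 2))

/-! ### Patterns with masks -/

/-- A language with masks. For each relation symbol `R` and each mask `s` (a set of coordinates) there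
is a set of patterns (only the coordinates in `s` matter); `strict R s` means that the coordinates
in `s` must not be all equal; `live R` means that `R` is satisfiable. -/
structure MLang (σ : Sig) (K : Type) where
  P : (R : σ.S) → (Fin (σ.ar R) → Bool) → (Fin (σ.ar R) → K) → Prop
  strict : (R : σ.S) → (Fin (σ.ar R) → Bool) → Prop
  live : σ.S → Prop
  mono : ∀ R s s' p p', P R s p → (∀ i, s' i = true → s i = true ∧ p' i = p i) → P R s' p'
  const : ∀ R s (a : K), live R → P R s (fun _ => a)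
  strict_mono : ∀ R s s', strict R s → (∀ i, s i = true → s' i = true) → strict R s'
  dead : ∀ R s, ¬ live R → strict R s

/-- The words `w i`, `s i`, agree below `q`, but not at `q`. -/
def FS {n : ℕ} (s : Fin n → Bool) (w : Fin n → Word c) (q : ℚ) : Prop :=
  (∀ i j, s i = true → s j = true → Agr (w i) (w j) q) ∧
    ∃ i j, s i = true ∧ s j = true ∧ (w i).1 q ≠ (w j).1 q

/-- The relations of the template. -/
def MLang.rel (L : MLang σ K) (R : σ.S) (w : Fin (σ.ar R) → Word c) : Prop :=
  (∀ s q, FS s w q → L.P R s (fun j => (w j).1 q)) ∧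
    ∀ s, L.strict R s → ∃ i j, s i = true ∧ s j = true ∧ w i ≠ w j

/-- The template. -/
def MLang.str (L : MLang σ K) (c : ℚ → K) : Str σ (Word c) where
  rel R w := L.rel R w

/-- The mask of a tuple: its coordinates in `W`. -/
noncomputable def mask {A : Type} {n : ℕ} (W : Set A) (t : Fin n → A) : Fin n → Bool :=
  fun i => decide (t i ∈ W)

/-- `h` is a step on `W`. -/
def IsStep {A : Type} (L : MLang σ K) (𝔄 : Str σ A) (W : Set A) (h : A → K) : Prop :=
  ∀ (R : σ.S) (t : Fin (σ.ar R) → A), 𝔄.rel R t → L.P R (mask W t) (fun j => h (t j))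

/-- There is a strict constraint inside `W`. -/
def HasStrict {A : Type} (L : MLang σ K) (𝔄 : Str σ A) (W : Set A) : Prop :=
  ∃ (R : σ.S) (t : Fin (σ.ar R) → A), 𝔄.rel R t ∧ L.strict R (mask W t)

/-- `h` is not constant on `W`. -/
def NonC {A : Type} (W : Set A) (h : A → K) : Prop := ∃ x ∈ W, ∃ y ∈ W, h x ≠ h y

/-- The combinatorial form of the constraint satisfaction problem on a part `W₀`. -/
def Res {A : Type} (L : MLang σ K) (𝔄 : Str σ A) (W₀ : Set A) : Prop :=
  ∀ W ⊆ W₀, HasStrict L 𝔄 W → ∃ h : A → K, IsStep L 𝔄 W h ∧ NonC W h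

/-- The symbol `C` is the split relation. -/
def IsSplit (L : MLang σ K) (C : σ.S) : Prop :=
  σ.ar C = 3 ∧ ((∃ a b : K, a ≠ b) → L.live C) ∧
  (L.live C → ∀ s p, L.P C s p ↔ ∀ k i j : Fin (σ.ar C), k.val = 0 → i.val = 1 → j.val = 2 →
    s k = true → s i = true → s j = true → p i = p j) ∧
  (L.live C → ∀ s, L.strict C s ↔ ∃ k i : Fin (σ.ar C), k.val = 0 ∧ i.val ≠ 0 ∧
    s k = true ∧ s i = true)

/-- Realizable: every pattern of a live symbol is shown by a member of the relation. -/
def Real (L : MLang σ K) (c : ℚ → K) : Prop :=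
  ∀ (R : σ.S) s p, L.live R → L.P R s p → ∃ w : Fin (σ.ar R) → Word c, L.rel R w ∧ ∃ q : ℚ,
    (∀ i j, s i = true → s j = true → Agr (w i) (w j) q) ∧ ∀ i, s i = true → (w i).1 q = p i

/-- The semilattice operation on `{a, b}` with absorbing element `a` preserves the patterns of the
live symbols. -/
def Good (L : MLang σ K) (a b : K) : Prop :=
  a ≠ b ∧ ∀ R, L.live R → ∀ s, ∀ p p' : Fin (σ.ar R) → K, (∀ j, s j = true → p j = a ∨ p j = b) →
    (∀ j, s j = true → p' j = a ∨ p' j = b) →
    L.P R s p → L.P R s p' → L.P R s (fun j => Tree.meet a b (p j) (p' j))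

/-- Good steps suffice. -/
def GS (L : MLang σ K) : Prop :=
  ∀ (A : Type) [Finite A] (𝔄 : Str σ A) (W : Set A), Res L 𝔄 W → HasStrict L 𝔄 W →
    ∃ a b : K, Good L a b ∧ ∃ h : A → K, IsStep L 𝔄 W h ∧ (∀ x ∈ W, h x = a ∨ h x = b) ∧ NonC W h

/-! ### The language with masks of a structure -/

lemma exists_low {n : ℕ} (v : Fin n → Word c) : ∃ q : ℚ, ∀ i, ∀ r ≤ q, (v i).1 r = c r := by
  have hfin : (⋃ i, {r | (v i).1 r ≠ c r}).Finite := Set.finite_iUnion (fun i => (v i).2)
  obtain ⟨m, hm⟩ := hfin.bddBelow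
  refine ⟨m - 1, fun i r hr => ?_⟩
  by_contra hne
  have := hm (Set.mem_iUnion.2 ⟨i, hne⟩)
  linarith

/-- change the letter at `q` -/
noncomputable def upd (x : Word c) (q : ℚ) (a : K) : Word c :=
  ⟨Function.update x.1 q a, by
    refine (x.2.union (Set.finite_singleton q)).subset (fun r hr => ?_)
    by_cases h : r = q
    · exact Or.inr h
    · left
      have hr' : Function.update x.1 q a r ≠ c r := hr
      rw [Function.update_of_ne h] at hr'
      exact hr'⟩

lemma upd_self (x : Word c) (q : ℚ) (a : K) : (upd x q a).1 q = a := Function.update_self _ _ _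

lemma upd_ne (x : Word c) {q r : ℚ} (a : K) (h : r ≠ q) : (upd x q a).1 r = x.1 r :=
  Function.update_of_ne h _ _

lemma sameT_upd {n : ℕ} {v : Fin n → Word c} {q : ℚ} (h : ∀ i j, (v i).1 q = (v j).1 q) (a : K) :
    SameT v (fun i => upd (v i) q a) := by
  have hagr : ∀ i j r, Agr (upd (v i) q a) (upd (v j) q a) r ↔ Agr (v i) (v j) r := by
    intro i j r
    refine forall_congr' fun r' => forall_congr' fun _ => ?_
    by_cases h1 : r' = q
    · rw [h1, upd_self, upd_self]
      exact ⟨fun _ => h i j, fun _ => rfl⟩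
    · rw [upd_ne _ _ h1, upd_ne _ _ h1]
  refine ⟨fun i j => ⟨fun h1 => congrArg (fun x => upd x q a) h1, fun h1 => ?_⟩,
    fun i j b b' => ?_, fun i j k => ?_⟩
  · apply Subtype.ext
    funext r
    by_cases h2 : r = q
    · rw [h2]
      exact h i j
    · have h3 := congrFun (congrArg Subtype.val h1) r
      have h4 : (upd (v i) q a).1 r = (upd (v j) q a).1 r := h3
      rwa [upd_ne _ _ h2, upd_ne _ _ h2] at h4
  · constructor
    · rintro ⟨r, h1, h2, h3, h4⟩
      have h5 : r ≠ q := by
        rintro rfl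
        exact h4 (by rw [← h2, ← h3]; exact h i j)
      exact ⟨r, (hagr i j r).2 h1, by rw [upd_ne _ _ h5]; exact h2,
        by rw [upd_ne _ _ h5]; exact h3, h4⟩
    · rintro ⟨r, h1, h2, h3, h4⟩
      have h5 : r ≠ q := by
        rintro rfl
        rw [upd_self] at h2 h3
        exact h4 (h2.symm.trans h3)
      rw [upd_ne _ _ h5] at h2 h3
      exact ⟨r, (hagr i j r).1 h1, h2, h3, h4⟩
  · constructor
    · rintro ⟨r, h1, h2, h3, h4⟩
      have h5 : r ≠ q := by
        rintro rfl
        exact h4 (h i j)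
      exact ⟨r, (hagr i j r).2 h1, (hagr i k r).2 h2, by rw [upd_ne _ _ h5, upd_ne _ _ h5]; exact h3,
        by rw [upd_ne _ _ h5, upd_ne _ _ h5]; exact h4⟩
    · rintro ⟨r, h1, h2, h3, h4⟩
      have h5 : r ≠ q := by
        rintro rfl
        rw [upd_self, upd_self] at h4
        exact h4 rfl
      rw [upd_ne _ _ h5, upd_ne _ _ h5] at h3 h4
      exact ⟨r, (hagr i j r).1 h1, (hagr i k r).1 h2, h3, h4⟩

/-- The patterns shown by the members of the relations. -/
def lang (𝔅 : Str σ (Word c)) (hB : Inv 𝔅) : MLang σ K where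
  P R s p := ∃ w, 𝔅.rel R w ∧ ∃ q : ℚ, (∀ i j, s i = true → s j = true → Agr (w i) (w j) q) ∧
    ∀ i, s i = true → (w i).1 q = p i
  strict R s := ∀ w, 𝔅.rel R w → ∃ i j, s i = true ∧ s j = true ∧ w i ≠ w j
  live R := ∃ w, 𝔅.rel R w
  mono R s s' p p' := by
    rintro ⟨w, hw, q, h1, h2⟩ h
    exact ⟨w, hw, q, fun i j hi hj => h1 i j (h i hi).1 (h j hj).1,
      fun i hi => (h2 i (h i hi).1).trans (h i hi).2.symm⟩
  const R s a := by
    rintro ⟨w, hw⟩
    obtain ⟨q, hq⟩ := exists_low w
    refine ⟨fun i => upd (w i) q a, hB R _ _ (sameT_upd (fun i j => ?_) a) hw, q,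
      fun i j _ _ r hr => ?_, fun i _ => upd_self _ _ _⟩
    · rw [hq i q le_rfl, hq j q le_rfl]
    · rw [upd_ne _ _ hr.ne, upd_ne _ _ hr.ne, hq i r hr.le, hq j r hr.le]
  strict_mono R s s' h hs w hw := by
    obtain ⟨i, j, hi, hj, hne⟩ := h w hw
    exact ⟨i, j, hs i hi, hs j hj, hne⟩
  dead R s h w hw := absurd ⟨w, hw⟩ h

end Pool.Agent.Work.MP_8dbde4_lc.Loc
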