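import Pool.Agent.Work.MP_8dbde4_lc.Loc.Stmts

/-!
Descent to minimal sets (languages with masks).
-/

set_option autoImplicit false
open Classical

namespace Pool.Agent.Work.MP_8dbde4_lc.Loc

open Pool.Agent.Work.MP_8dbde4_lc.TS
open Pool.Agent.Work.MP_8dbde4_lc.Tree (Word Agr Sp Cc SameT Fam Gad El anch trip Den row BFSys)

namespace XDESC

variable {σ : Sig} {K : Type}

lemma mask_iff {A : Type} {n : ℕ} {W : Set A} {t : Fin n → A} {i : Fin n} :
    mask W t i = true ↔ t i ∈ W := by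
  unfold mask
  exact decide_eq_true_iff

/-- an endomorphism of the patterns on `V`, applied to a step on `W` -/
lemma comp {L : MLang σ K} {A : Type} {𝔄 : Str σ A} {W : Set A} {V : Set K}
    (hlive : ∀ (R : σ.S) (t : Fin (σ.ar R) → A), 𝔄.rel R t → L.live R) {h : A → K}
    (hstep : IsStep L 𝔄 W h) (hV : ∀ x ∈ W, h x ∈ V) (v₀ : V) {f : V → V}
    (hf : ∀ (R : (mk σ).S) (p : Fin ((mk σ).ar R) → V), (fam L V).P R p →
      (fam L V).P R (fun j => f (p j))) :
    IsStep L 𝔄 W (fun x => if hx : h x ∈ V then (f ⟨h x, hx⟩ : K) else h x) := by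
  intro R t ht
  have h1 := hstep R t ht
  have h2 : (fam L V).P (show (mk σ).S from ⟨R, mask W t⟩)
      (fun j => if hx : h (t j) ∈ V then (⟨h (t j), hx⟩ : V) else v₀) := by
    intro _
    refine L.mono R _ _ _ _ h1 (fun i hi => ⟨hi, ?_⟩)
    have hi' : h (t i) ∈ V := hV _ (mask_iff.1 hi)
    simp only [hi', dif_pos]
  have h3 := hf _ _ h2 (hlive R t ht)
  refine L.mono R _ _ _ _ h3 (fun i hi => ⟨hi, ?_⟩)
  have hi' : h (t i) ∈ V := hV _ (mask_iff.1 hi)
  simp only [hi', dif_pos]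

end XDESC

theorem DESC_pf : S_DESC := by
  intro σ K _ L A 𝔄 W V hlive
  induction hn : V.ncard using Nat.strong_induction_on generalizing V with
  | _ n ih =>
  intro hNC
  by_cases hmin : MinSet L V
  · exact ⟨V, subset_rfl, hmin, hNC⟩
  obtain ⟨h, hstep, hV, x, hx, y, hy, hxy⟩ := hNC
  have hfin : V.Finite := Set.toFinite V
  have h2 : ∃ x y : V, x ≠ y :=
    ⟨⟨h x, hV x hx⟩, ⟨h y, hV y hy⟩, fun e => hxy (congrArg Subtype.val e)⟩
  have h3 : ∃ f : V → V, (∀ (R : (mk σ).S) (p : Fin ((mk σ).ar R) → V), (fam L V).P R p →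
      (fam L V).P R (fun j => f (p j))) ∧ ¬ Function.Injective f ∧ ¬ ∃ c, ∀ x, f x = c := by
    by_contra hcon
    apply hmin
    refine ⟨h2, ?_⟩
    intro f hf
    by_contra hc
    rw [not_or] at hc
    exact hcon ⟨f, hf, hc.1, hc.2⟩
  obtain ⟨f, hf, hinj, hconst⟩ := h3
  by_cases hc : ∃ x' : A, ∃ hx' : x' ∈ W, ∃ y' : A, ∃ hy' : y' ∈ W,
      f ⟨h x', hV x' hx'⟩ ≠ f ⟨h y', hV y' hy'⟩
  · -- the image
    obtain ⟨x', hx', y', hy', hxy'⟩ := hc
    set V' : Set K := Set.range (fun z : V => (f z : K)) with hV'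
    have hsub : V' ⊆ V := by
      rintro _ ⟨z, rfl⟩
      exact (f z).2
    have hne : V' ≠ V := by
      intro e
      apply hinj
      have hsurj : Function.Surjective f := by
        intro z
        have : (z : K) ∈ V' := by rw [e]; exact z.2
        obtain ⟨w, hw⟩ := this
        exact ⟨w, Subtype.ext hw⟩
      exact Finite.injective_iff_surjective.mpr hsurj
    have hlt : V'.ncard < n := by
      rw [← hn]
      exact Set.ncard_lt_ncard (lt_of_le_of_ne hsub hne) hfin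
    have hval : ∀ z ∈ W, ∀ hz : h z ∈ V,
        (if hx : h z ∈ V then (f ⟨h z, hx⟩ : K) else h z) = f ⟨h z, hz⟩ := by
      intro z _ hz
      simp only [hz, dif_pos]
    obtain ⟨U, hU, hU1, hU2⟩ := ih V'.ncard hlt V' rfl
      ⟨_, XDESC.comp hlive hstep hV ⟨h x, hV x hx⟩ hf, fun z hz => by
        rw [hval z hz (hV z hz)]
        exact ⟨⟨h z, hV z hz⟩, rfl⟩, x', hx', y', hy', by
        beta_reduce
        rw [hval x' hx' (hV x' hx'), hval y' hy' (hV y' hy')]
        exact fun e => hxy' (Subtype.ext e)⟩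
    exact ⟨U, hU.trans hsub, hU1, hU2⟩
  · -- a fibre
    have hc' : ∀ x' (hx' : x' ∈ W), f ⟨h x', hV x' hx'⟩ = f ⟨h x, hV x hx⟩ := by
      intro x' hx'
      by_contra hne
      exact hc ⟨x', hx', x, hx, hne⟩
    set V' : Set K := {z | ∃ hz : z ∈ V, f ⟨z, hz⟩ = f ⟨h x, hV x hx⟩} with hV'
    have hsub : V' ⊆ V := by
      rintro z ⟨hz, -⟩
      exact hz
    have hne : V' ≠ V := by
      intro e
      apply hconst
      refine ⟨f ⟨h x, hV x hx⟩, fun z => ?_⟩
      have : (z : K) ∈ V' := by rw [e]; exact z.2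
      obtain ⟨hz, hz'⟩ := this
      exact hz'
    have hlt : V'.ncard < n := by
      rw [← hn]
      exact Set.ncard_lt_ncard (lt_of_le_of_ne hsub hne) hfin
    obtain ⟨U, hU, hU1, hU2⟩ := ih V'.ncard hlt V' rfl
      ⟨h, hstep, fun x' hx' => ⟨hV x' hx', hc' x' hx'⟩, x, hx, y, hy, hxy⟩
    exact ⟨U, hU.trans hsub, hU1, hU2⟩

end Pool.Agent.Work.MP_8dbde4_lc.Loc
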