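import Pool.Agent.Work.MP_8dbde4_lc.Loc.Stmts
import Pool.Agent.Work.MP_8dbde4_lc.Tree.I_FB

/-!
Block Loc of MP_8dbde4_lc, item FB: the expansions of invariant structures are finitely bounded.
-/

set_option autoImplicit false
open Classical

namespace Pool.Agent.Work.MP_8dbde4_lc.Loc

open Pool.Agent.Work.MP_8dbde4_lc.TS
open Pool.Agent.Work.MP_8dbde4_lc.Tree (Word Agr Sp Cc SameT Emb)
open Pool.Agent.Work.MP_8dbde4_lc.Tree.XFB

theorem FB_pf : S_FB := by
  intro σ K _ c 𝔄₀ hB
  let τ := Tree.Sig.plus σ K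
  let 𝔄 : Str τ (Word c) := plus 𝔄₀
  let n : ℕ := 5 + ∑ R : σ.S, σ.ar R
  refine ⟨{X | X.1 ≤ n ∧ ¬ ∃ e, Emb X.2 𝔄 e}, finite_set τ n _, ?_⟩
  intro B _ 𝔅
  constructor
  · rintro ⟨e, he⟩ X ⟨_, hX⟩ ⟨f, hf⟩
    exact hX ⟨fun x => e (f x), he.1.comp hf.1, fun R t => (hf.2 R t).trans (he.2 R _)⟩
  · intro hX
    -- local embeddings
    have hloc : ∀ S : Finset B, S.card ≤ n → ∃ g : B → Word c, (∀ x ∈ S, ∀ y ∈ S, g x = g y → x = y) ∧
        ∀ (R : τ.S) (t : Fin (τ.ar R) → B), (∀ j, t j ∈ S) →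
          (𝔅.rel R t ↔ 𝔄.rel R (fun j => g (t j))) := by
      intro S hS
      let X : Σ m : ℕ, Str τ (Fin m) := ⟨S.card, ⟨fun R t => 𝔅.rel R
        (fun j => ((S.equivFin.symm (t j) : S) : B))⟩⟩
      have h1 : ∃ e, Emb X.2 𝔄 e := by
        by_contra hcon
        refine hX X ⟨hS, hcon⟩ ⟨fun i => ((S.equivFin.symm i : S) : B), ?_, fun R t => Iff.rfl⟩
        intro i j hij
        exact S.equivFin.symm.injective (Subtype.ext hij)
      obtain ⟨e, he⟩ := h1
      refine ⟨fun b => if hb : b ∈ S then e (S.equivFin ⟨b, hb⟩) else ⟨c, by simp⟩, ?_, ?_⟩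
      · intro x hx y hy hxy
        simp only [dif_pos hx, dif_pos hy] at hxy
        have h2 := S.equivFin.injective (he.1 hxy)
        exact congrArg Subtype.val h2
      · intro R t ht
        have h2 := he.2 R (fun j => S.equivFin ⟨t j, ht j⟩)
        have h3 : (fun j => if hb : t j ∈ S then e (S.equivFin ⟨t j, hb⟩) else ⟨c, by simp⟩) =
            fun j => e (S.equivFin ⟨t j, ht j⟩) := by
          funext j
          rw [dif_pos (ht j)]
        rw [h3, ← h2]
        show 𝔅.rel R t ↔ 𝔅.rel R (fun j => ((S.equivFin.symm (S.equivFin ⟨t j, ht j⟩) : S) : B))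
        simp only [Equiv.symm_apply_apply]
    let rS : K → K → B → B → Prop := fun a b x y =>
      𝔅.rel (Sum.inr (Sum.inl (a, b))) (![x, y] : Fin 2 → B)
    let rC : B → B → B → Prop := fun x y z =>
      𝔅.rel (Sum.inr (Sum.inr ())) (![x, y, z] : Fin 3 → B)
    have hGE : ∀ (S : Finset B) (g : B → Word c), (∀ x ∈ S, ∀ y ∈ S, g x = g y → x = y) →
        (∀ (R : τ.S) (t : Fin (τ.ar R) → B), (∀ j, t j ∈ S) →
          (𝔅.rel R t ↔ 𝔄.rel R (fun j => g (t j)))) → GE rS rC S g := by
      intro S g h1 h2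
      refine ⟨h1, ?_, ?_⟩
      · intro x hx y hy a b
        have h3 := h2 (Sum.inr (Sum.inl (a, b))) (![x, y] : Fin 2 → B) (by
          intro j
          change Fin 2 at j
          fin_cases j
          · exact hx
          · exact hy)
        exact h3
      · intro x hx y hy z hz
        have h3 := h2 (Sum.inr (Sum.inr ())) (![x, y, z] : Fin 3 → B) (by
          intro j
          change Fin 3 at j
          fin_cases j
          · exact hx
          · exact hy
          · exact hz)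
        exact h3
    have H : ∀ S : Finset B, S.card ≤ 5 → ∃ g : B → Word c, GE rS rC S g := by
      intro S hS
      obtain ⟨g, h1, h2⟩ := hloc S (hS.trans (Nat.le_add_right _ _))
      exact ⟨g, hGE S g h1 h2⟩
    have := Fintype.ofFinite B
    obtain ⟨e, he, -⟩ := main c rS rC H _ Finset.univ rfl 0
    have hmu : ∀ x : B, x ∈ (Finset.univ : Finset B) := Finset.mem_univ
    refine ⟨e, fun x y hxy => he.1 x (hmu x) y (hmu y) hxy, ?_⟩
    intro R t
    match R, t with
    | Sum.inr (Sum.inl (a, b)), t =>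
      have h1 := he.2.1 (t (0 : Fin 2)) (hmu _) (t (1 : Fin 2)) (hmu _) a b
      have h2 : (![t (0 : Fin 2), t (1 : Fin 2)] : Fin 2 → B) = t := by
        funext j
        fin_cases j <;> rfl
      have h3 : rS a b (t (0 : Fin 2)) (t (1 : Fin 2)) ↔ 𝔅.rel (Sum.inr (Sum.inl (a, b))) t := by
        show 𝔅.rel (Sum.inr (Sum.inl (a, b))) (![t (0 : Fin 2), t (1 : Fin 2)] : Fin 2 → B) ↔ _
        rw [h2]
      exact h3.symm.trans h1
    | Sum.inr (Sum.inr ()), t =>
      have h1 := he.2.2 (t (0 : Fin 3)) (hmu _) (t (1 : Fin 3)) (hmu _) (t (2 : Fin 3)) (hmu _)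
      have h2 : (![t (0 : Fin 3), t (1 : Fin 3), t (2 : Fin 3)] : Fin 3 → B) = t := by
        funext j
        fin_cases j <;> rfl
      have h3 : rC (t (0 : Fin 3)) (t (1 : Fin 3)) (t (2 : Fin 3)) ↔
          𝔅.rel (Sum.inr (Sum.inr ())) t := by
        show 𝔅.rel (Sum.inr (Sum.inr ()))
          (![t (0 : Fin 3), t (1 : Fin 3), t (2 : Fin 3)] : Fin 3 → B) ↔ _
        rw [h2]
      exact h3.symm.trans h1
    | Sum.inl R, t =>
      let S : Finset B := Finset.univ.image t
      have hS : S.card ≤ n := by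
        refine Finset.card_image_le.trans ?_
        rw [Finset.card_univ]
        have h1 : Fintype.card (Fin (τ.ar (Sum.inl R))) = σ.ar R := Fintype.card_fin _
        rw [h1]
        exact (Finset.single_le_sum (f := fun R : σ.S => σ.ar R) (fun _ _ => Nat.zero_le _)
          (Finset.mem_univ R)).trans (Nat.le_add_left _ _)
      obtain ⟨g, h1, h2⟩ := hloc S hS
      have hg := hGE S g h1 h2
      have htS : ∀ j, t j ∈ S := fun j => Finset.mem_image_of_mem t (Finset.mem_univ j)
      have hsame : SameT (c := c) (r := σ.ar R) (fun j => g (t j)) (fun j => e (t j)) := by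
        refine ⟨fun i j => ?_, fun i j a b => ?_, fun i j k => ?_⟩
        · constructor
          · intro h
            exact congrArg e (h1 _ (htS i) _ (htS j) h)
          · intro h
            exact congrArg g (he.1 _ (hmu _) _ (hmu _) h)
        · rw [← hg.2.1 _ (htS i) _ (htS j), ← he.2.1 _ (hmu _) _ (hmu _)]
        · rw [← hg.2.2 _ (htS i) _ (htS j) _ (htS k), ← he.2.2 _ (hmu _) _ (hmu _) _ (hmu _)]
      have hsame' : SameT (c := c) (r := σ.ar R) (fun j => e (t j)) (fun j => g (t j)) :=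
        ⟨fun i j => (hsame.1 i j).symm, fun i j a b => (hsame.2.1 i j a b).symm,
          fun i j k => (hsame.2.2 i j k).symm⟩
      rw [h2 (Sum.inl R) t htS]
      exact ⟨hB R _ _ hsame, hB R _ _ hsame'⟩

end Pool.Agent.Work.MP_8dbde4_lc.Loc
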