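import Pool.Agent.Work.MP_8dbde4_lc.Loc.Stmts
import Pool.Agent.Work.MP_8dbde4_lc.HP.Fix
import Pool.Agent.Work.MP_8dbde4_lc.HP.Base
import Pool.Agent.Work.MP_8dbde4_lc.HP.Expr

/-!
# The refinement by Horn steps is definable in every closed logic
-/

set_option autoImplicit false
open Classical

namespace Pool.Agent.Work.MP_8dbde4_lc.Loc

open Pool.Agent.Work.MP_8dbde4_lc.TS
open Pool.Agent.Work.MP_8dbde4_lc.HP (add adds red un Query IsClosed InE St defStr expr_un)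

namespace XFORM

variable {σ : Sig} {K : Type} {A : Type}
variable {E : (σ : Sig) → (ι : Type) → Query σ ι → Prop}

/-- one step of the closure -/
def hullQ (L : MLang σ K) (a b : K) : Query (add (add σ 1) 2) (Fin 2) := fun A 𝔄 t =>
  t 1 = t 0 ∨ ∃ (R : σ.S) (s : Fin (σ.ar R) → Bool) (I : Finset (Fin (σ.ar R)))
    (j : Fin (σ.ar R)), ∃ u : Fin (σ.ar R) → A, 𝔄.rel (some (some R)) u ∧
      (∀ i, (s i = true ↔ un (red 𝔄) (u i))) ∧
      ((∀ i ∈ I, s i = true) ∧ s j = true ∧ Forced L a b R s I j) ∧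
      (∀ i, i ∈ I → 𝔄.rel none ![t 0, u i]) ∧ t 1 = u j

lemma vec2 {ι A : Type} (f : ι → A) (i j : ι) :
    (fun k : Fin 2 => f ((![i, j] : Fin 2 → ι) k)) = ![f i, f j] := by
  funext k
  fin_cases k <;> rfl

lemma expr_hullQ (hE : IsClosed E) (L : MLang σ K) (a b : K) : E _ _ (hullQ L a b) := by
  refine hE.or (hE.eq (σ := add (add σ 1) 2) (ι := Fin 2) 1 0) (hE.exI fun R => hE.exI fun s =>
    hE.exI fun I => hE.exI fun j => ?_)
  refine hE.congr (hE.exT (P := fun A 𝔄 v => 𝔄.rel (some (some R)) (fun i => v (Sum.inr i)) ∧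
      (∀ i : Fin (σ.ar R), (s i = true ↔ 𝔄.rel (some none) (fun _ => v (Sum.inr i)))) ∧
      ((∀ i ∈ I, s i = true) ∧ s j = true ∧ Forced L a b R s I j) ∧
      (∀ i : Fin (σ.ar R), i ∈ I → 𝔄.rel none
        (fun k : Fin 2 => v ((![Sum.inl 0, Sum.inr i] : Fin 2 → Fin 2 ⊕ Fin (σ.ar R)) k))) ∧
      v (Sum.inl 1) = v (Sum.inr j)) ?_) (fun A _ _ 𝔄 t => ?_)
  · refine hE.and (hE.rel (σ := add (add σ 1) 2) (ι := Fin 2 ⊕ Fin (σ.ar R)) (some (some R)) _)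
      (hE.and (hE.allI fun i => hE.iffC (hE.rel (σ := add (add σ 1) 2)
        (ι := Fin 2 ⊕ Fin (σ.ar R)) (some none) (fun _ => Sum.inr i)) _)
      (hE.and (hE.const _) (hE.and (hE.allI fun i => ?_) (hE.eq _ _))))
    exact hE.congr (hE.or (hE.const (¬ i ∈ I)) (hE.rel (σ := add (add σ 1) 2)
      (ι := Fin 2 ⊕ Fin (σ.ar R)) none
      (fun k : Fin 2 => (![Sum.inl 0, Sum.inr i] : Fin 2 → Fin 2 ⊕ Fin (σ.ar R)) k)))
      (fun A _ _ 𝔄 t => imp_iff_not_or)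
  · simp only [vec2]
    exact Iff.rfl

lemma st_mono {P : Query (add σ 2) (Fin 2)} {𝔄 : Str σ A} {m n : ℕ} (h : m ≤ n) {x y : A}
    (hx : St P 𝔄 m x y) : St P 𝔄 n x y := by
  induction h with
  | refl => exact hx
  | step _ ih => exact Or.inl ih

lemma st_hull (L : MLang σ K) (a b : K) (𝔄 : Str (add σ 1) A) (y : A) : ∀ (n : ℕ) (z : A),
    St (hullQ L a b) 𝔄 n y z → Hull L (red 𝔄) a b {x | un 𝔄 x} y z
  | 0, _, h => absurd h (fun h => h)
  | n + 1, z, h => by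
    rcases h with h | (h | ⟨R, s, I, j, u, h1, h2, h3, h4, h5⟩)
    · exact st_hull L a b 𝔄 y n z h
    · have : z = y := h
      rw [this]
      exact Hull.base
    · have hz : z = u j := h5
      rw [hz]
      have hs : s = mask {x | un 𝔄 x} u := by
        funext i
        have h6 : s i = true ↔ un 𝔄 (u i) := h2 i
        by_cases hi : un 𝔄 (u i)
        · rw [h6.2 hi]
          exact (decide_eq_true hi).symm
        · have : s i = false := by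
            by_contra hne
            exact hi (h6.1 (by simpa using hne))
          rw [this]
          exact (decide_eq_false hi).symm
      refine Hull.step R u I j h1 (fun i hi => (h2 i).1 (h3.1 i hi)) ((h2 j).1 h3.2.1)
        (hs ▸ h3.2.2) (fun i hi => ?_)
      have h7 : St (hullQ L a b) 𝔄 n y (u i) := h4 i hi
      exact st_hull L a b 𝔄 y n (u i) h7

lemma hull_st (L : MLang σ K) (a b : K) (𝔄 : Str (add σ 1) A) (y : A) (z : A)
    (h : Hull L (red 𝔄) a b {x | un 𝔄 x} y z) : ∃ n, St (hullQ L a b) 𝔄 n y z := by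
  induction h with
  | base => exact ⟨1, Or.inr (Or.inl rfl)⟩
  | step R t I j h1 h2 h3 h4 _ ih =>
    choose! N hN using ih
    obtain ⟨M, hM⟩ : ∃ M, ∀ i ∈ I, N i ≤ M :=
      ⟨I.sup N, fun i hi => Finset.le_sup hi⟩
    refine ⟨M + 1, Or.inr (Or.inr ⟨R, mask {x | un 𝔄 x} t, I, j, t, h1, fun i => ?_, ⟨?_, ?_, h4⟩,
      fun i hi => ?_, rfl⟩)⟩
    · exact decide_eq_true_iff
    · intro i hi
      exact decide_eq_true (h2 i hi)
    · exact decide_eq_true h3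
    · exact st_mono (hM i hi) (hN i hi)

/-- the closure, as a query -/
lemma expr_hull (hE : IsClosed E) (L : MLang σ K) (a b : K) :
    E (add σ 1) (Fin 2) (fun _ 𝔄 t => Hull L (red 𝔄) a b {x | un 𝔄 x} (t 0) (t 1)) :=
  hE.congr (hE.ifp (expr_hullQ hE L a b)) (fun A _ _ 𝔄 t =>
    ⟨fun h => hull_st L a b 𝔄 _ _ h, fun ⟨n, h⟩ => st_hull L a b 𝔄 _ n _ h⟩)

/-- one round of the refinement -/
def refQ (L : MLang σ K) : Query (add σ 2) (Fin 2) := fun _ 𝔄 t =>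
  refine L (red 𝔄) (fun x y => 𝔄.rel none ![x, y]) (t 0) (t 1)

/-- the substitution: `W` is the class of the variable `0` -/
def D : (R : (add σ 1).S) → Query (add σ 2) (Fin 2 ⊕ Fin ((add σ 1).ar R))
  | none => fun _ 𝔄 s => ¬ 𝔄.rel none
      (fun i : Fin 2 => s ((![Sum.inl 0, Sum.inr (0 : Fin 1)] : Fin 2 → Fin 2 ⊕ Fin 1) i))
  | some R => fun _ 𝔄 s => 𝔄.rel (some R) (fun i => s (Sum.inr i))

lemma expr_D (hE : IsClosed E) (R : (add σ 1).S) : E _ _ (D (σ := σ) R) := by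
  cases R with
  | none =>
    exact hE.not (hE.rel (σ := add σ 2) (ι := Fin 2 ⊕ Fin 1) none
      (fun i : Fin 2 => (![Sum.inl 0, Sum.inr (0 : Fin 1)] : Fin 2 → Fin 2 ⊕ Fin 1) i))
  | some R =>
    exact hE.rel (σ := add σ 2) (ι := Fin 2 ⊕ Fin (σ.ar R)) (some R) (fun i => Sum.inr i)

/-- the closure inside the class -/
lemma expr_hull₂ (hE : IsClosed E) (L : MLang σ K) (a b : K) :
    E (add σ 2) (Fin 2) (fun _ 𝔄 t => Hull L (red 𝔄) a b {z | ¬ 𝔄.rel none ![t 0, z]}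
      (t 0) (t 1)) := by
  refine hE.congr (hE.subst (expr_hull hE L a b) (fun R => expr_D (σ := σ) hE R))
    (fun A _ _ 𝔄 t => ?_)
  have h1 : {z | ¬ 𝔄.rel none ![t 0, z]} = {x | un (defStr D 𝔄 t) x} := by
    ext z
    show (¬ 𝔄.rel none ![t 0, z]) ↔ (¬ 𝔄.rel none (fun i : Fin 2 =>
      Sum.elim t (fun _ => z) ((![Sum.inl 0, Sum.inr (0 : Fin 1)] : Fin 2 → Fin 2 ⊕ Fin 1) i)))
    rw [vec2]
    exact Iff.rfl
  rw [h1]
  exact Iff.rfl

lemma expr_refQ [Finite K] (hE : IsClosed E) (L : MLang σ K) : E _ _ (refQ L) := by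
  have hX : ∀ {ι : Type} (i j : ι), E (add σ 2) ι (fun _ 𝔄 t => 𝔄.rel none ![t i, t j]) := by
    intro ι i j
    refine hE.congr (hE.rel (σ := add σ 2) (ι := ι) none
      (fun k : Fin 2 => (![i, j] : Fin 2 → ι) k)) (fun A _ _ 𝔄 t => ?_)
    exact iff_of_eq (congrArg (fun u : Fin 2 → A => 𝔄.rel none u) (vec2 t i j).symm)
  have hH : ∀ (a b : K) {ι : Type} (i j : ι), E (add σ 2) ι (fun _ 𝔄 t =>
      Hull L (red 𝔄) a b {z | ¬ 𝔄.rel none ![t i, z]} (t i) (t j)) := by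
    intro a b ι i j
    refine hE.congr (hE.reindex (expr_hull₂ hE L a b) (![i, j] : Fin 2 → ι))
      (fun A _ _ 𝔄 t => ?_)
    exact Iff.rfl
  refine hE.congr (hE.and (hE.not (hX 0 1)) (hE.exI fun a : K => hE.exI fun b : K =>
    hE.ex (P := fun _ 𝔄 v => Good L a b ∧ ¬ 𝔄.rel none ![v none, v (some (0 : Fin 2))] ∧
      ¬ (Hull L (red 𝔄) a b {z | ¬ 𝔄.rel none ![v none, z]} (v none) (v (some 0)) ↔
        Hull L (red 𝔄) a b {z | ¬ 𝔄.rel none ![v none, z]} (v none) (v (some 1))))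
      (hE.and (hE.const _) (hE.and (hE.not (hX none (some 0))) ?_)))) (fun A _ _ 𝔄 t => Iff.rfl)
  have h0 := hH a b (none : Option (Fin 2)) (some 0)
  have h1 := hH a b (none : Option (Fin 2)) (some 1)
  exact hE.congr (hE.or (hE.and h0 (hE.not h1)) (hE.and h1 (hE.not h0)))
    (fun A _ _ 𝔄 t => by tauto)

lemma st_sep (L : MLang σ K) (𝔄 : Str σ A) : ∀ (n : ℕ) (x y : A),
    St (refQ L) 𝔄 n x y ↔ Sep L 𝔄 n x y
  | 0, _, _ => Iff.rfl
  | n + 1, x, y => by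
    show (St (refQ L) 𝔄 n x y ∨ refine L 𝔄 (fun x y => St (refQ L) 𝔄 n x y) x y) ↔
      (Sep L 𝔄 n x y ∨ refine L 𝔄 (Sep L 𝔄 n) x y)
    have h1 : (fun x y => St (refQ L) 𝔄 n x y) = Sep L 𝔄 n := by
      funext x y
      exact propext (st_sep L 𝔄 n x y)
    rw [h1, st_sep L 𝔄 n x y]

lemma expr_sep [Finite K] (hE : IsClosed E) (L : MLang σ K) :
    E σ (Fin 2) (fun _ 𝔄 t => ∃ n, Sep L 𝔄 n (t 0) (t 1)) :=
  hE.congr (hE.ifp (expr_refQ hE L)) (fun A _ _ 𝔄 t =>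
    exists_congr fun n => (st_sep L 𝔄 n _ _).symm)

lemma expr_acc [Finite K] (hE : IsClosed E) (L : MLang σ K) :
    InE E (fun (A : Type) (𝔄 : Str σ A) => Acc L 𝔄) := by
  have h1 : E σ Empty (fun A 𝔄 _ => ∀ R : σ.S, ¬ (¬ L.live R ∧
      ∃ t : Fin (σ.ar R) → A, 𝔄.rel R t)) := by
    refine hE.allI fun R => hE.not (hE.and (hE.const _) ?_)
    exact hE.congr (hE.exT (ι := Empty) (P := fun A 𝔄 v => 𝔄.rel R (fun i => v (Sum.inr i)))
      (hE.rel (σ := σ) (ι := Empty ⊕ Fin (σ.ar R)) R (fun i => Sum.inr i)))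
      (fun A _ _ 𝔄 t => Iff.rfl)
  have h2 : E σ Empty (fun A 𝔄 _ => ∀ (R : σ.S) (s : Fin (σ.ar R) → Bool),
      ¬ (L.strict R s ∧ ∃ t : Fin (σ.ar R) → A, 𝔄.rel R t ∧
        ¬ ∃ i j : Fin (σ.ar R), (s i = true ∧ s j = true) ∧ ∃ n, Sep L 𝔄 n (t i) (t j))) := by
    refine hE.allI fun R => hE.allI fun s => hE.not (hE.and (hE.const _) ?_)
    refine hE.congr (hE.exT (ι := Empty) (P := fun A 𝔄 v => 𝔄.rel R (fun i => v (Sum.inr i)) ∧
      ¬ ∃ i j : Fin (σ.ar R), (s i = true ∧ s j = true) ∧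
        ∃ n, Sep L 𝔄 n (v (Sum.inr i)) (v (Sum.inr j))) ?_) (fun A _ _ 𝔄 t => Iff.rfl)
    refine hE.and (hE.rel (σ := σ) (ι := Empty ⊕ Fin (σ.ar R)) R (fun i => Sum.inr i))
      (hE.not (hE.exI fun i => hE.exI fun j => hE.and (hE.const _) ?_))
    exact hE.congr (hE.reindex (expr_sep hE L)
      (![Sum.inr i, Sum.inr j] : Fin 2 → Empty ⊕ Fin (σ.ar R))) (fun A _ _ 𝔄 t => Iff.rfl)
  refine hE.congr (hE.and h1 h2) (fun A _ _ 𝔄 t => ?_)
  constructor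
  · rintro ⟨h3, h4⟩
    refine ⟨fun R => ?_, fun R s => ?_⟩
    · rintro ⟨h5, t, h6⟩
      exact h5 (h3 R t h6)
    · rintro ⟨h5, t, h6, h7⟩
      obtain ⟨i, j, hi, hj, n, hn⟩ := h4 R t s h6 h5
      exact h7 ⟨i, j, ⟨hi, hj⟩, n, hn⟩
  · rintro ⟨h3, h4⟩
    refine ⟨fun R t h6 => ?_, fun R t s h6 h5 => ?_⟩
    · by_contra h5
      exact h3 R ⟨h5, t, h6⟩
    · by_contra h7
      refine h4 R s ⟨h5, t, h6, ?_⟩
      rintro ⟨i, j, ⟨hi, hj⟩, n, hn⟩
      exact h7 ⟨i, j, hi, hj, n, hn⟩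

end XFORM

theorem FORM_pf : S_FORM := fun _ _ _ L =>
  (HP.inE_FP _).1 (XFORM.expr_acc HP.isClosed_FP L)

end Pool.Agent.Work.MP_8dbde4_lc.Loc
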