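import Pool.Agent.Work.MP_8dbde4_lc.Loc.Stmts
import Pool.Agent.Work.MP_8dbde4_lc.Tree.I_HOM

/-!
Block Loc of MP_8dbde4_lc, item HOM: homogeneity of the expansion of an invariant structure by back
and forth.
-/

set_option autoImplicit false
open Classical

namespace Pool.Agent.Work.MP_8dbde4_lc.Loc

open Pool.Agent.Work.MP_8dbde4_lc.TS
open Pool.Agent.Work.MP_8dbde4_lc.Tree (Word Agr Sp Cc SameT PI)

/-- Homogeneity by back and forth. -/
theorem HOM_pf (h2 : Tree.S_OPE) (h3 : Tree.S_CTB) : S_HOM := by
  intro σ K _ c 𝔅 hB hc S f hf hR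
  have hF : PI c (S.image (fun x => (x, f x))) := by
    refine ⟨?_, ?_, ?_⟩
    · intro p hp q hq
      rw [Finset.mem_image] at hp hq
      obtain ⟨x, hx, rfl⟩ := hp
      obtain ⟨y, hy, rfl⟩ := hq
      exact ⟨fun h => congrArg f h, fun h => hf hx hy h⟩
    · intro p hp q hq a b
      rw [Finset.mem_image] at hp hq
      obtain ⟨x, hx, rfl⟩ := hp
      obtain ⟨y, hy, rfl⟩ := hq
      have h := hR (Sum.inr (Sum.inl (a, b))) (![x, y] : Fin 2 → Word c) (by
        intro j
        change Fin 2 at j
        fin_cases j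
        · exact hx
        · exact hy)
      exact h
    · intro p hp q hq r hr
      rw [Finset.mem_image] at hp hq hr
      obtain ⟨x, hx, rfl⟩ := hp
      obtain ⟨y, hy, rfl⟩ := hq
      obtain ⟨z, hz, rfl⟩ := hr
      have h := hR (Sum.inr (Sum.inr ())) (![x, y, z] : Fin 3 → Word c) (by
        intro j
        change Fin 3 at j
        fin_cases j
        · exact hx
        · exact hy
        · exact hz)
      exact h
  obtain ⟨g, hg1, hg2⟩ := Tree.XHOM.bf h2 hc (h3 K c) ⟨_, hF⟩
  have hSp : ∀ (a b : K) (x y : Word c), Sp a b x y ↔ Sp a b (g x) (g y) := by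
    intro a b x y
    have h := (hg2 {x, y}).2.1 (x, g x) (Finset.mem_image_of_mem _ (by simp)) (y, g y)
      (Finset.mem_image_of_mem _ (by simp)) a b
    exact h
  have hCc : ∀ (x y z : Word c), Cc x y z ↔ Cc (g x) (g y) (g z) := by
    intro x y z
    have h := (hg2 {x, y, z}).2.2 (x, g x) (Finset.mem_image_of_mem _ (by simp)) (y, g y)
      (Finset.mem_image_of_mem _ (by simp)) (z, g z) (Finset.mem_image_of_mem _ (by simp))
    exact h
  refine ⟨g, ?_, ?_⟩
  · intro R t
    match R, t with
    | .inl R, t =>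
      constructor
      · intro h
        exact hB R t (fun j => g (t j))
          ⟨fun i j => g.injective.eq_iff.symm, fun i j a b => hSp a b _ _,
            fun i j k => hCc _ _ _⟩ h
      · intro h
        exact hB R (fun j => g (t j)) t
          ⟨fun i j => g.injective.eq_iff, fun i j a b => (hSp a b _ _).symm,
            fun i j k => (hCc _ _ _).symm⟩ h
    | .inr (.inl p), t => exact hSp p.1 p.2 _ _
    | .inr (.inr _), t => exact hCc _ _ _
  · intro x hx
    exact hg1 (x, f x) (Finset.mem_image_of_mem _ hx)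

end Pool.Agent.Work.MP_8dbde4_lc.Loc
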