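import Pool.Agent.Work.MP_8dbde4_lc.Loc.Stmts

/-!
Item HORN of the block Loc of MP_8dbde4_lc: the Horn step with masks and its minimality.
-/

set_option autoImplicit false
open Classical

namespace Pool.Agent.Work.MP_8dbde4_lc.Loc

open Pool.Agent.Work.MP_8dbde4_lc.TS
open Pool.Agent.Work.MP_8dbde4_lc.Tree (Word Agr Sp Cc SameT Fam Gad El anch trip Den row BFSys meet)

namespace XHORN

variable {σ : Sig} {K : Type}

/-- The meet of finitely many patterns. -/
theorem exists_meet (L : MLang σ K) (a b : K) (hG : Good L a b) (R : σ.S) (hR : L.live R)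
    (s : Fin (σ.ar R) → Bool) (I : Set (Fin (σ.ar R))) (J : Finset (Fin (σ.ar R)))
    (hJ : ∀ j ∈ J, ∃ p, L.P R s p ∧ (∀ i, s i = true → p i = a ∨ p i = b) ∧
      (∀ i ∈ I, p i = b) ∧ p j = a) :
    ∃ q, L.P R s q ∧ (∀ i, s i = true → q i = a ∨ q i = b) ∧ (∀ i ∈ I, q i = b) ∧
      ∀ j ∈ J, q j = a := by
  induction J using Finset.induction_on with
  | empty =>
    refine ⟨fun _ => b, L.const R s b hR, fun j _ => Or.inr rfl, fun i _ => rfl, fun j hj => ?_⟩
    exact absurd hj (Finset.notMem_empty j)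
  | insert k J hk ih =>
    obtain ⟨q, hq1, hq2, hq3, hq4⟩ := ih (fun j hj => hJ j (Finset.mem_insert_of_mem hj))
    obtain ⟨p, hp1, hp2, hp3, hp4⟩ := hJ k (Finset.mem_insert_self k J)
    refine ⟨fun j => meet a b (p j) (q j), hG.2 R hR s p q hp2 hq2 hp1 hq1, ?_, ?_, ?_⟩
    · intro j _
      by_cases hc : p j = b ∧ q j = b
      · simp [meet, hc]
      · simp [meet, hc]
    · intro i hi
      simp [meet, hp3 i hi, hq3 i hi]
    · intro j hj
      rcases Finset.mem_insert.1 hj with h | h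
      · subst h
        have : ¬ (a = b) := hG.1
        simp [meet, hp4, this]
      · have : ¬ (a = b) := hG.1
        simp [meet, hq4 j h, this]

theorem mask_iff {A : Type} {n : ℕ} (W : Set A) (t : Fin n → A) (i : Fin n) :
    mask W t i = true ↔ t i ∈ W := by
  simp [mask]

end XHORN

theorem HORN_pf : S_HORN := by
  intro σ K L A 𝔄 a b W y hG
  refine ⟨?_, ?_⟩
  · intro hL R t ht
    have hR := hL R t ht
    -- the places in the hull
    let I : Finset (Fin (σ.ar R)) :=
      Finset.univ.filter (fun i => t i ∈ W ∧ Hull L 𝔄 a b W y (t i))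
    have hI : ∀ i, i ∈ I ↔ t i ∈ W ∧ Hull L 𝔄 a b W y (t i) := fun i => by simp [I]
    have key : ∀ j ∈ (Finset.univ.filter (fun j => t j ∈ W ∧ j ∉ I)),
        ∃ p, L.P R (mask W t) p ∧ (∀ i, mask W t i = true → p i = a ∨ p i = b) ∧
          (∀ i ∈ (I : Set (Fin (σ.ar R))), p i = b) ∧ p j = a := by
      intro j hj
      have hj' : t j ∈ W ∧ j ∉ I := (Finset.mem_filter.1 hj).2
      by_contra hcon
      apply hj'.2
      rw [hI]
      refine ⟨hj'.1, Hull.step R t I j ht (fun i hi => ((hI i).1 hi).1) hj'.1 ?_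
        (fun i hi => ((hI i).1 hi).2)⟩
      intro p hp hpin hpI
      by_contra hpj
      apply hcon
      refine ⟨p, hp, hpin, fun i hi => hpI i (Finset.mem_coe.1 hi), ?_⟩
      rcases hpin j ((XHORN.mask_iff W t j).2 hj'.1) with h | h
      · exact h
      · exact absurd h hpj
    obtain ⟨q, hq1, hq2, hq3, hq4⟩ :=
      XHORN.exists_meet L a b hG R hR (mask W t) I _ key
    refine L.mono R (mask W t) (mask W t) q _ hq1 (fun j hj => ⟨hj, ?_⟩)
    have hjW : t j ∈ W := (XHORN.mask_iff W t j).1 hj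
    by_cases hjh : Hull L 𝔄 a b W y (t j)
    · have : j ∈ I := (hI j).2 ⟨hjW, hjh⟩
      simp only [hjh, if_true]
      exact (hq3 j (Finset.mem_coe.2 this)).symm
    · have hjI : j ∉ I := fun h => hjh ((hI j).1 h).2
      simp only [hjh, if_false]
      exact (hq4 j (Finset.mem_filter.2 ⟨Finset.mem_univ _, hjW, hjI⟩)).symm
  · intro h hs hv hy x hx
    induction hx with
    | base => exact hy
    | step R t I j ht hI hj hF _ ih =>
      exact hF (fun i => h (t i)) (hs R t ht)
        (fun i hi => hv (t i) ((XHORN.mask_iff W t i).1 hi)) ih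

end Pool.Agent.Work.MP_8dbde4_lc.Loc
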