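import Pool.Agent.Work.MP_8dbde4_lc.Loc.Stmts

set_option autoImplicit false
open Classical

namespace Pool.Agent.Work.MP_8dbde4_lc.Loc

open Pool.Agent.Work.MP_8dbde4_lc.TS
open Pool.Agent.Work.MP_8dbde4_lc.Tree (Word Agr Sp Cc SameT)

namespace XISC

variable {K : Type} {c : ℚ → K}

/-- the default word -/
def base (c : ℚ → K) : Word c := ⟨c, by simp⟩

lemma base_val (c : ℚ → K) (r : ℚ) : (base c).1 r = c r := rfl

/-- a tuple of length three -/
def tup {n : ℕ} (a b d : Word c) : Fin n → Word c :=
  fun i => if i.val = 0 then a else if i.val = 1 then b else d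

lemma tup0 {n : ℕ} (a b d : Word c) {i : Fin n} (h : i.val = 0) : tup a b d i = a := by
  unfold tup
  rw [if_pos h]

lemma tup1 {n : ℕ} (a b d : Word c) {i : Fin n} (h : i.val = 1) : tup a b d i = b := by
  unfold tup
  rw [if_neg (by omega), if_pos h]

lemma tup2 {n : ℕ} (a b d : Word c) {i : Fin n} (h : i.val = 2) : tup a b d i = d := by
  unfold tup
  rw [if_neg (by omega), if_neg (by omega)]

/-- the word `upd x q a` agrees with `x` below every `r ≤ q` -/
lemma agr_upd (x : Word c) {q r : ℚ} (a : K) (h : r ≤ q) : Agr (upd x q a) x r :=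
  fun _ hr => upd_ne x a (ne_of_lt (lt_of_lt_of_le hr h))

lemma agr_refl (x : Word c) (r : ℚ) : Agr x x r := fun _ _ => rfl

lemma agr_symm {x y : Word c} {r : ℚ} (h : Agr x y r) : Agr y x r := fun q hq => (h q hq).symm

lemma agr_trans {x y z : Word c} {r : ℚ} (h : Agr x y r) (h' : Agr y z r) : Agr x z r :=
  fun q hq => (h q hq).trans (h' q hq)

/-- all the words of a family which agree below `r` with a fixed word agree below `r` -/
lemma agr_all {x y z : Word c} {r : ℚ} (h : Agr x z r) (h' : Agr y z r) : Agr x y r :=
  agr_trans h (agr_symm h')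

end XISC

open XISC

theorem ISC_pf : S_ISC := by
  intro σ K c 𝔅 hB C hIC
  obtain ⟨h, hC⟩ := hIC
  have hcase : ∀ i : Fin (σ.ar C), i.val = 0 ∨ i.val = 1 ∨ i.val = 2 := by
    intro i
    have := i.isLt
    omega
  -- the three coordinates
  set z : Fin (σ.ar C) := Fin.cast h 0 with hz
  set x : Fin (σ.ar C) := Fin.cast h 1 with hx
  set y : Fin (σ.ar C) := Fin.cast h 2 with hy
  have hz0 : z.val = 0 := rfl
  have hx1 : x.val = 1 := rfl
  have hy2 : y.val = 2 := rfl
  have hzi : ∀ i : Fin (σ.ar C), i.val = 0 → i = z := fun i hi => Fin.ext (hi.trans hz0.symm)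
  have hxi : ∀ i : Fin (σ.ar C), i.val = 1 → i = x := fun i hi => Fin.ext (hi.trans hx1.symm)
  have hyi : ∀ i : Fin (σ.ar C), i.val = 2 → i = y := fun i hi => Fin.ext (hi.trans hy2.symm)
  have hrel : ∀ a b d : Word c, Cc a b d → 𝔅.rel C (tup a b d) := by
    intro a b d hcc
    rw [hC, tup0 _ _ _ hz0, tup1 _ _ _ hx1, tup2 _ _ _ hy2]
    exact hcc
  -- two letters
  have htwo : (lang 𝔅 hB).live C → ∀ a : K, ∃ b : K, b ≠ a := by
    rintro ⟨w, hw⟩ a
    rw [hC] at hw
    obtain ⟨q, _, _, _, hne⟩ := hw
    by_cases h1 : (w z).1 q = a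
    · exact ⟨(w x).1 q, fun h2 => hne (h1.trans h2.symm)⟩
    · exact ⟨(w z).1 q, h1⟩
  -- `z` splits off at the place `q`
  have hsplit : ∀ (d : K) (q : ℚ), d ≠ c q → Cc (upd (base c) q d) (base c) (base c) := by
    intro d q hd
    refine ⟨q, agr_upd _ _ le_rfl, agr_upd _ _ le_rfl, rfl, ?_⟩
    rw [upd_self]
    exact hd
  refine ⟨h.symm, ?_, ?_, ?_⟩
  · rintro ⟨a, b, hab⟩
    by_cases h1 : a = c 0
    · have h2 : b ≠ c 0 := fun h3 => hab (h1.trans h3.symm)
      exact ⟨_, hrel _ _ _ (hsplit b 0 h2)⟩
    · exact ⟨_, hrel _ _ _ (hsplit a 0 h1)⟩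
  · intro hlive s p
    constructor
    · rintro ⟨w, hw, q, hagr, hlet⟩ k i j hk hi hj hsk hsi hsj
      rw [hzi k hk] at hsk
      rw [hxi i hi] at hsi
      rw [hyi j hj] at hsj
      rw [hxi i hi, hyi j hj]
      rw [hC] at hw
      obtain ⟨q0, h1, h2, h3, h4⟩ := hw
      rw [← hlet x hsi, ← hlet y hsj]
      rcases lt_trichotomy q q0 with hq | hq | hq
      · exact (h1 q hq).symm.trans (h2 q hq)
      · rw [hq]
        exact h3
      · exact absurd (hagr z x hsk hsi q0 hq) h4
    · intro hp
      by_cases hsz : s z = true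
      · -- the letter of `x` and `y`
        obtain ⟨e, hex, hey⟩ : ∃ e : K, (s x = true → p x = e) ∧ (s y = true → p y = e) := by
          by_cases hsx : s x = true
          · exact ⟨p x, fun _ => rfl, fun hsy => (hp z x y hz0 hx1 hy2 hsz hsx hsy).symm⟩
          · exact ⟨p y, fun h1 => absurd h1 hsx, fun _ => rfl⟩
        by_cases hpz : p z = e
        · -- a later split
          obtain ⟨d, hd⟩ := htwo hlive (c 1)
          have hx1' : (upd (base c) 0 e).1 1 = c 1 := upd_ne _ _ (by norm_num)
          have hcc : Cc (upd (upd (base c) 0 e) 1 d) (upd (base c) 0 e) (upd (base c) 0 e) := by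
            refine ⟨1, agr_upd _ _ le_rfl, agr_upd _ _ le_rfl, rfl, ?_⟩
            rw [upd_self, hx1']
            exact hd
          refine ⟨_, hrel _ _ _ hcc, 0, ?_, ?_⟩
          · have hall : ∀ i : Fin (σ.ar C), Agr (tup (upd (upd (base c) 0 e) 1 d)
                (upd (base c) 0 e) (upd (base c) 0 e) i) (base c) 0 := by
              intro i
              rcases hcase i with hi | hi | hi
              · rw [tup0 _ _ _ hi]
                exact agr_trans (agr_upd _ _ (by norm_num)) (agr_upd _ _ le_rfl)
              · rw [tup1 _ _ _ hi]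
                exact agr_upd _ _ le_rfl
              · rw [tup2 _ _ _ hi]
                exact agr_upd _ _ le_rfl
            exact fun i j _ _ => agr_all (hall i) (hall j)
          · intro i hi
            rcases hcase i with h1 | h1 | h1
            · rw [tup0 _ _ _ h1, upd_ne _ _ (by norm_num), upd_self, hzi i h1]
              exact hpz.symm
            · rw [tup1 _ _ _ h1, upd_self, hxi i h1]
              exact (hex (by rw [← hxi i h1]; exact hi)).symm
            · rw [tup2 _ _ _ h1, upd_self, hyi i h1]
              exact (hey (by rw [← hyi i h1]; exact hi)).symm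
        · have hcc : Cc (upd (base c) 0 (p z)) (upd (base c) 0 e) (upd (base c) 0 e) := by
            refine ⟨0, agr_all (agr_upd _ _ le_rfl) (agr_upd _ _ le_rfl),
              agr_all (agr_upd _ _ le_rfl) (agr_upd _ _ le_rfl), rfl, ?_⟩
            rw [upd_self, upd_self]
            exact hpz
          refine ⟨_, hrel _ _ _ hcc, 0, ?_, ?_⟩
          · have hall : ∀ i : Fin (σ.ar C), Agr (tup (upd (base c) 0 (p z))
                (upd (base c) 0 e) (upd (base c) 0 e) i) (base c) 0 := by
              intro i
              rcases hcase i with hi | hi | hi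
              · rw [tup0 _ _ _ hi]
                exact agr_upd _ _ le_rfl
              · rw [tup1 _ _ _ hi]
                exact agr_upd _ _ le_rfl
              · rw [tup2 _ _ _ hi]
                exact agr_upd _ _ le_rfl
            exact fun i j _ _ => agr_all (hall i) (hall j)
          · intro i hi
            rcases hcase i with h1 | h1 | h1
            · rw [tup0 _ _ _ h1, upd_self, hzi i h1]
            · rw [tup1 _ _ _ h1, upd_self, hxi i h1]
              exact (hex (by rw [← hxi i h1]; exact hi)).symm
            · rw [tup2 _ _ _ h1, upd_self, hyi i h1]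
              exact (hey (by rw [← hyi i h1]; exact hi)).symm
      · -- `z` splits off before
        obtain ⟨d, hd⟩ := htwo hlive (c (-1))
        have hval : ∀ a : K, (upd (base c) 0 a).1 (-1) = c (-1) := fun a =>
          upd_ne _ _ (by norm_num)
        have hcc : Cc (upd (base c) (-1) d) (upd (base c) 0 (p x)) (upd (base c) 0 (p y)) := by
          refine ⟨-1, agr_all (agr_upd _ _ le_rfl) (agr_upd _ _ (by norm_num)),
            agr_all (agr_upd _ _ le_rfl) (agr_upd _ _ (by norm_num)), ?_, ?_⟩
          · rw [hval, hval]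
          · rw [upd_self, hval]
            exact hd
        refine ⟨_, hrel _ _ _ hcc, 0, ?_, ?_⟩
        · have hall : ∀ i : Fin (σ.ar C), s i = true → Agr (tup (upd (base c) (-1) d)
              (upd (base c) 0 (p x)) (upd (base c) 0 (p y)) i) (base c) 0 := by
            intro i hi
            rcases hcase i with h1 | h1 | h1
            · exact absurd (by rw [← hzi i h1]; exact hi) hsz
            · rw [tup1 _ _ _ h1]
              exact agr_upd _ _ le_rfl
            · rw [tup2 _ _ _ h1]
              exact agr_upd _ _ le_rfl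
          exact fun i j hi hj => agr_all (hall i hi) (hall j hj)
        · intro i hi
          rcases hcase i with h1 | h1 | h1
          · exact absurd (by rw [← hzi i h1]; exact hi) hsz
          · rw [tup1 _ _ _ h1, upd_self, hxi i h1]
          · rw [tup2 _ _ _ h1, upd_self, hyi i h1]
  · intro hlive s
    constructor
    · intro hs
      by_contra hno
      push Not at hno
      obtain ⟨d, hd⟩ := htwo hlive (c 0)
      obtain ⟨i, j, hi, hj, hne⟩ := hs _ (hrel _ _ _ (hsplit d 0 hd))
      apply hne
      by_cases hsz : s z = true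
      · have h1 : ∀ k : Fin (σ.ar C), s k = true → k = z := by
          intro k hk
          by_contra hkz
          have h2 : k.val ≠ 0 := fun h3 => hkz (hzi k h3)
          exact hno z k hz0 h2 hsz hk
        rw [h1 i hi, h1 j hj]
      · have h1 : ∀ k : Fin (σ.ar C), s k = true →
            tup (upd (base c) 0 d) (base c) (base c) k = base c := by
          intro k hk
          rcases hcase k with h2 | h2 | h2
          · exact absurd (by rw [← hzi k h2]; exact hk) hsz
          · exact tup1 _ _ _ h2
          · exact tup2 _ _ _ h2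
        rw [h1 i hi, h1 j hj]
    · rintro ⟨k, i, hk, hi, hsk, hsi⟩ w hw
      rw [hC] at hw
      obtain ⟨q0, _, _, h3, h4⟩ := hw
      refine ⟨k, i, hsk, hsi, fun heq => ?_⟩
      rw [hzi k hk] at heq
      rcases hcase i with h5 | h5 | h5
      · exact hi h5
      · rw [hxi i h5] at heq
        exact h4 (congrArg (fun u : Word c => u.1 q0) heq)
      · rw [hyi i h5] at heq
        exact h4 ((congrArg (fun u : Word c => u.1 q0) heq).trans h3.symm)

end Pool.Agent.Work.MP_8dbde4_lc.Loc
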