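import Pool.Agent.Work.MP_8dbde4_lc.Loc.Stmts

set_option autoImplicit false
open Classical

namespace Pool.Agent.Work.MP_8dbde4_lc.Loc

open Pool.Agent.Work.MP_8dbde4_lc.TS
open Pool.Agent.Work.MP_8dbde4_lc.Tree (Word Agr Sp Cc SameT)

namespace XLOC

variable {K : Type} {c : ℚ → K}

/-- A tuple which is not constant on `s` has a first split on `s`. -/
lemma first_split {n : ℕ} (s : Set (Fin n)) (w : Fin n → Word c)
    (h : ¬ ∀ i ∈ s, ∀ j ∈ s, w i = w j) :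
    ∃ q : ℚ, (∀ i ∈ s, ∀ j ∈ s, Agr (w i) (w j) q) ∧
      ∃ i ∈ s, ∃ j ∈ s, (w i).1 q ≠ (w j).1 q := by
  set D : Set ℚ := {r | ∃ i ∈ s, ∃ j ∈ s, (w i).1 r ≠ (w j).1 r} with hD
  have hfin : D.Finite := by
    have h1 : (⋃ i, {r | (w i).1 r ≠ c r}).Finite := Set.finite_iUnion (fun i => (w i).2)
    refine h1.subset ?_
    rintro r ⟨i, _, j, _, hne⟩
    by_cases h2 : (w i).1 r = c r
    · exact Set.mem_iUnion.2 ⟨j, fun h3 => hne (h2.trans h3.symm)⟩
    · exact Set.mem_iUnion.2 ⟨i, h2⟩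
  have hne : D.Nonempty := by
    by_contra h1
    apply h
    intro i hi j hj
    apply Subtype.ext
    funext r
    by_contra h2
    exact h1 ⟨r, i, hi, j, hj, h2⟩
  obtain ⟨q, hq, hmin⟩ := Set.exists_min_image D (fun r => r) hfin hne
  refine ⟨q, fun i hi j hj r hr => ?_, hq⟩
  by_contra h2
  exact absurd (hmin r ⟨i, hi, j, hj, h2⟩) (not_le.2 hr)

end XLOC

theorem LOC_pf : S_LOC := by
  intro σ K c 𝔅 hB
  refine ⟨fun R w hw => ⟨fun s q hFS => ?_, fun s hs => hs w hw⟩, fun hl R w hw => hl R w ?_⟩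
  · exact ⟨w, hw, q, hFS.1, fun i _ => rfl⟩
  · intro s
    by_cases hc : ∀ i ∈ s, ∀ j ∈ s, w i = w j
    · have h1 : ¬ (lang 𝔅 hB).strict R (fun i => decide (i ∈ s)) := by
        intro h2
        obtain ⟨i, j, hi, hj, hne⟩ := hw.2 _ h2
        exact hne (hc i (of_decide_eq_true hi) j (of_decide_eq_true hj))
      have h2 : ¬ ∀ u, 𝔅.rel R u → ∃ i j, decide (i ∈ s) = true ∧ decide (j ∈ s) = true ∧
        u i ≠ u j := h1
      push Not at h2
      obtain ⟨u, hu, h3⟩ := h2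
      exact ⟨u, hu, Or.inl ⟨hc, fun i hi j hj => h3 i j (decide_eq_true hi) (decide_eq_true hj)⟩⟩
    · obtain ⟨q, h1, i0, hi0, j0, hj0, hne⟩ := XLOC.first_split s w hc
      have hFS : FS (fun i => decide (i ∈ s)) w q :=
        ⟨fun i j hi hj => h1 i (of_decide_eq_true hi) j (of_decide_eq_true hj),
          i0, j0, decide_eq_true hi0, decide_eq_true hj0, hne⟩
      obtain ⟨u, hu, q', h2, h3⟩ := hw.1 _ q hFS
      exact ⟨u, hu, Or.inr ⟨q, q', fun i hi j hj =>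
        ⟨h1 i hi j hj, h2 i j (decide_eq_true hi) (decide_eq_true hj)⟩,
        fun i hi => (h3 i (decide_eq_true hi)).symm, i0, hi0, j0, hj0, hne⟩⟩

end Pool.Agent.Work.MP_8dbde4_lc.Loc
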