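import Pool.Agent.Work.MP_8dbde4_lc.Loc.Stmts
import Pool.Agent.Work.MP_8dbde4_lc.Loc.I_LOC

/-!
Item J0 of the block Loc of MP_8dbde4_lc: the instance `J_0` is solvable.
-/

set_option autoImplicit false
open Classical

namespace Pool.Agent.Work.MP_8dbde4_lc.Loc

open Pool.Agent.Work.MP_8dbde4_lc.TS
open Pool.Agent.Work.MP_8dbde4_lc.Tree (Word Agr Sp Cc SameT Fam Gad El anch trip Den row BFSys)

namespace XJ0

variable {σ : Sig} {K : Type} {c : ℚ → K}

theorem mask_iff {A : Type} {n : ℕ} (W : Set A) (t : Fin n → A) (i : Fin n) :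
    mask W t i = true ↔ t i ∈ W := by
  simp [mask]

/-- first split on a mask -/
theorem first_split {n : ℕ} (s : Fin n → Bool) (w : Fin n → Word c)
    (h : ∃ i j, s i = true ∧ s j = true ∧ w i ≠ w j) : ∃ q, FS s w q := by
  obtain ⟨i, j, hi, hj, hne⟩ := h
  obtain ⟨q, h1, i0, hi0, j0, hj0, h2⟩ := XLOC.first_split {i | s i = true} w
    (fun h3 => hne (h3 i hi j hj))
  exact ⟨q, fun i j hi hj => h1 i hi j hj, i0, j0, hi0, hj0, h2⟩

/-- the left element of a tie is not a main element -/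
theorem tie_left {U : Set K} {G : Type} [Group G] {p : ℕ} {I : Type} {D : Gad U p I} {g h : G}
    {b : ZMod p} {a w : El (mk σ) U G p I} (hT : Tie D g h b a w) (v : G) (s : ZMod p) :
    a ≠ El.main v s := by
  cases hT <;> exact fun e => by cases e

theorem anch_ne {U G : Type} [Group G] {p : ℕ} {I : Type} {w : El (mk σ) U G p I} {W : Set (El (mk σ) U G p I)}
    (ho : (El.main 1 0 : El (mk σ) U G p I) ∉ W) : ¬ (anch w ∈ W ∧ w ∈ W) := by
  rintro ⟨h1, h2⟩
  by_cases hw : w = El.main 1 0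
  · exact ho (hw ▸ h2)
  · simp only [anch, if_neg hw] at h1
    exact ho h1

/-- the pattern condition for the ties -/
theorem split_P {L : MLang σ K} {C : σ.S} (hC : IsSplit L C) (hl : L.live C) {A : Type}
    (W : Set A) (o a w : A) (H : A → K) (hH : o ∈ W → a ∈ W → w ∈ W → H a = H w) :
    L.P C (mask W (trip o a w : Fin (σ.ar C) → A))
      (fun j => H ((trip o a w : Fin (σ.ar C) → A) j)) := by
  obtain ⟨h3, _, hp, _⟩ := hC
  rw [hp hl]
  intro k i j hk hi hj hks his hjs
  rw [mask_iff] at hks his hjs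
  have hi1 : i.val ≠ 0 := by omega
  have hj1 : j.val ≠ 0 := by omega
  have hj2 : j.val ≠ 1 := by omega
  simp only [trip, hk, if_true] at hks
  simp only [trip, if_neg hi1, hi, if_true] at his
  simp only [trip, if_neg hj1, if_neg hj2] at hjs
  show H (trip o a w i) = H (trip o a w j)
  simp only [trip, if_neg hi1, hi, if_true, if_neg hj1, if_neg hj2]
  exact hH hks his hjs

/-- a step with values on one fresh tuple only -/
theorem stepH {L : MLang σ K} {C : σ.S} {U : Set K} {G : Type} [Group G] {g h : G} {p : ℕ}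
    {I : Type} {D : Gad U p I} (hC : IsSplit L C) (hl : L.live C) (W : Set (El (mk σ) U G p I))
    (v₀ : G) (α₀ β₀ : ZMod p) (R₀ : σ.S) (s₀ : Fin (σ.ar R₀) → Bool)
    (t₀ : Fin (σ.ar R₀) → I → U) (w : Fin (σ.ar R₀) → Word c) (hrel : L.rel R₀ w) (q : ℚ)
    (hFS : FS (mask W (fun j => (El.fresh (σ := mk σ) v₀ α₀ β₀ ⟨R₀, s₀⟩ t₀ j :
      El (mk σ) U G p I))) w q) (k : K)
    (hk : (∀ j, s₀ j = true → (w j).1 q = k) ∨ (El.main 1 0 : El (mk σ) U G p I) ∉ W) :
    ∃ H : El (mk σ) U G p I → K, IsStep L (JJ L C U g h D 0) W H ∧ NonC W H := by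
  let F : Fin (σ.ar R₀) → El (mk σ) U G p I := fun j => El.fresh (σ := mk σ) v₀ α₀ β₀ ⟨R₀, s₀⟩ t₀ j
  let H : El (mk σ) U G p I → K := fun x =>
    if hx : ∃ j : Fin (σ.ar R₀), x = F j then (w hx.choose).1 q else k
  have hH : ∀ j, H (F j) = (w j).1 q := by
    intro j
    have hx : ∃ j', F j = F j' := ⟨j, rfl⟩
    have h1 : H (F j) = (w hx.choose).1 q := dif_pos hx
    rw [h1]
    have h2 := hx.choose_spec
    have h3 : j = hx.choose := by
      have h4 : (El.fresh (σ := mk σ) v₀ α₀ β₀ ⟨R₀, s₀⟩ t₀ j : El (mk σ) U G p I) =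
        El.fresh (σ := mk σ) v₀ α₀ β₀ ⟨R₀, s₀⟩ t₀ hx.choose := h2
      injection h4 with _ _ _ _ _ h7
    rw [← h3]
  have hk' : ∀ x, (¬ ∃ j, x = F j) → H x = k := fun x hx => dif_neg hx
  refine ⟨H, ?_, ?_⟩
  · intro R T hT
    rcases hT with ⟨hR, s, v, α, β, t, ht, rfl⟩ | ⟨rfl, a, x, hTie, rfl⟩
    · by_cases hsame : ∃ j j', (El.fresh (σ := mk σ) v α β ⟨R, s⟩ t j : El (mk σ) U G p I) =
          El.fresh (σ := mk σ) v₀ α₀ β₀ ⟨R₀, s₀⟩ t₀ j'
      · obtain ⟨j, j', e⟩ := hsame
        injection e with e1 e2 e3 e4 e5 e6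
        subst e1 e2 e3
        cases e4
        have e5' := eq_of_heq e5
        subst e5'
        exact L.mono _ _ _ _ _ (hrel.1 _ q hFS) (fun j hj => ⟨hj, hH j⟩)
      · refine L.mono _ _ _ _ _ (L.const R _ k hR) (fun j hj => ⟨hj, hk' _ ?_⟩)
        rintro ⟨j', e⟩
        exact hsame ⟨j, j', e⟩
    · apply split_P hC hl
      intro h1 h2 h3
      rcases hk with hk | hk
      · have hw : H x = k := by
          apply hk'
          rintro ⟨j, e⟩
          cases hTie <;> cases e
        rw [hw]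
        by_cases ha : ∃ j, a = F j
        · obtain ⟨j, rfl⟩ := ha
          rw [hH]
          apply hk
          have h4 : ∀ (a b : El (mk σ) U G p I), Tie D g h 0 a b → a = F j → s₀ j = true := by
            intro a b hT e
            cases hT with
            | f v α β R t j1 hj1 =>
              have e' : (El.fresh v α β R t j1 : El (mk σ) U G p I) =
                El.fresh (σ := mk σ) v₀ α₀ β₀ ⟨R₀, s₀⟩ t₀ j := e
              injection e' with e1 e2 e3 e4 e5 e6
              subst e4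
              have e6' := eq_of_heq e6
              subst e6'
              exact hj1
            | u => cases e
            | x => cases e
            | y => cases e
            | z => cases e
          exact h4 _ _ hTie rfl
        · exact hk' _ ha
      · exact absurd ⟨h1, h3⟩ (anch_ne hk)
  · obtain ⟨_, i, j, hi, hj, hne⟩ := hFS
    rw [mask_iff] at hi hj
    refine ⟨_, hi, _, hj, ?_⟩
    have h1 := hH i
    have h2 := hH j
    intro h3
    apply hne
    rw [← h1, ← h2]
    exact h3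

theorem main_thm (L : MLang σ K) (C : σ.S) (U : Set K) (G : Type) [Group G]
    (g h : G) (p : ℕ) (I : Type) (D : Gad U p I) (hC : IsSplit L C) (hl : L.live C)
    (hreal : Real L c) (hD : D.OK (fam L U)) : Res L (JJ L C U g h D 0) Set.univ := by
  have h3 : σ.ar C = 3 := hC.1
  choose f hpol hf using hD.sol
  -- the chosen words
  have hex : ∀ (α β : ZMod p) (R : σ.S) (s : Fin (σ.ar R) → Bool) (t : Fin (σ.ar R) → I → U),
      ∃ (w : Fin (σ.ar R) → Word c) (q : ℚ), (L.live R ∧ ∀ i, L.P R s (fun j => (t j i : K))) →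
        L.rel R w ∧ (∀ i j, s i = true → s j = true → Agr (w i) (w j) q) ∧
        ∀ i, s i = true → (w i).1 q = (f α β (t i) : K) := by
    intro α β R s t
    by_cases hg : L.live R ∧ ∀ i, L.P R s (fun j => (t j i : K))
    · have h1 : L.P R s (fun j => (f α β (t j) : K)) :=
        hpol α β (⟨R, s⟩ : (mk σ).S) t (fun i _ => hg.2 i) hg.1
      obtain ⟨w, hw, q, h2, h4⟩ := hreal R s _ hg.1 h1
      exact ⟨w, q, fun _ => ⟨hw, h2, h4⟩⟩
    · exact ⟨fun _ => ⟨c, by simp⟩, 0, fun h => absurd h hg⟩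
  choose ww qq hww using hex
  let Phi : El (mk σ) U G p I → K := fun x => match x with
    | .main _ s => (D.io s : K)
    | .site _ α β t => (f α β t : K)
    | .fresh _ α β R t j => if R.2 j = true then (f α β (t j) : K)
        else (ww α β R.1 R.2 t j).1 (qq α β R.1 R.2 t)
  have hPf : ∀ (v : G) (α β : ZMod p) (R : σ.S) (s : Fin (σ.ar R) → Bool)
      (t : Fin (σ.ar R) → I → U) (j : Fin (σ.ar R)),
      (L.live R ∧ ∀ i, L.P R s (fun j => (t j i : K))) →
      Phi (El.fresh (σ := mk σ) v α β ⟨R, s⟩ t j) = (ww α β R s t j).1 (qq α β R s t) := by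
    intro v α β R s t j hg
    show (if s j = true then (f α β (t j) : K) else (ww α β R s t j).1 (qq α β R s t)) = _
    split_ifs with hs
    · exact ((hww α β R s t hg).2.2 j hs).symm
    · rfl
  have hPt : ∀ a w, Tie D g h 0 a w → Phi a = Phi w := by
    intro a w hT
    cases hT with
    | f v α β R t j hj =>
      show (if R.2 j = true then (f α β (t j) : K) else _) = (f α β (t j) : K)
      rw [if_pos hj]
    | u v α β s =>
      show (f α β (D.u s) : K) = (D.io s : K)
      rw [(hf α β s).1]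
    | x v α β s =>
      show (f α β (D.x s) : K) = (D.io (s + α) : K)
      rw [(hf α β s).2.1]
    | y v α β s =>
      show (f α β (D.y s) : K) = (D.io (s + β) : K)
      rw [(hf α β s).2.2.1]
    | z v α β s =>
      show (f α β (D.z s) : K) = (D.io (s + α + β - 0) : K)
      rw [(hf α β s).2.2.2, sub_zero]
  intro W _ hW
  -- Case 1
  by_cases hc1 : ∃ (v : G) (α β : ZMod p) (R : σ.S) (s : Fin (σ.ar R) → Bool)
      (t : Fin (σ.ar R) → I → U), (L.live R ∧ ∀ i, L.P R s (fun j => (t j i : K))) ∧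
      ∃ i j, (El.fresh (σ := mk σ) v α β ⟨R, s⟩ t i : El (mk σ) U G p I) ∈ W ∧
        (El.fresh (σ := mk σ) v α β ⟨R, s⟩ t j : El (mk σ) U G p I) ∈ W ∧
        ¬ Agr (ww α β R s t i) (ww α β R s t j) (qq α β R s t)
  · obtain ⟨v, α, β, R, s, t, hg, i, j, hi, hj, hA⟩ := hc1
    obtain ⟨hrel, hag, _⟩ := hww α β R s t hg
    have hne : ww α β R s t i ≠ ww α β R s t j := by
      intro e
      apply hA
      rw [e]
      exact fun _ _ => rfl
    obtain ⟨q', hq'⟩ := first_split (mask W (fun j => (El.fresh (σ := mk σ) v α β ⟨R, s⟩ t j :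
      El (mk σ) U G p I))) (ww α β R s t) ⟨i, j, (mask_iff _ _ _).2 hi, (mask_iff _ _ _).2 hj, hne⟩
    have hlt : q' < qq α β R s t := by
      by_contra hle
      apply hA
      intro r hr
      exact hq'.1 i j ((mask_iff _ _ _).2 hi) ((mask_iff _ _ _).2 hj) r
        (lt_of_lt_of_le hr (not_lt.1 hle))
    by_cases hs : ∃ j₀, s j₀ = true
    · obtain ⟨j₀, hj₀⟩ := hs
      exact stepH hC hl W v α β R s t (ww α β R s t) hrel q' hq' ((ww α β R s t j₀).1 q')
        (Or.inl (fun j hj => hag j j₀ hj hj₀ q' hlt))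
    · exact stepH hC hl W v α β R s t (ww α β R s t) hrel q' hq' ((ww α β R s t i).1 q')
        (Or.inl (fun j hj => absurd ⟨j, hj⟩ hs))
  have hAg : ∀ (v : G) (α β : ZMod p) (R : σ.S) (s : Fin (σ.ar R) → Bool)
      (t : Fin (σ.ar R) → I → U), (L.live R ∧ ∀ i, L.P R s (fun j => (t j i : K))) →
      ∀ i j, (El.fresh (σ := mk σ) v α β ⟨R, s⟩ t i : El (mk σ) U G p I) ∈ W →
        (El.fresh (σ := mk σ) v α β ⟨R, s⟩ t j : El (mk σ) U G p I) ∈ W →
        Agr (ww α β R s t i) (ww α β R s t j) (qq α β R s t) := by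
    intro v α β R s t hg i j hi hj
    by_contra hA
    exact hc1 ⟨v, α, β, R, s, t, hg, i, j, hi, hj, hA⟩
  -- Case 2
  by_cases hcon : ∃ x ∈ W, ∃ y ∈ W, Phi x ≠ Phi y
  · refine ⟨Phi, ?_, hcon⟩
    intro R T hT
    rcases hT with ⟨hR, s, v, α, β, t, ht, rfl⟩ | ⟨rfl, a, w, hTie, rfl⟩
    · have hg : L.live R ∧ ∀ i, L.P R s (fun j => (t j i : K)) := ⟨hR, ht⟩
      refine L.mono _ (mask W (fun j => (El.fresh (σ := mk σ) v α β ⟨R, s⟩ t j :
          El (mk σ) U G p I))) _ (fun j => (ww α β R s t j).1 (qq α β R s t)) _ ?_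
        (fun j hj => ⟨hj, hPf v α β R s t j hg⟩)
      by_cases hFS : ∃ i j, mask W (fun j => (El.fresh (σ := mk σ) v α β ⟨R, s⟩ t j :
          El (mk σ) U G p I)) i = true ∧ mask W (fun j => (El.fresh (σ := mk σ) v α β ⟨R, s⟩ t j :
          El (mk σ) U G p I)) j = true ∧ (ww α β R s t i).1 (qq α β R s t) ≠
          (ww α β R s t j).1 (qq α β R s t)
      · refine (hww α β R s t hg).1.1 _ _ ⟨?_, hFS⟩
        intro i j hi hj
        exact hAg v α β R s t hg i j ((mask_iff _ _ _).1 hi) ((mask_iff _ _ _).1 hj)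
      · refine L.mono R (mask W (fun j => (El.fresh (σ := mk σ) v α β ⟨R, s⟩ t j :
          El (mk σ) U G p I))) _ (fun _ => if hx : ∃ i, mask W (fun j =>
          (El.fresh (σ := mk σ) v α β ⟨R, s⟩ t j : El (mk σ) U G p I)) i = true then
            (ww α β R s t hx.choose).1 (qq α β R s t) else (D.io 0 : K)) _ (L.const R _ _ hR) ?_
        intro i hi
        refine ⟨hi, ?_⟩
        have hx : ∃ i, mask W (fun j =>
          (El.fresh (σ := mk σ) v α β ⟨R, s⟩ t j : El (mk σ) U G p I)) i = true := ⟨i, hi⟩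
        rw [dif_pos hx]
        by_contra hne
        exact hFS ⟨i, hx.choose, hi, hx.choose_spec, hne⟩
    · apply split_P hC hl
      intro _ _ _
      exact hPt a w hTie
  have hcon' : ∀ x ∈ W, ∀ y ∈ W, Phi x = Phi y := by
    intro x hx y hy
    by_contra hne
    exact hcon ⟨x, hx, y, hy, hne⟩
  have hio : (D.io 0 : K) ≠ (D.io 1 : K) := fun e => hD.inj (Subtype.ext e)
  -- the strict constraint
  have hW' : (∃ (v : G) (α β : ZMod p) (R : σ.S) (s : Fin (σ.ar R) → Bool)
      (t : Fin (σ.ar R) → I → U), L.rel R (ww α β R s t) ∧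
      ∃ i j, (El.fresh (σ := mk σ) v α β ⟨R, s⟩ t i : El (mk σ) U G p I) ∈ W ∧
        (El.fresh (σ := mk σ) v α β ⟨R, s⟩ t j : El (mk σ) U G p I) ∈ W ∧
        ww α β R s t i ≠ ww α β R s t j) ∨
      ∃ a w, Tie D g h 0 a w ∧ anch w ∈ W ∧ (a ∈ W ∨ w ∈ W) := by
    obtain ⟨R, T, hT, hst⟩ := hW
    rcases hT with ⟨hR, s, v, α, β, t, ht, rfl⟩ | ⟨rfl, a, w, hTie, rfl⟩
    · left
      have hg : L.live R ∧ ∀ i, L.P R s (fun j => (t j i : K)) := ⟨hR, ht⟩
      obtain ⟨i, j, hi, hj, hne⟩ := (hww α β R s t hg).1.2 _ hst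
      exact ⟨v, α, β, R, s, t, (hww α β R s t hg).1, i, j, (mask_iff _ _ _).1 hi,
        (mask_iff _ _ _).1 hj, hne⟩
    · right
      obtain ⟨k, i, hk, hi, hks, his⟩ := (hC.2.2.2 hl _).1 hst
      rw [mask_iff] at hks his
      simp only [trip, hk, if_true] at hks
      refine ⟨a, w, hTie, hks, ?_⟩
      by_cases h1 : i.val = 1
      · left
        simpa [trip, h1] using his
      · right
        simpa [trip, h1, hi] using his
  by_cases ho : (El.main 1 0 : El (mk σ) U G p I) ∈ W
  · -- Case 3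
    have hi : (El.main 1 1 : El (mk σ) U G p I) ∉ W := by
      intro hi
      exact hio (hcon' _ ho _ hi)
    refine ⟨fun x => if x = El.main 1 0 then (D.io 0 : K) else (D.io 1 : K), ?_, ?_⟩
    · intro R T hT
      rcases hT with ⟨hR, s, v, α, β, t, ht, rfl⟩ | ⟨rfl, a, w, hTie, rfl⟩
      · exact L.mono _ _ _ _ _ (L.const R _ (D.io 1 : K) hR)
          (fun j hj => ⟨hj, if_neg (by intro e; cases e)⟩)
      · refine split_P hC hl W (anch w) a w
          (fun x => if x = El.main 1 0 then (D.io 0 : K) else (D.io 1 : K)) ?_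
        intro h0 _ _
        have hw : w ≠ El.main 1 0 := by
          intro e
          simp only [anch, e, if_true] at h0
          exact hi h0
        show (if a = El.main 1 0 then (D.io 0 : K) else (D.io 1 : K)) =
          (if w = El.main 1 0 then (D.io 0 : K) else (D.io 1 : K))
        rw [if_neg hw, if_neg (tie_left hTie 1 0)]
    · have hex : ∃ y ∈ W, y ≠ El.main 1 0 := by
        rcases hW' with ⟨v, α, β, R, s, t, _, i, j, hi', _, _⟩ | ⟨a, w, hTie, h0, h1⟩
        · exact ⟨_, hi', by intro e; cases e⟩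
        · rcases h1 with h1 | h1
          · exact ⟨a, h1, tie_left hTie 1 0⟩
          · refine ⟨w, h1, ?_⟩
            intro e
            simp only [anch, e, if_true] at h0
            exact hi h0
      obtain ⟨y, hy, hyo⟩ := hex
      refine ⟨_, ho, y, hy, ?_⟩
      simp only [if_true, if_neg hyo]
      exact hio
  · -- Case 4
    rcases hW' with ⟨v, α, β, R, s, t, hrel, i, j, hi', hj', hne⟩ | ⟨a, w, hTie, h0, h1⟩
    · obtain ⟨q', hq'⟩ := first_split (mask W (fun j => (El.fresh (σ := mk σ) v α β ⟨R, s⟩ t j :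
        El (mk σ) U G p I))) (ww α β R s t)
        ⟨i, j, (mask_iff _ _ _).2 hi', (mask_iff _ _ _).2 hj', hne⟩
      exact stepH hC hl W v α β R s t (ww α β R s t) hrel q' hq' (D.io 0 : K) (Or.inr ho)
    · have hw : w = El.main 1 0 := by
        by_contra hw
        simp only [anch, if_neg hw] at h0
        exact ho h0
      subst hw
      simp only [anch, if_true] at h0
      have ha : a ∈ W := by
        rcases h1 with h1 | h1
        · exact h1
        · exact absurd h1 ho
      refine ⟨fun x => if x = El.main 1 1 then (D.io 0 : K) else (D.io 1 : K), ?_, ?_⟩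
      · intro R T hT
        rcases hT with ⟨hR, s, v, α, β, t, ht, rfl⟩ | ⟨rfl, a', w', hTie', rfl⟩
        · exact L.mono _ _ _ _ _ (L.const R _ (D.io 1 : K) hR)
            (fun j hj => ⟨hj, if_neg (by intro e; cases e)⟩)
        · refine split_P hC hl W (anch w') a' w'
            (fun x => if x = El.main 1 1 then (D.io 0 : K) else (D.io 1 : K)) ?_
          intro h4 _ h5
          exact absurd ⟨h4, h5⟩ (anch_ne ho)
      · refine ⟨_, h0, a, ha, ?_⟩
        simp only [if_true, if_neg (tie_left hTie 1 1)]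
        exact hio

end XJ0

theorem J0_pf : S_J0 := by
  intro σ K L c C U G _ g h p I D hC hl hreal hD
  exact XJ0.main_thm L C U G g h p I D hC hl hreal hD

end Pool.Agent.Work.MP_8dbde4_lc.Loc
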