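import Pool.Agent.Work.MP_8dbde4_lc.Loc.Stmts
import Pool.Agent.Work.MP_8dbde4_lc.Tree.I_J1

/-!
Item J1 of the block Loc of MP_8dbde4_lc: all steps of `J_1` on the core are constant.
-/

set_option autoImplicit false
open Classical

namespace Pool.Agent.Work.MP_8dbde4_lc.Loc

open Pool.Agent.Work.MP_8dbde4_lc.TS
open Pool.Agent.Work.MP_8dbde4_lc.Tree (Word Agr Sp Cc SameT Fam Gad El anch trip Den row BFSys)
open Pool.Agent.Work.MP_8dbde4_lc.Tree.XJ1 (const_of_update)

namespace XJ1

variable {σ : Sig} {K : Type}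

theorem main_core {U G : Type} {p : ℕ} {I : Type} (v : G) (s : ZMod p) :
    (El.main v s : El (mk σ) U G p I) ∈ core σ U G p I := by
  intro v' α β R t j h
  cases h

theorem site_core {U G : Type} {p : ℕ} {I : Type} (v : G) (α β : ZMod p) (t : I → U) :
    (El.site v α β t : El (mk σ) U G p I) ∈ core σ U G p I := by
  intro v' α' β' R t' j h
  cases h

theorem fresh_core {U G : Type} {p : ℕ} {I : Type} (v : G) (α β : ZMod p) (R : (mk σ).S)
    (t : Fin ((mk σ).ar R) → I → U) (j : Fin ((mk σ).ar R)) :
    (El.fresh v α β R t j : El (mk σ) U G p I) ∈ core σ U G p I ↔ R.2 j = true := by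
  constructor
  · intro h
    exact h v α β R t j rfl
  · intro h v' α' β' R' t' j' he
    cases he
    exact h

theorem anch_core {U G : Type} [Group G] {p : ℕ} {I : Type} (w : El (mk σ) U G p I) :
    (anch w : El (mk σ) U G p I) ∈ core σ U G p I := by
  unfold anch
  split_ifs
  · exact main_core _ _
  · exact main_core _ _

theorem tie_core {U G : Type} [Group G] {p : ℕ} {I : Type} {D : Gad U p I} {g h : G} {b : ZMod p}
    {a w : El (mk σ) U G p I} (hT : Tie D g h b a w) :
    a ∈ core σ U G p I ∧ w ∈ core σ U G p I := by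
  cases hT with
  | f v α β R t j hj => exact ⟨(fresh_core v α β R t j).2 hj, site_core _ _ _ _⟩
  | u v α β s => exact ⟨site_core _ _ _ _, main_core _ _⟩
  | x v α β s => exact ⟨site_core _ _ _ _, main_core _ _⟩
  | y v α β s => exact ⟨site_core _ _ _ _, main_core _ _⟩
  | z v α β s => exact ⟨site_core _ _ _ _, main_core _ _⟩

/-- A step is constant on the ties. -/
theorem tie (L : MLang σ K) (C : σ.S) (U : Set K) {G : Type} [Group G] (g h : G) {p : ℕ}
    {I : Type} (D : Gad U p I) (b : ZMod p) (hC : IsSplit L C) (hCl : L.live C)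
    (F : El (mk σ) U G p I → K)
    (hF : IsStep L (JJ L C U g h D b) (core σ U G p I) F) (a w : El (mk σ) U G p I)
    (hT : Tie D g h b a w) : F a = F w := by
  have h1 := hF C (trip (anch w) a w) (Or.inr ⟨rfl, a, w, hT, rfl⟩)
  obtain ⟨har, -, hP, -⟩ := hC
  rw [hP hCl] at h1
  obtain ⟨ha, hw⟩ := tie_core hT
  have hm : ∀ j : Fin (σ.ar C), mask (core σ U G p I) (trip (anch w) a w) j = true := by
    intro j
    refine decide_eq_true ?_
    unfold trip
    split_ifs
    · exact anch_core w
    · exact ha
    · exact hw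
  have h2 := h1 ⟨0, by omega⟩ ⟨1, by omega⟩ ⟨2, by omega⟩ rfl rfl rfl (hm _) (hm _) (hm _)
  simpa [trip] using h2

/-- A step is a polymorphism on each copy of the power. -/
theorem pol (L : MLang σ K) (C : σ.S) (U : Set K) {G : Type} [Group G] (g h : G) {p : ℕ}
    {I : Type} (D : Gad U p I) (b : ZMod p) (hC : IsSplit L C) (hCl : L.live C)
    (F : El (mk σ) U G p I → K)
    (hF : IsStep L (JJ L C U g h D b) (core σ U G p I) F) (v : G) (α β : ZMod p)
    (R : σ.S) (s : Fin (σ.ar R) → Bool) (hR : L.live R) (t : Fin (σ.ar R) → I → U)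
    (ht : ∀ i, L.P R s (fun j => (t j i : K))) :
    L.P R s (fun j => F (.site v α β (t j))) := by
  have h1 := hF R (fun j => El.fresh (σ := mk σ) v α β ⟨R, s⟩ t j)
    (Or.inl ⟨hR, s, v, α, β, t, ht, rfl⟩)
  refine L.mono R _ _ _ _ h1 ?_
  intro i hi
  constructor
  · exact decide_eq_true ((fresh_core v α β ⟨R, s⟩ t i).2 hi)
  · exact (tie L C U g h D b hC hCl F hF _ _ (Tie.f v α β ⟨R, s⟩ t i hi)).symm

end XJ1

open XJ1

theorem J1_pf : S_J1 := by
  intro σ K L C U V G _ _ g h p I _ D hC hCl hG hD F hF hV hUV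
  have hfresh : ∀ (v : G) (α β : ZMod p) (R : (mk σ).S) (t : Fin ((mk σ).ar R) → I → U)
      (j : Fin ((mk σ).ar R)), R.2 j = true → F (.fresh v α β R t j) = F (.site v α β (t j)) :=
    fun v α β R t j hj => tie L C U g h D 1 hC hCl F hF _ _ (Tie.f v α β R t j hj)
  have hu : ∀ (v : G) (α β s : ZMod p), F (.site v α β (D.u s)) = F (.main 1 s) := fun v α β s =>
    tie L C U g h D 1 hC hCl F hF _ _ (Tie.u v α β s)
  have hx : ∀ (v : G) (α β s : ZMod p), F (.site v α β (D.x s)) = F (.main v (s + α)) :=
    fun v α β s => tie L C U g h D 1 hC hCl F hF _ _ (Tie.x v α β s)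
  have hy : ∀ (v : G) (α β s : ZMod p), F (.site v α β (D.y s)) = F (.main (v * g) (s + β)) :=
    fun v α β s => tie L C U g h D 1 hC hCl F hF _ _ (Tie.y v α β s)
  have hz : ∀ (v : G) (α β s : ZMod p),
      F (.site v α β (D.z s)) = F (.main (v * h) (s + α + β - 1)) :=
    fun v α β s => tie L C U g h D 1 hC hCl F hF _ _ (Tie.z v α β s)
  rcases hUV with rfl | hk
  · obtain ⟨c, hc1, hc2⟩ := hD.uns G g h hG (fun v s => ⟨F (.main v s), hV _ (main_core v s)⟩)
      (fun v α β t => ⟨F (.site v α β t), hV _ (site_core v α β t)⟩)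
      (fun v α β R t ht hR => pol L C V g h D 1 hC hCl F hF v α β R.1 R.2 hR t
        (fun i => ht i hR))
      (fun v α β s => ⟨Subtype.ext (hu v α β s), Subtype.ext (hx v α β s),
        Subtype.ext (hy v α β s), Subtype.ext (hz v α β s)⟩)
    refine ⟨(c : K), fun e he => ?_⟩
    cases e with
    | main v s => exact congrArg Subtype.val (hc1 v s)
    | site v α β t => exact congrArg Subtype.val (hc2 v α β t)
    | fresh v α β R t j =>
      rw [hfresh v α β R t j ((fresh_core v α β R t j).1 he)]
      exact congrArg Subtype.val (hc2 v α β (t j))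
  · have hsite : ∀ (v : G) (α β : ZMod p) (x y : I → U),
        F (.site v α β x) = F (.site v α β y) := by
      intro v α β x y
      refine const_of_update (fun t => F (.site v α β t)) ?_ x y
      intro x i a b
      obtain ⟨c, hc⟩ := hk (fun a => ⟨F (.site v α β (Function.update x i a)),
        hV _ (site_core v α β _)⟩) (by
        intro R q hq hR
        refine pol L C U g h D 1 hC hCl F hF v α β R.1 R.2 hR
          (fun j => Function.update x i (q j)) ?_
        intro i'
        by_cases hi : i' = i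
        · subst hi
          simpa using hq hR
        · simp only [Function.update_of_ne hi]
          exact L.const R.1 _ _ hR)
      exact (congrArg Subtype.val (hc a)).trans (congrArg Subtype.val (hc b)).symm
    have hs : ∀ (v : G) (α β : ZMod p) (t : I → U), F (.site v α β t) = F (.main 1 0) := by
      intro v α β t
      rw [hsite v α β t (D.u 0), hu]
    refine ⟨F (.main 1 0), fun e he => ?_⟩
    cases e with
    | main v s =>
      have h1 := hx v s 0 0
      rw [zero_add, hs] at h1
      exact h1.symm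
    | site v α β t => exact hs v α β t
    | fresh v α β R t j => rw [hfresh v α β R t j ((fresh_core v α β R t j).1 he), hs]

end Pool.Agent.Work.MP_8dbde4_lc.Loc
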