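import Pool.Agent.Work.MP_8dbde4_lc.Loc.Stmts

/-! Correctness of the refinement (local languages). -/

set_option autoImplicit false
open Classical

namespace Pool.Agent.Work.MP_8dbde4_lc.Loc

open Pool.Agent.Work.MP_8dbde4_lc.TS

namespace XREF

variable {σ : Sig} {K A : Type}

theorem mask_true {n : ℕ} {W : Set A} {t : Fin n → A} {i : Fin n} :
    mask W t i = true ↔ t i ∈ W := by
  unfold mask
  exact decide_eq_true_iff

/-- `¬ Sep n` is an equivalence relation. -/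
theorem eqv (L : MLang σ K) (𝔄 : Str σ A) (n : ℕ) :
    (∀ x, ¬ Sep L 𝔄 n x x) ∧ (∀ x y, ¬ Sep L 𝔄 n x y → ¬ Sep L 𝔄 n y x) ∧
      ∀ x y z, ¬ Sep L 𝔄 n x y → ¬ Sep L 𝔄 n y z → ¬ Sep L 𝔄 n x z := by
  induction n with
  | zero => exact ⟨fun _ h => h, fun _ _ _ h => h, fun _ _ _ _ _ h => h⟩
  | succ n ih =>
    obtain ⟨hr, hs, ht⟩ := ih
    refine ⟨?_, ?_, ?_⟩
    · rintro x (h | ⟨_, a, b, y, _, _, h⟩)
      · exact hr x h
      · exact h Iff.rfl
    · rintro x y hxy (h | ⟨h0, a, b, w, hg, hw, h⟩)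
      · exact hs x y (fun h' => hxy (Or.inl h')) h
      · exact hxy (Or.inr ⟨hs y x h0, a, b, w, hg, ht w y x hw h0, fun h' => h h'.symm⟩)
    · rintro x y z hxy hyz (h | ⟨h0, a, b, w, hg, hw, h⟩)
      · exact ht x y z (fun h' => hxy (Or.inl h')) (fun h' => hyz (Or.inl h')) h
      · have hxy0 : ¬ Sep L 𝔄 n x y := fun h' => hxy (Or.inl h')
        have hyz0 : ¬ Sep L 𝔄 n y z := fun h' => hyz (Or.inl h')
        have h1 : Hull L 𝔄 a b {z | ¬ Sep L 𝔄 n w z} w x ↔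
            Hull L 𝔄 a b {z | ¬ Sep L 𝔄 n w z} w y := by
          by_contra hne
          exact hxy (Or.inr ⟨hxy0, a, b, w, hg, hw, hne⟩)
        have h2 : Hull L 𝔄 a b {z | ¬ Sep L 𝔄 n w z} w y ↔
            Hull L 𝔄 a b {z | ¬ Sep L 𝔄 n w z} w z := by
          by_contra hne
          exact hyz (Or.inr ⟨hyz0, a, b, w, hg, ht w x y hw hxy0, hne⟩)
        exact h (h1.trans h2)

theorem mono (L : MLang σ K) (𝔄 : Str σ A) (n : ℕ) (x y : A) (h : Sep L 𝔄 n x y) :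
    Sep L 𝔄 (n + 1) x y := Or.inl h

/-- The stages become stable. -/
theorem stable [Finite A] (L : MLang σ K) (𝔄 : Str σ A) :
    ∃ n, ∀ x y, Sep L 𝔄 (n + 1) x y → Sep L 𝔄 n x y := by
  have hm : Monotone (fun n => {q : A × A | Sep L 𝔄 n q.1 q.2}) :=
    monotone_nat_of_le_succ (fun n q hq => mono L 𝔄 n _ _ hq)
  obtain ⟨n, hn⟩ := WellFoundedGT.monotone_chain_condition
    (⟨fun n => {q : A × A | Sep L 𝔄 n q.1 q.2}, hm⟩ : ℕ →o Set (A × A))
  refine ⟨n, fun x y h => ?_⟩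
  have h1 : {q : A × A | Sep L 𝔄 n q.1 q.2} = {q : A × A | Sep L 𝔄 (n + 1) q.1 q.2} :=
    hn (n + 1) (by omega)
  have h2 : (x, y) ∈ {q : A × A | Sep L 𝔄 (n + 1) q.1 q.2} := h
  rw [← h1] at h2
  exact h2

/-- Under `Res` there is no strict constraint with an empty mask. -/
theorem no_empty (L : MLang σ K) (𝔄 : Str σ A) (hR : Res L 𝔄 Set.univ) (R : σ.S)
    (t : Fin (σ.ar R) → A) (s : Fin (σ.ar R) → Bool) (hrel : 𝔄.rel R t) (hst : L.strict R s)
    (hs : ∀ i, ¬ s i = true) : False := by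
  obtain ⟨h, _, x, hx, _⟩ := hR ∅ (Set.subset_univ _)
    ⟨R, t, hrel, L.strict_mono R s _ hst (fun i hi => absurd hi (hs i))⟩
  exact hx

theorem forw (hH : S_HORN) (L : MLang σ K) (hG : GS L) [Finite A] (𝔄 : Str σ A)
    (hR : Res L 𝔄 Set.univ) : Acc L 𝔄 := by
  refine ⟨?_, ?_⟩
  · intro R t hrel
    by_contra hlive
    exact no_empty L 𝔄 hR R t (fun _ => false) hrel (L.dead R _ hlive) (fun i h => by simp at h)
  intro R t s hrel hst
  by_contra hcon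
  have hcon' : ∀ i j, s i = true → s j = true → ∀ n, ¬ Sep L 𝔄 n (t i) (t j) := by
    intro i j hi hj n h
    exact hcon ⟨i, j, hi, hj, n, h⟩
  obtain ⟨n, hn⟩ := stable L 𝔄
  obtain ⟨hr, hs, ht⟩ := eqv L 𝔄 n
  -- the mask is not empty
  have hi0 : ∃ i0, s i0 = true := by
    by_contra hne
    exact no_empty L 𝔄 hR R t s hrel hst (fun i hi => hne ⟨i, hi⟩)
  obtain ⟨i0, hi0⟩ := hi0
  set W : Set A := {z | ¬ Sep L 𝔄 n (t i0) z} with hW
  have hcls : ∀ y ∈ W, {z | ¬ Sep L 𝔄 n y z} = W := by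
    intro y hy
    ext z
    constructor
    · intro hz
      exact ht _ _ _ hy hz
    · intro hz
      exact ht _ _ _ (hs _ _ hy) hz
  have hRW : Res L 𝔄 W := fun W' _ hst' => hR W' (Set.subset_univ _) hst'
  have hstW : HasStrict L 𝔄 W := by
    refine ⟨R, t, hrel, L.strict_mono R s _ hst (fun i hi => ?_)⟩
    rw [mask_true]
    exact hcon' i0 i hi0 hi n
  obtain ⟨a, b, hgood, h, hstep, hab, x1, hx1, x2, hx2, hne⟩ := hG A 𝔄 W hRW hstW
  have hxy : ∃ x0 ∈ W, ∃ y1 ∈ W, h x0 = a ∧ h y1 = b := by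
    rcases hab x1 hx1 with h1 | h1 <;> rcases hab x2 hx2 with h2 | h2
    · exact absurd (h1.trans h2.symm) hne
    · exact ⟨x1, hx1, x2, hx2, h1, h2⟩
    · exact ⟨x2, hx2, x1, hx1, h2, h1⟩
    · exact absurd (h1.trans h2.symm) hne
  obtain ⟨x0, hx0W, y1, hy1W, hx0, hy1⟩ := hxy
  have hull := (hH σ K L A 𝔄 a b W y1 hgood).2 h hstep hab hy1
  have hnx : ¬ Hull L 𝔄 a b W y1 x0 := by
    intro hx
    have := hull x0 hx
    rw [hx0] at this
    exact hgood.1 this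
  have hyx : ¬ Sep L 𝔄 n y1 x0 := by
    have h1 : x0 ∈ {z | ¬ Sep L 𝔄 n y1 z} := by
      rw [hcls y1 hy1W]
      exact hx0W
    exact h1
  apply hyx
  apply hn
  refine Or.inr ⟨hyx, a, b, y1, hgood, hr _, ?_⟩
  rw [hcls y1 hy1W]
  intro hiff
  exact hnx (hiff.1 Hull.base)

theorem back (hH : S_HORN) (L : MLang σ K) (𝔄 : Str σ A) (hA : Acc L 𝔄) :
    Res L 𝔄 Set.univ := by
  intro W _ hW
  obtain ⟨R, t, hrel, hst⟩ := hW
  obtain ⟨i, j, hi, hj, n0, hsep⟩ := hA.2 R t _ hrel hst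
  rw [mask_true] at hi hj
  have hex : ∃ n, ∃ x ∈ W, ∃ y ∈ W, Sep L 𝔄 n x y := ⟨n0, t i, hi, t j, hj, hsep⟩
  obtain ⟨x, hx, y, hy, hxy⟩ := Nat.find_spec hex
  have hmin : ∀ m < Nat.find hex, ∀ x ∈ W, ∀ y ∈ W, ¬ Sep L 𝔄 m x y := by
    intro m hm x hx y hy h
    exact Nat.find_min hex hm ⟨x, hx, y, hy, h⟩
  rcases hn : Nat.find hex with _ | m
  · rw [hn] at hxy
    exact absurd hxy id
  · rw [hn] at hxy hmin
    have hm := hmin m (by omega)
    obtain ⟨hr, hs, ht⟩ := eqv L 𝔄 m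
    rcases hxy with hxy | ⟨h0, a, b, w, hg, hwx, hne⟩
    · exact absurd hxy (hm x hx y hy)
    · have hsub : ∀ z ∈ W, z ∈ {z | ¬ Sep L 𝔄 m w z} := by
        intro z hz
        exact ht w x z hwx (hm x hx z hz)
      have hstep := (hH σ K L A 𝔄 a b {z | ¬ Sep L 𝔄 m w z} w hg).1 hA.1
      refine ⟨fun x => if Hull L 𝔄 a b {z | ¬ Sep L 𝔄 m w z} w x then b else a, ?_, ?_⟩
      · intro R' t' hrel'
        refine L.mono R' _ _ _ _ (hstep R' t' hrel') (fun i hi => ⟨?_, rfl⟩)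
        rw [mask_true] at hi ⊢
        exact hsub _ hi
      refine ⟨x, hx, y, hy, ?_⟩
      have hab : a ≠ b := hg.1
      by_cases h1 : Hull L 𝔄 a b {z | ¬ Sep L 𝔄 m w z} w x
      · have h2 : ¬ Hull L 𝔄 a b {z | ¬ Sep L 𝔄 m w z} w y := fun h => hne ⟨fun _ => h, fun _ => h1⟩
        simp only [if_pos h1, if_neg h2]
        exact hab.symm
      · have h2 : Hull L 𝔄 a b {z | ¬ Sep L 𝔄 m w z} w y := by
          by_contra h
          exact hne ⟨fun h' => absurd h' h1, fun h' => absurd h' h⟩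
        simp only [if_neg h1, if_pos h2]
        exact hab

end XREF

theorem REF_pf (h : S_HORN) : S_REF := by
  intro σ K _ L hG A _ 𝔄
  exact ⟨XREF.forw h L hG 𝔄, XREF.back h L 𝔄⟩

end Pool.Agent.Work.MP_8dbde4_lc.Loc
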