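import Pool.Agent.Work.MP_8dbde4_lc.Loc.Stmts
import Pool.Agent.Work.MP_8dbde4_lc.Tree.I_RES1

set_option autoImplicit false

open Classical

namespace Pool.Agent.Work.MP_8dbde4_lc.Loc

open Pool.Agent.Work.MP_8dbde4_lc.TS
open Pool.Agent.Work.MP_8dbde4_lc.Tree (Word Agr Sp Cc SameT Fam Gad El anch trip Den row BFSys)

/-- a solution gives the combinatorial form -/
theorem RES1_pf : S_RES1 := by
  intro σ K L c A _ 𝔄 hC W _ hW
  obtain ⟨f, hf⟩ := hC
  obtain ⟨R, t, ht, hs⟩ := hW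
  have hne : ∃ x ∈ W, ∃ y ∈ W, f x ≠ f y := by
    obtain ⟨i, j, hi, hj, hij⟩ := (hf R t ht).2 _ hs
    exact ⟨t i, by simpa [mask] using hi, t j, by simpa [mask] using hj, hij⟩
  obtain ⟨q, hq, x, hx, y, hy, hxy⟩ := Tree.XRES1.first_place f W hne
  refine ⟨fun a => (f a).1 q, ?_, x, hx, y, hy, hxy⟩
  intro R' t' ht'
  have hlive : L.live R' := by
    by_contra hl
    obtain ⟨i, j, hi, -, -⟩ := (hf R' t' ht').2 (fun _ => false) (L.dead R' _ hl)
    exact Bool.false_ne_true hi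
  by_cases hs' : ∃ i j, mask W t' i = true ∧ mask W t' j = true ∧
      (f (t' i)).1 q ≠ (f (t' j)).1 q
  · refine (hf R' t' ht').1 (mask W t') q ⟨?_, hs'⟩
    intro i j hi hj q' hq'
    exact hq q' hq' _ (by simpa [mask] using hi) _ (by simpa [mask] using hj)
  · refine L.mono R' (mask W t') (mask W t')
      (fun _ => if h : ∃ i, mask W t' i = true then (f (t' h.choose)).1 q else (f x).1 q) _
      (L.const R' _ _ hlive) ?_
    intro i hi
    refine ⟨hi, ?_⟩
    have h : ∃ i, mask W t' i = true := ⟨i, hi⟩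
    rw [dif_pos h]
    by_contra hcon
    exact hs' ⟨i, h.choose, hi, h.choose_spec, hcon⟩

end Pool.Agent.Work.MP_8dbde4_lc.Loc
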