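import Pool.Agent.Work.MP_8dbde4_lc.Loc.Stmts

/-!
The combinatorial form gives a solution (recursion over classes): see the docstring of `S_RES2`.
-/

set_option autoImplicit false
open Classical

namespace Pool.Agent.Work.MP_8dbde4_lc.Loc

open Pool.Agent.Work.MP_8dbde4_lc.TS
open Pool.Agent.Work.MP_8dbde4_lc.Tree (Word Agr Sp Cc SameT)

namespace XRES2

variable {σ : Sig} {K : Type}

theorem main (L : MLang σ K) (c : ℚ → K) {A : Type} [Finite A] (𝔄 : Str σ A)
    (hR : Res L 𝔄 Set.univ) :
    ∀ (n : ℕ) (W : Set A), W.ncard = n → ∀ q₀ : ℚ, ∃ f : A → Word c,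
      (∀ x, ∀ q < q₀, (f x).1 q = c q) ∧
      ∀ (R : σ.S) (t : Fin (σ.ar R) → A), 𝔄.rel R t → ∀ s : Fin (σ.ar R) → Bool,
        (∀ j, s j = true → t j ∈ W) →
        (∀ q, FS s (fun j => f (t j)) q → L.P R s (fun j => (f (t j)).1 q)) ∧
        (L.strict R s → ∃ i j, s i = true ∧ s j = true ∧ f (t i) ≠ f (t j)) := by
  intro n
  induction n using Nat.strong_induction_on with
  | _ n ih =>
  intro W hW q₀
  by_cases hs : HasStrict L 𝔄 W
  · obtain ⟨h, hst, x₀, hx₀, y₀, hy₀, hne⟩ := hR W (Set.subset_univ _) hs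
    have hcls : ∀ a : K, ∃ f : A → Word c, (∀ x, ∀ q < q₀ + 1, (f x).1 q = c q) ∧
        ∀ (R : σ.S) (t : Fin (σ.ar R) → A), 𝔄.rel R t → ∀ s : Fin (σ.ar R) → Bool,
          (∀ j, s j = true → t j ∈ {x ∈ W | h x = a}) →
          (∀ q, FS s (fun j => f (t j)) q → L.P R s (fun j => (f (t j)).1 q)) ∧
          (L.strict R s → ∃ i j, s i = true ∧ s j = true ∧ f (t i) ≠ f (t j)) := by
      intro a
      refine ih _ ?_ {x ∈ W | h x = a} rfl (q₀ + 1)
      rw [← hW]
      refine Set.ncard_lt_ncard ?_ (Set.toFinite _)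
      refine ⟨fun x hx => hx.1, fun hsub => ?_⟩
      exact hne ((hsub hx₀).2.trans (hsub hy₀).2.symm)
    choose F hF1 hF2 using hcls
    refine ⟨fun x => upd (F (h x) x) q₀ (h x), ?_, ?_⟩
    · intro x q hq
      rw [upd_ne _ _ hq.ne]
      exact hF1 _ _ _ (by linarith)
    · intro R t hRt s hs'
      by_cases hc : ∃ a, ∀ j, s j = true → h (t j) = a
      · obtain ⟨a, ha⟩ := hc
        obtain ⟨h1, h2⟩ := hF2 a R t hRt s (fun j hj => ⟨hs' j hj, ha j hj⟩)
        have key : ∀ j, s j = true → ∀ q, q ≠ q₀ →
            (upd (F (h (t j)) (t j)) q₀ (h (t j))).1 q = (F a (t j)).1 q := by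
          intro j hj q hq
          rw [upd_ne _ _ hq, ha j hj]
        have key0 : ∀ j, (F a (t j)).1 q₀ = c q₀ := fun j => hF1 a _ _ (by linarith)
        refine ⟨?_, ?_⟩
        · intro q hq
          obtain ⟨hq1, i, j, hi, hj, hij⟩ := hq
          change (upd (F (h (t i)) (t i)) q₀ (h (t i))).1 q ≠
            (upd (F (h (t j)) (t j)) q₀ (h (t j))).1 q at hij
          have hqne : q ≠ q₀ := by
            rintro rfl
            refine hij ?_
            rw [upd_self, upd_self, ha i hi, ha j hj]
          have hsp : FS s (fun j => F a (t j)) q := by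
            refine ⟨?_, ?_⟩
            · intro i' j' hi' hj' q' hq'
              by_cases hqq : q' = q₀
              · subst hqq
                exact (key0 i').trans (key0 j').symm
              · have h3 := hq1 i' j' hi' hj' q' hq'
                change (upd (F (h (t i')) (t i')) q₀ (h (t i'))).1 q' =
                  (upd (F (h (t j')) (t j')) q₀ (h (t j'))).1 q' at h3
                rw [key i' hi' q' hqq, key j' hj' q' hqq] at h3
                exact h3
            · rw [key i hi q hqne, key j hj q hqne] at hij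
              exact ⟨i, j, hi, hj, hij⟩
          exact L.mono R s s _ _ (h1 q hsp) (fun i' hi' => ⟨hi', key i' hi' q hqne⟩)
        · intro hstr
          obtain ⟨i, j, hi, hj, hij⟩ := h2 hstr
          refine ⟨i, j, hi, hj, fun he => hij ?_⟩
          apply Subtype.ext
          funext q
          by_cases hq : q = q₀
          · subst hq
            exact (key0 i).trans (key0 j).symm
          · have h4 : (upd (F (h (t i)) (t i)) q₀ (h (t i))).1 q =
                (upd (F (h (t j)) (t j)) q₀ (h (t j))).1 q :=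
              congrArg (fun z : Word c => z.1 q) he
            rw [key i hi q hq, key j hj q hq] at h4
            exact h4
      · have hne' : ∃ i j, s i = true ∧ s j = true ∧ h (t i) ≠ h (t j) := by
          by_contra hcon
          push Not at hcon
          apply hc
          by_cases hem : ∃ j₀, s j₀ = true
          · obtain ⟨j₀, hj₀⟩ := hem
            exact ⟨h (t j₀), fun j hj => hcon j j₀ hj hj₀⟩
          · exact ⟨h x₀, fun j hj => absurd ⟨j, hj⟩ hem⟩
        obtain ⟨i₀, j₀, hi₀, hj₀, hij₀⟩ := hne'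
        refine ⟨?_, ?_⟩
        · intro q hq
          obtain ⟨hq1, i, j, hi, hj, hij⟩ := hq
          change (upd (F (h (t i)) (t i)) q₀ (h (t i))).1 q ≠
            (upd (F (h (t j)) (t j)) q₀ (h (t j))).1 q at hij
          have hqq : q = q₀ := by
            rcases lt_trichotomy q q₀ with hlt | heq | hgt
            · exfalso
              refine hij ?_
              rw [upd_ne _ _ hlt.ne, upd_ne _ _ hlt.ne, hF1 _ _ _ (by linarith),
                hF1 _ _ _ (by linarith)]
            · exact heq
            · exfalso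
              have h3 := hq1 i₀ j₀ hi₀ hj₀ q₀ hgt
              change (upd (F (h (t i₀)) (t i₀)) q₀ (h (t i₀))).1 q₀ =
                  (upd (F (h (t j₀)) (t j₀)) q₀ (h (t j₀))).1 q₀ at h3
              rw [upd_self, upd_self] at h3
              exact hij₀ h3
          subst hqq
          refine L.mono R (mask W t) s _ _ (hst R t hRt) (fun i' hi' => ⟨?_, ?_⟩)
          · exact decide_eq_true (hs' i' hi')
          · exact upd_self _ _ _
        · intro _
          refine ⟨i₀, j₀, hi₀, hj₀, fun he => hij₀ ?_⟩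
          have h4 : (upd (F (h (t i₀)) (t i₀)) q₀ (h (t i₀))).1 q₀ =
              (upd (F (h (t j₀)) (t j₀)) q₀ (h (t j₀))).1 q₀ :=
            congrArg (fun z : Word c => z.1 q₀) he
          rw [upd_self, upd_self] at h4
          exact h4
  · refine ⟨fun _ => ⟨c, by simp⟩, fun _ _ _ => rfl, ?_⟩
    intro R t hRt s hs'
    refine ⟨?_, ?_⟩
    · intro q hq
      obtain ⟨i, j, _, _, hij⟩ := hq.2
      exact absurd rfl hij
    · intro hstr
      exact absurd ⟨R, t, hRt, L.strict_mono R s _ hstr
        (fun i hi => decide_eq_true (hs' i hi))⟩ hs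

end XRES2

theorem RES2_pf : S_RES2 := by
  intro σ K L c A _ 𝔄 hR
  obtain ⟨f, _, hf⟩ := XRES2.main L c 𝔄 hR _ Set.univ rfl 0
  exact ⟨f, fun R t hRt => ⟨fun s q hq => (hf R t hRt s (fun _ _ => Set.mem_univ _)).1 q hq,
    fun s hs => (hf R t hRt s (fun _ _ => Set.mem_univ _)).2 hs⟩⟩

end Pool.Agent.Work.MP_8dbde4_lc.Loc
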