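import Pool.Agent.Work.MP_8dbde4_lc.Loc.Adds
import Pool.Agent.Work.MP_8dbde4_lc.Tree.I_TYP

/-!
# Conjunctions of first-split conditions are local
-/

set_option autoImplicit false
open Classical

namespace Pool.Agent.Work.MP_8dbde4_lc.Loc

open Pool.Agent.Work.MP_8dbde4_lc.TS
open Pool.Agent.Work.MP_8dbde4_lc.Tree (Word Agr Sp Cc SameT Lang FirstSplit)

/-- Every relation of `𝔅` is defined in `𝔅'` by a conjunction of atomic formulas. -/
def Conj {σ σ' : Sig} {B : Type} (𝔅 : Str σ B) (𝔅' : Str σ' B) : Prop :=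
  ∀ R : σ.S, ∃ as : (R' : σ'.S) → (Fin (σ'.ar R') → Fin (σ.ar R)) → Prop,
    ∀ w : Fin (σ.ar R) → B, 𝔅.rel R w ↔ ∀ R' e, as R' e → 𝔅'.rel R' (fun j => w (e j))

variable {σ σ' : Sig} {K : Type} {c : ℚ → K}

theorem sameT_comp {r r' : ℕ} {v w : Fin r → Word c} (h : SameT v w) (e : Fin r' → Fin r) :
    SameT (fun j => v (e j)) (fun j => w (e j)) :=
  ⟨fun i j => h.1 (e i) (e j), fun i j => h.2.1 (e i) (e j), fun i j k => h.2.2 (e i) (e j) (e k)⟩

theorem inv_of_conj {𝔅 : Str σ (Word c)} {L : Lang σ' K} (h : Conj 𝔅 (L.tree c)) : Inv 𝔅 := by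
  intro R v w hvw hv
  obtain ⟨as, has⟩ := h R
  rw [has] at hv ⊢
  exact fun R' e he => Tree.TYP_pf σ' K L c R' _ _ (sameT_comp hvw e) (hv R' e he)

theorem firstSplit_unique {r : ℕ} {v : Fin r → Word c} {q q' : ℚ} (h : FirstSplit v q)
    (h' : FirstSplit v q') : q = q' := by
  rcases lt_trichotomy q q' with h1 | h1 | h1
  · obtain ⟨i, j, hij⟩ := h.2
    exact absurd (h'.1 q h1 i j) hij
  · exact h1
  · obtain ⟨i, j, hij⟩ := h'.2
    exact absurd (h.1 q' h1 i j) hij

theorem isLocal_of_conj {𝔅 : Str σ (Word c)} {L : Lang σ' K} (h : Conj 𝔅 (L.tree c)) :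
    IsLocal 𝔅 := by
  intro R w hw
  obtain ⟨as, has⟩ := h R
  rw [has]
  intro R' e he
  obtain ⟨u, hu, hl⟩ := hw (Set.range e)
  rw [has] at hu
  obtain ⟨h1, h2⟩ := hu R' e he
  rcases hl with ⟨h3, h4⟩ | ⟨q, q', h3, h4, h5⟩
  · refine ⟨fun q hq => ?_, fun hs => ?_⟩
    · obtain ⟨i, j, hij⟩ := hq.2
      refine absurd ?_ hij
      show (w (e i)).1 q = (w (e j)).1 q
      rw [h3 (e i) (Set.mem_range_self i) (e j) (Set.mem_range_self j)]
    · obtain ⟨i, j, hij⟩ := h2 hs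
      exact absurd (h4 (e i) (Set.mem_range_self i) (e j) (Set.mem_range_self j)) hij
  · obtain ⟨_, ⟨i, rfl⟩, _, ⟨j, rfl⟩, h6⟩ := h5
    have hm : ∀ j, e j ∈ Set.range e := fun j => Set.mem_range_self j
    have hfw : FirstSplit (fun j => w (e j)) q :=
      ⟨fun r hr a b => (h3 (e a) (hm a) (e b) (hm b)).1 r hr, i, j, h6⟩
    have hfu : FirstSplit (fun j => u (e j)) q' :=
      ⟨fun r hr a b => (h3 (e a) (hm a) (e b) (hm b)).2 r hr, i, j, by
        show (u (e i)).1 q' ≠ (u (e j)).1 q'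
        rw [← h4 (e i) (hm i), ← h4 (e j) (hm j)]
        exact h6⟩
    refine ⟨fun q₀ hq₀ => ?_, fun _ => ⟨i, j, fun h7 => h6 ?_⟩⟩
    · rw [firstSplit_unique hq₀ hfw]
      have h7 := h1 q' hfu
      have h8 : (fun j => (w (e j)).1 q) = fun j => (u (e j)).1 q' :=
        funext fun j => h4 (e j) (hm j)
      show L.P R' (fun j => (w (e j)).1 q)
      rw [h8]
      exact h7
    · show (w (e i)).1 q = (w (e j)).1 q
      rw [show w (e i) = w (e j) from h7]

theorem conj_refl (𝔅 : Str σ (Word c)) : Conj 𝔅 𝔅 := by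
  intro R
  refine ⟨fun R' e => ∃ h : R' = R, e = fun j => Fin.cast (by rw [h]) j, fun w => ⟨?_, fun h => ?_⟩⟩
  · rintro h R' e ⟨rfl, rfl⟩
    exact h
  · exact h R _ ⟨rfl, rfl⟩

/-- The symbol of the split relation is interpreted by the split relation. -/
theorem rel_split {L : Lang σ K} {C : σ.S} (hC : Tree.IsSplit L C) (t : Fin (σ.ar C) → Word c) :
    (L.tree c).rel C t ↔ Cc (t (Fin.cast hC.1.symm 0)) (t (Fin.cast hC.1.symm 1))
      (t (Fin.cast hC.1.symm 2)) := by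
  obtain ⟨h0, hs, hP⟩ := hC
  have hall : ∀ i : Fin (σ.ar C), i = Fin.cast h0.symm 0 ∨ i = Fin.cast h0.symm 1 ∨
      i = Fin.cast h0.symm 2 := by
    intro i
    have hi : i.val < 3 := lt_of_lt_of_eq i.2 h0
    have : i.val = 0 ∨ i.val = 1 ∨ i.val = 2 := by omega
    rcases this with h | h | h
    · exact Or.inl (Fin.ext h)
    · exact Or.inr (Or.inl (Fin.ext h))
    · exact Or.inr (Or.inr (Fin.ext h))
  constructor
  · rintro ⟨h1, h2⟩
    obtain ⟨i₀, j₀, hij⟩ := h2 hs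
    -- the first place where the words are not all equal
    have hfin : (⋃ i, {r | (t i).1 r ≠ c r}).Finite := Set.finite_iUnion (fun i => (t i).2)
    have hfin' : {r | ∃ i j, (t i).1 r ≠ (t j).1 r}.Finite := by
      refine hfin.subset ?_
      rintro r ⟨i, j, hr⟩
      by_cases hi : (t i).1 r = c r
      · exact Set.mem_iUnion.2 ⟨j, fun hj => hr (hi.trans hj.symm)⟩
      · exact Set.mem_iUnion.2 ⟨i, hi⟩
    have hne : {r | ∃ i j, (t i).1 r ≠ (t j).1 r}.Nonempty := by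
      by_contra hcon
      rw [Set.not_nonempty_iff_eq_empty] at hcon
      apply hij
      apply Subtype.ext
      funext r
      by_contra hr
      have : r ∈ {r | ∃ i j, (t i).1 r ≠ (t j).1 r} := ⟨i₀, j₀, hr⟩
      rw [hcon] at this
      exact this
    obtain ⟨q, hq, hmin⟩ := Set.exists_min_image _ id hfin' hne
    have hagr : ∀ q' < q, ∀ i j, (t i).1 q' = (t j).1 q' := by
      intro q' hq' i j
      by_contra h
      exact absurd (hmin q' ⟨i, j, h⟩) (not_le.2 hq')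
    have h3 := (hP _).1 (h1 q ⟨hagr, hq⟩) (Fin.cast h0.symm 1) (Fin.cast h0.symm 2) rfl rfl
    refine ⟨q, fun r hr => hagr r hr _ _, fun r hr => hagr r hr _ _, h3, fun h4 => ?_⟩
    obtain ⟨i, j, hij'⟩ := hq
    apply hij'
    have h5 : ∀ i, (t i).1 q = (t (Fin.cast h0.symm 1)).1 q := by
      intro i
      rcases hall i with h | h | h
      · rw [h]; exact h4
      · rw [h]
      · rw [h]; exact h3.symm
    rw [h5 i, h5 j]
  · rintro ⟨q, h1, h2, h3, h4⟩
    have h5 : FirstSplit t q := by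
      refine ⟨fun q' hq' => ?_, _, _, h4⟩
      have h6 : ∀ i, (t i).1 q' = (t (Fin.cast h0.symm 0)).1 q' := by
        intro i
        rcases hall i with h | h | h
        · rw [h]
        · rw [h]; exact (h1 q' hq').symm
        · rw [h]; exact (h2 q' hq').symm
      intro i j
      rw [h6 i, h6 j]
    refine ⟨fun q' hq' => ?_, fun _ => ⟨_, _, fun h6 => h4 (by rw [h6])⟩⟩
    rw [firstSplit_unique hq' h5, hP]
    intro i j hi hj
    have hi' : i = Fin.cast h0.symm 1 := Fin.ext hi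
    have hj' : j = Fin.cast h0.symm 2 := Fin.ext hj
    show (t i).1 q = (t j).1 q
    rw [hi', hj']
    exact h3

/-- A relation of the structure is primitively positively definable. -/
theorem pp_of_symbol {B : Type} (𝔅 : Str σ B) {C : σ.S} (h0 : σ.ar C = 3) :
    PP 𝔅 (fun t : Fin 3 → B => 𝔅.rel C (fun j => t (Fin.cast h0 j))) := by
  refine ⟨0, ⟨fun R s => ∃ h : R = C, ∀ j, s j = Sum.inl (Fin.cast (by rw [h, h0]) j)⟩,
    fun t => ⟨fun h => ⟨Fin.elim0, ?_⟩, ?_⟩⟩
  · rintro R s ⟨rfl, hs⟩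
    refine cast (congrArg (𝔅.rel R) ?_) h
    funext j
    rw [hs j]
    rfl
  · rintro ⟨u, hu⟩
    exact hu C (fun j => Sum.inl (Fin.cast h0 j)) ⟨rfl, fun j => rfl⟩

theorem pp_split {L : Lang σ K} {C : σ.S} (hC : Tree.IsSplit L C) :
    PP (L.tree c) (CC (c := c)) := by
  have h := pp_of_symbol (L.tree c) hC.1
  have h1 : (fun t : Fin 3 → Word c => (L.tree c).rel C (fun j => t (Fin.cast hC.1 j))) =
      CC (c := c) := by
    funext t
    exact propext (rel_split hC _)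
  rwa [h1] at h

end Pool.Agent.Work.MP_8dbde4_lc.Loc
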