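import Pool.Agent.Work.MP_8dbde4_lc.Loc.Pairs
import Pool.Agent.Work.MP_8dbde4_lc.Loc.Adds
import Pool.Agent.Work.MP_8dbde4_lc.Loc.I_FORM
import Pool.Agent.Work.MP_8dbde4_lc.Loc.I_HORN
import Pool.Agent.Work.MP_8dbde4_lc.Loc.I_REF
import Pool.Agent.Work.MP_8dbde4_lc.Loc.I_RES1
import Pool.Agent.Work.MP_8dbde4_lc.Loc.I_RES2
import Pool.Agent.Work.MP_8dbde4_lc.Loc.I_J0
import Pool.Agent.Work.MP_8dbde4_lc.Loc.I_J1
import Pool.Agent.Work.MP_8dbde4_lc.Loc.I_JZ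
import Pool.Agent.Work.MP_8dbde4_lc.Loc.I_DESC
import Pool.Agent.Work.MP_8dbde4_lc.Loc.I_LOC
import Pool.Agent.Work.MP_8dbde4_lc.Loc.I_HOM
import Pool.Agent.Work.MP_8dbde4_lc.Loc.I_FB
import Pool.Agent.Work.MP_8dbde4_lc.Loc.I_ISC
import Pool.Agent.Work.MP_8dbde4_lc.Loc.QF
import Pool.Agent.Work.MP_8dbde4_lc.Tree.I_GAME
import Pool.Agent.Work.MP_8dbde4_lc.Tree.I_PING
import Pool.Agent.Work.MP_8dbde4_lc.Tree.I_PGRP
import Pool.Agent.Work.MP_8dbde4_lc.Tree.I_RED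
import Pool.Agent.Work.MP_8dbde4_lc.Tree.I_DEN
import Pool.Agent.Work.MP_8dbde4_lc.Tree.I_CLO
import Pool.Agent.Work.MP_8dbde4_lc.Tree.I_EXT
import Pool.Agent.Work.MP_8dbde4_lc.Tree.I_INJ
import Pool.Agent.Work.MP_8dbde4_lc.Tree.I_MALT
import Pool.Agent.Work.MP_8dbde4_lc.Tree.I_COMM
import Pool.Agent.Work.MP_8dbde4_lc.Tree.I_AFF
import Pool.Agent.Work.MP_8dbde4_lc.Tree.I_GA
import Pool.Agent.Work.MP_8dbde4_lc.Tree.I_GU
import Pool.Agent.Work.MP_8dbde4_lc.Tree.I_GAD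
import Pool.Agent.Work.MP_8dbde4_lc.Tree.I_TWIN
import Pool.Agent.Work.MP_8dbde4_lc.Tree.I_OPE
import Pool.Agent.Work.MP_8dbde4_lc.Tree.I_CTB

/-!
# The main theorem on local languages
-/

set_option autoImplicit false
open Classical

namespace Pool.Agent.Work.MP_8dbde4_lc.Loc

open Pool.Agent.Work.MP_8dbde4_lc.TS
open Pool.Agent.Work.MP_8dbde4_lc.Tree (Word)
open Pool.Agent.Work.MP_8dbde4_lc.HP (add adds)

theorem pos : S_POS := S_POS_of RES1_pf RES2_pf (REF_pf HORN_pf) FORM_pf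

theorem pairs (σ : Sig) (K : Type) [Finite K] (L : MLang σ K) (c : ℚ → K) (C : σ.S)
    (hC : IsSplit L C) (hReal : Real L c) (hGS : ¬ GS L) : ∀ k, Pair (CSP (L.str c)) k :=
  pairs_of (Tree.PGRP_pf Tree.PING_pf) (Tree.DEN_pf Tree.RED_pf)
    (Tree.GAD_pf (Tree.AFF_pf Tree.MALT_pf Tree.COMM_pf) (Tree.GA_pf Tree.INJ_pf)
      (Tree.GU_pf Tree.INJ_pf)) Tree.TWIN_pf J0_pf J1_pf (JZ_pf (Tree.EXT_pf Tree.CLO_pf)) DESC_pf
    RES1_pf RES2_pf σ K L c C hC hReal hGS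

lemma str_eq {σ : Sig} {A : Type} {𝔄 𝔅 : Str σ A} (h : ∀ R w, 𝔄.rel R w ↔ 𝔅.rel R w) :
    𝔄 = 𝔅 := by
  cases 𝔄
  cases 𝔅
  congr 1
  funext R w
  exact propext (h R w)

/-- Local structures are given by their patterns. -/
theorem str_lang {σ : Sig} {K : Type} {c : ℚ → K} {𝔅 : Str σ (Word c)} (hB : Inv 𝔅)
    (hl : IsLocal 𝔅) : (lang 𝔅 hB).str c = 𝔅 :=
  str_eq (fun R w => ⟨(LOC_pf σ K c 𝔅 hB).2 hl R w, (LOC_pf σ K c 𝔅 hB).1 R w⟩)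

/-- The combinatorial form of the constraint satisfaction problem of a local structure. -/
theorem csp_iff {σ : Sig} {K : Type} {c : ℚ → K} {𝔅 : Str σ (Word c)} (hB : Inv 𝔅)
    (hl : IsLocal 𝔅) (A : Type) [Finite A] (𝔄 : Str σ A) :
    CSP 𝔅 A 𝔄 ↔ Res (lang 𝔅 hB) 𝔄 Set.univ := by
  constructor
  · intro h
    rw [← str_lang hB hl] at h
    exact RES1_pf σ K _ c A 𝔄 h
  · intro h
    rw [← str_lang hB hl]
    exact RES2_pf σ K _ c A 𝔄 h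

/-- Good steps suffice, for the expansion of `𝔅` by the split relation. -/
def Crit {σ : Sig} {K : Type} {c : ℚ → K} (𝔅 : Str σ (Word c)) (hB : Inv 𝔅) : Prop :=
  GS (lang (adds 𝔅 CC) (inv_adds hB))

theorem crit_pos {σ : Sig} {K : Type} [Finite K] {c : ℚ → K} {𝔅 : Str σ (Word c)}
    (hB : Inv 𝔅) (hl : IsLocal 𝔅) (hg : Crit 𝔅 hB) : InFP (CSP 𝔅) := by
  apply inFP_adds (T := CC (c := c))
  rw [← str_lang (inv_adds hB) (isLocal_adds hl)]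
  exact pos (add σ 3) K _ c hg

theorem crit_neg {σ : Sig} {K : Type} [Finite K] {c : ℚ → K} {𝔅 : Str σ (Word c)}
    (hB : Inv 𝔅) (hl : IsLocal 𝔅) (hC : PP 𝔅 (CC (c := c))) (hg : ¬ Crit 𝔅 hB) :
    ¬ InFPC (CSP 𝔅) := by
  have : Nonempty (Word c) := ⟨⟨c, by simp⟩⟩
  refine Tree.GAME_pf σ (CSP 𝔅) (pair_pp hC ?_)
  rw [← str_lang (inv_adds hB) (isLocal_adds hl)]
  refine pairs (add σ 3) K _ c none (ISC_pf (add σ 3) K c _ (inv_adds hB) none (isC_adds 𝔅)) ?_ hg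
  rintro R s p - ⟨w, hw, q, h7, h8⟩
  exact ⟨w, (LOC_pf (add σ 3) K c _ (inv_adds hB)).1 R w hw, q, h7, h8⟩

/-- Question Q1 for local languages. -/
theorem final {σ : Sig} {K : Type} [Finite K] {c : ℚ → K} {𝔅 : Str σ (Word c)}
    (hB : Inv 𝔅) (hl : IsLocal 𝔅) (hC : PP 𝔅 (CC (c := c))) (h : InFPC (CSP 𝔅)) :
    InFP (CSP 𝔅) := by
  by_cases hg : Crit 𝔅 hB
  · exact crit_pos hB hl hg
  · exact absurd h (crit_neg hB hl hC hg)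

theorem rfbh {σ : Sig} {K : Type} [Finite K] {c : ℚ → K} {𝔅 : Str σ (Word c)}
    (hB : Inv 𝔅) (hc : Tree.DenseW c) : Tree.RFBH 𝔅 :=
  RFBH_of (HOM_pf Tree.OPE_pf Tree.CTB_pf) FB_pf Tree.CTB_pf σ K c 𝔅 hB hc

end Pool.Agent.Work.MP_8dbde4_lc.Loc
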