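import Pool.Agent.Work.MP_8dbde4_lc.Loc.Stmts
import Pool.Agent.Work.MP_8dbde4_lc.Tree.I_NEG1

/-!
The assembly of the negative part: see the docstring of `S_NEG1`.
-/

set_option autoImplicit false
open Classical

namespace Pool.Agent.Work.MP_8dbde4_lc.Loc

open Pool.Agent.Work.MP_8dbde4_lc.TS
open Pool.Agent.Work.MP_8dbde4_lc.Tree (Word Agr Sp Cc SameT Fam Gad El anch trip Den row BFSys)

namespace XNEG1

variable {σ : Sig} {K : Type}

/-- A non-constant step on `W` into a good two-element set. -/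
def GStep {A : Type} (L : MLang σ K) (𝔄 : Str σ A) (W : Set A) : Prop :=
  ∃ a b : K, Good L a b ∧ ∃ h : A → K, IsStep L 𝔄 W h ∧
    (∀ x ∈ W, h x = a ∨ h x = b) ∧ NonC W h

/-- Solvable, with a strict constraint, without good step. -/
def Bad {A : Type} (L : MLang σ K) (𝔄 : Str σ A) (W : Set A) : Prop :=
  Res L 𝔄 W ∧ HasStrict L 𝔄 W ∧ ¬ GStep L 𝔄 W

/-- The minimal sets with non-constant steps. -/
def TT {A : Type} (L : MLang σ K) (𝔄 : Str σ A) (W : Set A) : Set (Set K) :=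
  {U | MinSet L U ∧ NC L 𝔄 W U}

/-- No dead constraints. -/
theorem clean {A : Type} {L : MLang σ K} {𝔄 : Str σ A} {W : Set A} (hR : Res L 𝔄 W) :
    ∀ (R : σ.S) (t : Fin (σ.ar R) → A), 𝔄.rel R t → L.live R := by
  intro R t hRt
  by_contra hl
  obtain ⟨h, _, x, hx, _⟩ := hR ∅ (Set.empty_subset _) ⟨R, t, hRt, L.dead R _ hl⟩
  exact hx

/-- Composition of a step on `W` with values in `U` and a homomorphism from `U` to `V`. -/
noncomputable def cmp {A : Type} {U V : Set K} (h : A → K) (k : U → V) (x : A) : K :=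
  if hx : h x ∈ U then (k ⟨h x, hx⟩ : K) else h x

theorem cmp_eq {A : Type} {U V : Set K} {h : A → K} {k : U → V} {x : A} (hx : h x ∈ U) :
    cmp h k x = (k ⟨h x, hx⟩ : K) := dif_pos hx

theorem comp_step {A : Type} {L : MLang σ K} {𝔄 : Str σ A} {W : Set A} {U V : Set K}
    (hcl : ∀ (R : σ.S) (t : Fin (σ.ar R) → A), 𝔄.rel R t → L.live R) (u₀ : U)
    {h : A → K} (hs : IsStep L 𝔄 W h) (hU : ∀ x ∈ W, h x ∈ U) (k : U → V)
    (hk : ∀ (R : (mk σ).S) (q : Fin ((mk σ).ar R) → U), (fam L U).P R q →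
      (fam L V).P R (fun j => k (q j))) :
    IsStep L 𝔄 W (cmp h k) := by
  intro R t hR
  have h1 := hs R t hR
  have hmem : ∀ j, mask W t j = true → t j ∈ W := fun j hj => of_decide_eq_true hj
  let q : Fin (σ.ar R) → U := fun j => if hj : t j ∈ W then ⟨h (t j), hU _ hj⟩ else u₀
  have hq : ∀ j, mask W t j = true → (q j : K) = h (t j) := by
    intro j hj
    show ((if hj : t j ∈ W then (⟨h (t j), hU _ hj⟩ : U) else u₀ : U) : K) = h (t j)
    rw [dif_pos (hmem j hj)]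
  have h2 : L.P R (mask W t) (fun j => (q j : K)) :=
    L.mono R _ _ _ _ h1 (fun i hi => ⟨hi, hq i hi⟩)
  have h3 : L.P R (mask W t) (fun j => (k (q j) : K)) :=
    hk ⟨R, mask W t⟩ q (fun _ => h2) (hcl R t hR)
  refine L.mono R _ _ _ _ h3 (fun i hi => ⟨hi, ?_⟩)
  have h4 := hmem i hi
  rw [cmp_eq (hU _ h4)]
  have h5 : q i = ⟨h (t i), hU _ h4⟩ := by
    show (if hj : t i ∈ W then (⟨h (t i), hU _ hj⟩ : U) else u₀) = _
    rw [dif_pos h4]
  rw [h5]

end XNEG1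

open XNEG1 in
theorem NEG1_pf : S_NEG1 := by
  intro hGame hPG hDen hGad hTwin hJ0 hJ1 hJZ hDesc hRes1 hRes2
  intro σ K _ L c C hC hReal hGS
  -- the set of the sizes
  have hex : ∃ n : ℕ, ∃ (A : Type) (_ : Finite A) (𝔄 : Str σ A) (W : Set A), Bad L 𝔄 W ∧
      (TT L 𝔄 W).ncard = n := by
    unfold GS at hGS
    push Not at hGS
    obtain ⟨A, hA, 𝔄, W, h1, h2, h3⟩ := hGS
    refine ⟨_, A, hA, 𝔄, W, ⟨h1, h2, ?_⟩, rfl⟩
    rintro ⟨a, b, hg, h, hs, hab, hn⟩
    exact h3 a b hg h hs hab hn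
  obtain ⟨A, hA, 𝔄, W, ⟨hR, hS, hB⟩, hn⟩ := Nat.find_spec hex
  have hmin : ∀ (A' : Type) (_ : Finite A') (𝔄' : Str σ A') (W' : Set A'), Bad L 𝔄' W' →
      (TT L 𝔄 W).ncard ≤ (TT L 𝔄' W').ncard := by
    intro A' hA' 𝔄' W' hB'
    rw [hn]
    exact Nat.find_min' hex ⟨A', hA', 𝔄', W', hB', rfl⟩
  have hcl := clean hR
  -- the set `U`
  have hNC : NC L 𝔄 W Set.univ := by
    obtain ⟨h, hs, hn'⟩ := hR W subset_rfl hS
    exact ⟨h, hs, fun _ _ => Set.mem_univ _, hn'⟩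
  obtain ⟨U₀, _, hU₀1, hU₀2⟩ := hDesc σ K L A 𝔄 W Set.univ hcl hNC
  have hfin : (TT L 𝔄 W).Finite := Set.toFinite _
  obtain ⟨U, hU, hUmin⟩ := Set.exists_min_image (TT L 𝔄 W) (fun V => V.ncard) hfin
    ⟨U₀, hU₀1, hU₀2⟩
  obtain ⟨hM, h₀, hs₀, hv₀, hn₀⟩ := hU
  have honto : ∀ u ∈ U, ∃ x ∈ W, h₀ x = u := by
    have h1 : NC L 𝔄 W (h₀ '' W) := ⟨h₀, hs₀, fun x hx => ⟨x, hx, rfl⟩, hn₀⟩
    obtain ⟨U', hU'1, hU'2, hU'3⟩ := hDesc σ K L A 𝔄 W _ hcl h1
    have h2 := hUmin U' ⟨hU'2, hU'3⟩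
    have h3 : h₀ '' W ⊆ U := by
      rintro _ ⟨x, hx, rfl⟩
      exact hv₀ x hx
    have h4 : U'.ncard ≤ (h₀ '' W).ncard := Set.ncard_le_ncard hU'1 (Set.toFinite _)
    have h5 : h₀ '' W = U := Set.eq_of_subset_of_ncard_le h3 (h2.trans h4) (Set.toFinite _)
    intro u hu
    rw [← h5] at hu
    exact hu
  -- the twin property
  have hTP : Tree.TP (fam L U) := by
    by_contra hTP
    obtain ⟨a, b, hab, hall, hmeet⟩ := hTwin (mk σ) U (fam L U) hM hTP
    apply hB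
    refine ⟨a, b, ⟨fun h => hab (Subtype.ext h), ?_⟩, h₀, hs₀, ?_, hn₀⟩
    · intro R hL s p p' hp hp' h1 h2
      have hmem : ∀ z : K, (z = (a : K) ∨ z = (b : K)) → z ∈ U := by
        rintro z (h | h)
        · rw [h]; exact a.2
        · rw [h]; exact b.2
      let q : Fin (σ.ar R) → U := fun j => if hj : s j = true then ⟨p j, hmem _ (hp j hj)⟩ else a
      let q' : Fin (σ.ar R) → U :=
        fun j => if hj : s j = true then ⟨p' j, hmem _ (hp' j hj)⟩ else a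
      have hq : ∀ j, s j = true → (q j : K) = p j := by
        intro j hj
        show ((if hj : s j = true then (⟨p j, hmem _ (hp j hj)⟩ : U) else a : U) : K) = p j
        rw [dif_pos hj]
      have hq' : ∀ j, s j = true → (q' j : K) = p' j := by
        intro j hj
        show ((if hj : s j = true then (⟨p' j, hmem _ (hp' j hj)⟩ : U) else a : U) : K) = p' j
        rw [dif_pos hj]
      have e1 : L.P R s (fun j => (q j : K)) := L.mono R _ _ _ _ h1 (fun i hi => ⟨hi, hq i hi⟩)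
      have e2 : L.P R s (fun j => (q' j : K)) := L.mono R _ _ _ _ h2 (fun i hi => ⟨hi, hq' i hi⟩)
      have e3 : L.P R s (fun j => ((Tree.meet a b (q j) (q' j) : U) : K)) :=
        hmeet ⟨R, s⟩ q q' (fun _ => e1) (fun _ => e2) hL
      refine L.mono R _ _ _ _ e3 (fun i hi => ⟨hi, ?_⟩)
      rw [Tree.XNEG1.meet_coe, hq i hi, hq' i hi]
    · intro x hx
      rcases hall ⟨h₀ x, hv₀ x hx⟩ with h | h
      · left
        rw [← h]
      · right
        rw [← h]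
  obtain ⟨p, I, D, hp, hI, hD⟩ := hGad (mk σ) U (fam L U) hM hTP
  have hpz : NeZero p := ⟨hp.ne_zero⟩
  have hCL : L.live C := by
    obtain ⟨⟨a, b, hab⟩, _⟩ := hM
    exact hC.2.1 ⟨a, b, fun h => hab (Subtype.ext h)⟩
  -- the game
  apply hGame σ (CSP (L.str c))
  intro k
  obtain ⟨G, _, hGf, g, h, hG, hw⟩ := hPG p (2 * (3 * k + 5)) hp
  have hDn : Den (row g h) (3 * k + 5) := hDen G g h (3 * k + 5) hw
  have hrow : ∀ v : G, (row g h v).card = 3 := by
    intro v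
    have h1 := hDn {v} (Finset.singleton_nonempty v) (by simp)
    rw [Finset.singleton_biUnion, Finset.card_singleton] at h1
    have h2 : (row g h v).card ≤ 3 := Finset.card_le_three
    omega
  obtain ⟨Z, hZ1, hZ2⟩ := hJZ σ K L C U G g h p I D k hC.1 hp hrow hDn
  refine ⟨El (mk σ) U G p I, El (mk σ) U G p I, inferInstance, inferInstance, JJ L C U g h D 0,
    JJ L C U g h D 1, Z, hZ1, hZ2, ?_, ?_⟩
  · apply hRes2 σ K L c
    exact hJ0 σ K L c C U G g h p I D hC hCL hReal hD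
  · intro hcsp
    have hR0 := hRes1 σ K L c _ _ hcsp
    have hR1 : Res L (JJ L C U g h D 1) (core σ U G p I) := fun W' _ => hR0 W' (Set.subset_univ _)
    have hstep : ∀ V : Set K, (V = U ∨ ∀ k : U → V, (∀ (R : (mk σ).S)
        (q : Fin ((mk σ).ar R) → U), (fam L U).P R q → (fam L V).P R (fun j => k (q j))) →
        ∃ c, ∀ x, k x = c) → ¬ NC L (JJ L C U g h D 1) (core σ U G p I) V := by
      rintro V hV ⟨F, hF1, hF2, x, hx, y, hy, hxy⟩
      obtain ⟨c', hc'⟩ := hJ1 σ K L C U V G g h p I D hC hCL hG hD F hF1 hF2 hV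
      exact hxy (by rw [hc' x hx, hc' y hy])
    have hhom : ∀ V : Set K, ¬ NC L 𝔄 W V → ∀ k : U → V, (∀ (R : (mk σ).S)
        (q : Fin ((mk σ).ar R) → U), (fam L U).P R q → (fam L V).P R (fun j => k (q j))) →
        ∃ c, ∀ x, k x = c := by
      intro V hV k hk
      by_contra hcon
      push Not at hcon
      apply hV
      obtain ⟨⟨u₁, _, _⟩, _⟩ := hM
      obtain ⟨u₂, hu₂⟩ := hcon (k u₁)
      obtain ⟨x₁, hw₁, hx₁⟩ := honto u₁ u₁.2
      obtain ⟨x₂, hw₂, hx₂⟩ := honto u₂ u₂.2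
      refine ⟨_, comp_step hcl u₁ hs₀ hv₀ k hk, fun x hx => ?_, x₂, hw₂, x₁, hw₁, ?_⟩
      · rw [cmp_eq (hv₀ x hx)]
        exact (k ⟨h₀ x, hv₀ x hx⟩).2
      · rw [cmp_eq (hv₀ x₁ hw₁), cmp_eq (hv₀ x₂ hw₂)]
        have e1 : (⟨h₀ x₁, hv₀ x₁ hw₁⟩ : U) = u₁ := Subtype.ext hx₁
        have e2 : (⟨h₀ x₂, hv₀ x₂ hw₂⟩ : U) = u₂ := Subtype.ext hx₂
        rw [e1, e2]
        exact fun h => hu₂ (Subtype.ext h)
    have hBad1 : Bad L (JJ L C U g h D 1) (core σ U G p I) := by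
      refine ⟨hR1, ?_, ?_⟩
      · refine ⟨C, trip (anch (El.main 1 (0 : ZMod p))) (El.site 1 0 0 (D.u 0))
          (El.main 1 (0 : ZMod p)), ?_, ?_⟩
        · right
          exact ⟨rfl, _, _, Tie.u 1 0 0 0, rfl⟩
        · rw [hC.2.2.2 hCL]
          have hmem : ∀ j, trip (n := σ.ar C)
              (anch (El.main 1 (0 : ZMod p)) : El (mk σ) U G p I) (El.site 1 0 0 (D.u 0))
              (El.main 1 (0 : ZMod p)) j ∈ core σ U G p I := by
            intro j v α β R t j' hj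
            exfalso
            unfold trip anch at hj
            split_ifs at hj
          refine ⟨⟨0, by rw [hC.1]; omega⟩, ⟨1, by rw [hC.1]; omega⟩, rfl, one_ne_zero,
            decide_eq_true (hmem _), decide_eq_true (hmem _)⟩
      · rintro ⟨a, b, hg, F, hF, hab, hnF⟩
        refine hstep {a, b} (Or.inr (hhom {a, b} ?_)) ⟨F, hF, hab, hnF⟩
        rintro ⟨F', hF', hab', hnF'⟩
        exact hB ⟨a, b, hg, F', hF', hab', hnF'⟩
    have hle := hmin _ inferInstance _ _ hBad1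
    have hsub : TT L (JJ L C U g h D 1) (core σ U G p I) ⊆ TT L 𝔄 W \ {U} := by
      rintro V ⟨hV1, hV2⟩
      refine ⟨⟨hV1, ?_⟩, ?_⟩
      · by_contra hV3
        exact hstep V (Or.inr (hhom V hV3)) hV2
      · intro hVU
        rw [Set.mem_singleton_iff] at hVU
        exact hstep V (Or.inl hVU) hV2
    have hlt : (TT L (JJ L C U g h D 1) (core σ U G p I)).ncard < (TT L 𝔄 W).ncard := by
      refine lt_of_le_of_lt (Set.ncard_le_ncard hsub (Set.toFinite _)) ?_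
      exact Set.ncard_sdiff_singleton_lt_of_mem ⟨hM, h₀, hs₀, hv₀, hn₀⟩ (Set.toFinite _)
    omega

end Pool.Agent.Work.MP_8dbde4_lc.Loc
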