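import Pool.Agent.Work.MP_8dbde4_lc.Loc.Stmts

/-!
# Primitive positive definitions and the bijective pebble game

If a relation is primitively positively definable in a template, then indistinguishable pairs of
instances for the expanded template give such pairs for the template.
-/

set_option autoImplicit false
open Classical

namespace Pool.Agent.Work.MP_8dbde4_lc.Loc

open Pool.Agent.Work.MP_8dbde4_lc.TS
open Pool.Agent.Work.MP_8dbde4_lc.Tree (BFSys)
open Pool.Agent.Work.MP_8dbde4_lc.HP (add adds)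

/-- The relation `T` is primitively positively definable in `𝔅`: its members are the tuples `t` for
which there are elements `u` such that the tuple `(t, u)` satisfies a certain set of atomic formulas
(the relations of the structure `𝔇` on the variables). -/
def PP {σ : Sig} {B : Type} (𝔅 : Str σ B) {r : ℕ} (T : (Fin r → B) → Prop) : Prop :=
  ∃ (n : ℕ) (𝔇 : Str σ (Fin r ⊕ Fin n)), ∀ t : Fin r → B, T t ↔ ∃ u : Fin n → B,
    ∀ (R : σ.S) (s : Fin (σ.ar R) → Fin r ⊕ Fin n), 𝔇.rel R s →
      𝔅.rel R (fun j => Sum.elim t u (s j))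

/-- There are a structure in the class and a structure outside the class which are related by a
back-and-forth system with `k` pebbles. -/
def Pair {σ : Sig} (𝒦 : Class σ) (k : ℕ) : Prop :=
  ∃ (A B : Type) (_ : Finite A) (_ : Finite B) (𝔄 : Str σ A) (𝔅 : Str σ B)
    (Z : (Fin k → A) → (Fin k → B) → Prop), BFSys 𝔄 𝔅 k Z ∧ (∃ v w, Z v w) ∧
      𝒦 A 𝔄 ∧ ¬ 𝒦 B 𝔅

namespace XLIFT

variable {σ : Sig} {A B : Type} {r n : ℕ}

/-- the elements which replace a tuple in `T` -/
def el (z : Fin r → A) : Fin r ⊕ Fin n → A ⊕ ((Fin r → A) × Fin n) :=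
  Sum.elim (fun i => Sum.inl (z i)) (fun m => Sum.inr (z, m))

/-- the instance of the original template -/
def ext (as : Str σ (Fin r ⊕ Fin n)) (𝔄 : Str (add σ r) A) :
    Str σ (A ⊕ ((Fin r → A) × Fin n)) where
  rel R X := (∃ t : Fin (σ.ar R) → A, 𝔄.rel (some R) t ∧ X = fun j => Sum.inl (t j)) ∨
    ∃ z : Fin r → A, 𝔄.rel none z ∧ ∃ f : Fin (σ.ar R) → Fin r ⊕ Fin n,
      as.rel R f ∧ X = fun j => el z (f j)

lemma csp_ext {C : Type} [Nonempty C] {𝔅 : Str σ C} {T : (Fin r → C) → Prop}
    {as : Str σ (Fin r ⊕ Fin n)}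
    (h : ∀ t, T t ↔ ∃ u : Fin n → C, ∀ (R : σ.S) (s : Fin (σ.ar R) → Fin r ⊕ Fin n), as.rel R s →
      𝔅.rel R (fun j => Sum.elim t u (s j)))
    (𝔄 : Str (add σ r) A) : CSP (adds 𝔅 T) A 𝔄 ↔ CSP 𝔅 _ (ext as 𝔄) := by
  constructor
  · rintro ⟨g, hg⟩
    have h1 : ∀ z : Fin r → A, ∃ u : Fin n → C, 𝔄.rel none z →
        ∀ (R : σ.S) (s : Fin (σ.ar R) → Fin r ⊕ Fin n), as.rel R s →
          𝔅.rel R (fun j => Sum.elim (fun i => g (z i)) u (s j)) := by
      intro z
      by_cases hz : 𝔄.rel none z
      · obtain ⟨u, hu⟩ := (h (fun i => g (z i))).1 (hg none z hz)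
        exact ⟨u, fun _ => hu⟩
      · exact ⟨fun _ => Classical.arbitrary C, fun h' => absurd h' hz⟩
    choose U hU using h1
    refine ⟨Sum.elim g (fun p => U p.1 p.2), fun R X hX => ?_⟩
    rcases hX with ⟨t, ht, rfl⟩ | ⟨z, hz, f, hf, rfl⟩
    · exact hg (some R) t ht
    · have := hU z hz R f hf
      refine cast (congrArg (𝔅.rel R) ?_) this
      funext j
      show Sum.elim (fun i => g (z i)) (U z) (f j) =
        Sum.elim g (fun p : (Fin r → A) × Fin n => U p.1 p.2) (el z (f j))
      rcases f j with i | m <;> rfl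
  · rintro ⟨G, hG⟩
    refine ⟨fun a => G (Sum.inl a), fun R t ht => ?_⟩
    rcases R with _ | R
    · refine (h _).2 ⟨fun m => G (Sum.inr (t, m)), fun R s ha => ?_⟩
      have := hG R (fun j => el t (s j)) (Or.inr ⟨t, ht, s, ha, rfl⟩)
      refine cast (congrArg (𝔅.rel R) ?_) this
      funext j
      show G (el t (s j)) = Sum.elim (fun i => G (Sum.inl (t i))) (fun m => G (Sum.inr (t, m))) (s j)
      rcases s j with i | m <;> rfl
    · exact hG R _ (Or.inl ⟨t, ht, rfl⟩)

/-- back-and-forth systems with an arbitrary finite set of pebbles -/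
structure BF {σ : Sig} {A B : Type} (𝔄 : Str σ A) (𝔅 : Str σ B) (ι : Type)
    (Z : (ι → A) → (ι → B) → Prop) : Prop where
  atomRel : ∀ v w, Z v w → ∀ (R : σ.S) (i : Fin (σ.ar R) → ι),
    𝔄.rel R (fun j => v (i j)) → 𝔅.rel R (fun j => w (i j))
  atomEq : ∀ v w, Z v w → ∀ i j, v i = v j ↔ w i = w j
  subst : ∀ v w, Z v w → ∀ ρ : ι → ι, Z (fun i => v (ρ i)) (fun i => w (ρ i))
  forth : ∀ v w, Z v w → ∀ x : ι, ∃ f : A ≃ B,
    ∀ a, Z (Function.update v x a) (Function.update w x (f a))

lemma BF.tup {𝔄 : Str σ A} {𝔅 : Str σ B} {ι : Type} {Z : (ι → A) → (ι → B) → Prop}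
    (hZ : BF 𝔄 𝔅 ι Z) : ∀ (j : ℕ) (ps : Fin j → ι), Function.Injective ps →
    ∀ (v : ι → A) (w : ι → B), Z v w →
    ∃ F : (Fin j → A) ≃ (Fin j → B), ∀ z, Z (Function.extend ps z v) (Function.extend ps (F z) w)
  | 0, ps, _, v, w, h => by
    refine ⟨Equiv.ofUnique _ _, fun z => ?_⟩
    have h1 : ∀ {C : Type} (z : Fin 0 → C) (u : ι → C), Function.extend ps z u = u := by
      intro C z u
      funext i
      exact Function.extend_apply' _ _ _ (fun ⟨l, _⟩ => l.elim0)
    rw [h1, h1]
    exact h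
  | j + 1, ps, hps, v, w, h => by
    obtain ⟨f, hf⟩ := hZ.forth v w h (ps 0)
    have hps' : Function.Injective (fun l : Fin j => ps l.succ) :=
      fun a b hab => Fin.succ_injective _ (hps hab)
    choose G hG using fun a => BF.tup hZ j (fun l => ps l.succ) hps' _ _ (hf a)
    refine ⟨((Fin.consEquiv (fun _ : Fin (j + 1) => A)).symm.trans (Equiv.prodShear f G)).trans
      (Fin.consEquiv (fun _ : Fin (j + 1) => B)), fun z => ?_⟩
    have h1 : ∀ {C : Type} (c : C) (z : Fin j → C) (u : ι → C),
        Function.extend ps (Fin.cons c z : Fin (j + 1) → C) u =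
          Function.extend (fun l : Fin j => ps l.succ) z (Function.update u (ps 0) c) := by
      intro C c z u
      funext i
      by_cases h2 : ∃ l, ps l = i
      · obtain ⟨l, rfl⟩ := h2
        rw [hps.extend_apply]
        refine Fin.cases ?_ (fun l => ?_) l
        · rw [Function.extend_apply', Function.update_self]
          · rfl
          · rintro ⟨l, hl⟩
            exact absurd (hps hl) (Fin.succ_ne_zero l)
        · rw [hps'.extend_apply (g := z) (e' := Function.update u (ps 0) c) l]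
          rfl
      · rw [Function.extend_apply' _ _ _ h2, Function.extend_apply', Function.update_of_ne]
        · rintro rfl
          exact h2 ⟨0, rfl⟩
        · rintro ⟨l, hl⟩
          exact h2 ⟨l.succ, hl⟩
    have h2 := hG (z 0) (fun l => z l.succ)
    rw [← h1, ← h1] at h2
    have h3 : (Fin.cons (z 0) (fun l => z l.succ) : Fin (j + 1) → A) = z := by
      funext l
      refine Fin.cases rfl (fun l => rfl) l
    rw [h3] at h2
    exact h2

lemma upd_same {ι C : Type} (u : ι → C) (x : ι) (c : C) : Function.update u x c x = c :=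
  Function.update_self _ _ _

lemma upd_other {ι κ C : Type} (u : ι → C) (x : ι) (c : C) (g : κ → ι) (h : ∀ o, g o ≠ x) :
    (fun o => Function.update u x c (g o)) = fun o => u (g o) := by
  funext o
  rw [Function.update_of_ne (h o)]

/-- the pebbles -/
abbrev Ix (k r : ℕ) : Type := (Fin k × Option (Fin r)) ⊕ Fin r

/-- the form of an element -/
def Form (p : Option (Fin r) → A) (q : Option (Fin r) → B) (v : A ⊕ ((Fin r → A) × Fin n))
    (w : B ⊕ ((Fin r → B) × Fin n)) : Prop :=
  (v = Sum.inl (p none) ∧ w = Sum.inl (q none)) ∨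
    ∃ m, v = Sum.inr (fun i => p (some i), m) ∧ w = Sum.inr (fun i => q (some i), m)

/-- the new system -/
def New (n : ℕ) {k : ℕ} (Z : (Ix k r → A) → (Ix k r → B) → Prop)
    (v : Fin k → A ⊕ ((Fin r → A) × Fin n)) (w : Fin k → B ⊕ ((Fin r → B) × Fin n)) : Prop :=
  ∃ p q, Z p q ∧ ∀ x, Form (fun o => p (Sum.inl (x, o))) (fun o => q (Sum.inl (x, o))) (v x) (w x)

lemma new_rel {k : ℕ} {𝔄 : Str (add σ r) A} {𝔅 : Str (add σ r) B}
    (as : Str σ (Fin r ⊕ Fin n))
    {Z : (Ix k r → A) → (Ix k r → B) → Prop} (hZ : BF 𝔄 𝔅 (Ix k r) Z)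
    {v : Fin k → A ⊕ ((Fin r → A) × Fin n)} {w : Fin k → B ⊕ ((Fin r → B) × Fin n)}
    (h : New n Z v w) (R : σ.S) (i : Fin (σ.ar R) → Fin k)
    (hR : (ext as 𝔄).rel R (fun j => v (i j))) : (ext as 𝔅).rel R (fun j => w (i j)) := by
  obtain ⟨p, q, hpq, hF⟩ := h
  rcases hR with ⟨t, ht, hv⟩ | ⟨z, hz, f, hf, hv⟩
  · left
    have h1 : ∀ j, v (i j) = Sum.inl (t j) := fun j => congrFun hv j
    have h2 : ∀ j, t j = p (Sum.inl (i j, none)) ∧ w (i j) = Sum.inl (q (Sum.inl (i j, none))) := by
      intro j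
      rcases hF (i j) with ⟨h3, h4⟩ | ⟨m, h3, _⟩
      · rw [h1 j] at h3
        exact ⟨Sum.inl_injective h3, h4⟩
      · rw [h1 j] at h3
        exact absurd h3 (by simp)
    refine ⟨fun j => q (Sum.inl (i j, none)), ?_, funext fun j => (h2 j).2⟩
    refine hZ.atomRel p q hpq (some R) (fun j => Sum.inl (i j, none)) ?_
    have h3 : t = fun j => p (Sum.inl (i j, none)) := funext fun j => (h2 j).1
    rw [h3] at ht
    exact ht
  · right
    have h1 : ∀ j, v (i j) = el z (f j) := fun j => congrFun hv j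
    -- put the spare pebbles on `z`
    obtain ⟨F, hF'⟩ := hZ.tup r Sum.inr Sum.inr_injective p q hpq
    have h2 := hF' z
    obtain ⟨p', hp'⟩ : ∃ p' : Ix k r → A, p' = Function.extend Sum.inr z p := ⟨_, rfl⟩
    obtain ⟨q', hq'⟩ : ∃ q' : Ix k r → B, q' = Function.extend Sum.inr (F z) q := ⟨_, rfl⟩
    rw [← hp', ← hq'] at h2
    have e1 : ∀ l : Fin r, p' (Sum.inr l) = z l := by
      intro l
      rw [hp', Sum.inr_injective.extend_apply]
    have e2 : ∀ x, p' (Sum.inl x) = p (Sum.inl x) := by
      intro x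
      rw [hp', Function.extend_apply']
      rintro ⟨l, hl⟩
      exact absurd hl (by simp)
    have e3 : ∀ x, q' (Sum.inl x) = q (Sum.inl x) := by
      intro x
      rw [hq', Function.extend_apply']
      rintro ⟨l, hl⟩
      exact absurd hl (by simp)
    have hz' : 𝔅.rel none (fun l : Fin r => q' (Sum.inr l)) := by
      refine hZ.atomRel p' q' h2 none (fun l : Fin r => Sum.inr l) ?_
      have : (fun l : Fin r => p' (Sum.inr l)) = z := funext e1
      rw [← this] at hz
      exact hz
    refine ⟨fun l => q' (Sum.inr l), hz', f, hf, funext fun j => ?_⟩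
    show w (i j) = el (fun l => q' (Sum.inr l)) (f j)
    have h4 := h1 j
    rcases hfj : f j with l | m
    · rw [hfj] at h4
      rcases hF (i j) with ⟨h5, h6⟩ | ⟨m, h5, _⟩
      · have h7 : z l = p (Sum.inl (i j, none)) := by
          rw [h4] at h5
          exact Sum.inl_injective h5
        have h8 : q' (Sum.inl (i j, none)) = q' (Sum.inr l) :=
          (hZ.atomEq p' q' h2 _ _).1 (by rw [e1, e2, h7])
        rw [h6]
        show Sum.inl (q (Sum.inl (i j, none))) = _
        rw [← e3, h8]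
        rfl
      · rw [h4] at h5
        exact absurd h5 (by simp [el])
    · rw [hfj] at h4
      rcases hF (i j) with ⟨h5, _⟩ | ⟨m', h5, h6⟩
      · rw [h4] at h5
        exact absurd h5 (by simp [el])
      · rw [h4] at h5
        have h7 : (z, m) = (fun l => p (Sum.inl (i j, some l)), m') := Sum.inr_injective h5
        have h8 : z = fun l => p (Sum.inl (i j, some l)) := congrArg Prod.fst h7
        have h9 : m = m' := congrArg Prod.snd h7
        rw [h6, ← h9]
        show Sum.inr _ = Sum.inr _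
        congr 2
        funext l
        show q (Sum.inl (i j, some l)) = _
        rw [← e3]
        refine (hZ.atomEq p' q' h2 _ _).1 ?_
        rw [e1, e2, h8]

lemma BF.symm {𝔄 : Str σ A} {𝔅 : Str σ B} {k : ℕ} {Z : (Fin k → A) → (Fin k → B) → Prop}
    (hZ : BFSys 𝔄 𝔅 k Z) : BFSys 𝔅 𝔄 k (fun w v => Z v w) where
  atomRel v w h R i := (hZ.atomRel w v h R i).symm
  atomEq v w h i j := (hZ.atomEq w v h i j).symm
  subst v w h ρ := hZ.subst w v h ρ
  forth v w h x := by
    obtain ⟨f, hf⟩ := hZ.forth w v h x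
    refine ⟨f.symm, fun b => ?_⟩
    have := hf (f.symm b)
    rwa [Equiv.apply_symm_apply] at this

/-- other pebbles -/
def tr {K : ℕ} {ι : Type} (e : ι ≃ Fin K) (Z : (Fin K → A) → (Fin K → B) → Prop)
    (v : ι → A) (w : ι → B) : Prop := Z (fun i => v (e.symm i)) (fun i => w (e.symm i))

lemma bf_tr {𝔄 : Str σ A} {𝔅 : Str σ B} {K : ℕ} {ι : Type} (e : ι ≃ Fin K)
    {Z : (Fin K → A) → (Fin K → B) → Prop} (hZ : BFSys 𝔄 𝔅 K Z) : BF 𝔄 𝔅 ι (tr e Z) where
  atomRel v w h R i hR := by
    have := (hZ.atomRel _ _ h R (fun j => e (i j))).1 (by simpa using hR)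
    simpa using this
  atomEq v w h i j := by
    have := hZ.atomEq _ _ h (e i) (e j)
    simpa using this
  subst v w h ρ := by
    have := hZ.subst _ _ h (fun i => e (ρ (e.symm i)))
    simpa [tr] using this
  forth v w h x := by
    obtain ⟨f, hf⟩ := hZ.forth _ _ h (e x)
    refine ⟨f, fun a => ?_⟩
    have h1 : ∀ {C : Type} (u : ι → C) (c : C), (fun i => Function.update u x c (e.symm i)) =
        Function.update (fun i => u (e.symm i)) (e x) c := by
      intro C u c
      funext i
      by_cases hi : i = e x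
      · subst hi
        simp
      · rw [Function.update_of_ne hi, Function.update_of_ne]
        intro h'
        exact hi (by rw [← h', Equiv.apply_symm_apply])
    unfold tr
    rw [h1, h1]
    exact hf a

lemma bfsys_new {k K : ℕ} {𝔄 : Str (add σ r) A} {𝔅 : Str (add σ r) B}
    (as : Str σ (Fin r ⊕ Fin n)) (e : Ix k r ≃ Fin K)
    {Z : (Fin K → A) → (Fin K → B) → Prop} (hZ : BFSys 𝔄 𝔅 K Z) :
    BFSys (ext as 𝔄) (ext as 𝔅) k (New n (tr e Z)) where
  atomRel v w h R i := by
    refine ⟨new_rel as (bf_tr e hZ) h R i, ?_⟩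
    have h1 : New n (tr e (fun w v => Z v w)) w v := by
      obtain ⟨p, q, hpq, hF⟩ := h
      refine ⟨q, p, hpq, fun x => ?_⟩
      rcases hF x with ⟨h3, h4⟩ | ⟨m, h3, h4⟩
      · exact Or.inl ⟨h4, h3⟩
      · exact Or.inr ⟨m, h4, h3⟩
    exact new_rel as (bf_tr e (BF.symm hZ)) h1 R i
  atomEq v w h i j := by
    obtain ⟨p, q, hpq, hF⟩ := h
    have hq := (bf_tr e hZ).atomEq p q hpq
    rcases hF i with ⟨h3, h4⟩ | ⟨m, h3, h4⟩ <;> rcases hF j with ⟨h5, h6⟩ | ⟨m', h5, h6⟩
    · rw [h3, h4, h5, h6]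
      simp only [Sum.inl.injEq]
      exact hq _ _
    · rw [h3, h4, h5, h6]
      simp
    · rw [h3, h4, h5, h6]
      simp
    · rw [h3, h4, h5, h6]
      simp only [Sum.inr.injEq, Prod.mk.injEq]
      refine and_congr ?_ Iff.rfl
      constructor
      · intro h7
        funext l
        exact (hq _ _).1 (congrFun h7 l)
      · intro h7
        funext l
        exact (hq _ _).2 (congrFun h7 l)
  subst v w h ρ := by
    obtain ⟨p, q, hpq, hF⟩ := h
    refine ⟨_, _, (bf_tr e hZ).subst p q hpq
      (Sum.elim (fun x => Sum.inl (ρ x.1, x.2)) Sum.inr), fun x => hF (ρ x)⟩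
  forth v w h x := by
    obtain ⟨p, q, hpq, hF⟩ := h
    have hB := bf_tr e hZ
    -- choose the bijections one after the other
    obtain ⟨f₀, hf₀⟩ := hB.forth p q hpq (Sum.inl (x, none))
    have hinj : Function.Injective (fun l : Fin r => (Sum.inl (x, some l) : Ix k r)) := by
      intro a b hab
      simpa using hab
    obtain ⟨F, hF'⟩ := hB.tup r (fun l => Sum.inl (x, some l)) hinj p q hpq
    refine ⟨Equiv.sumCongr f₀ (Equiv.prodCongr F (Equiv.refl (Fin n))), fun a => ?_⟩
    rcases a with a | ⟨z, m⟩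
    · refine ⟨_, _, hf₀ a, fun y => ?_⟩
      by_cases hy : y = x
      · subst hy
        left
        rw [Function.update_self, Function.update_self]
        refine ⟨congrArg Sum.inl ?_, congrArg Sum.inl ?_⟩
        · exact (upd_same p (Sum.inl (y, none)) a).symm
        · exact (upd_same q (Sum.inl (y, none)) (f₀ a)).symm
      · rw [Function.update_of_ne hy, Function.update_of_ne hy]
        have h2 : ∀ o : Option (Fin r), (Sum.inl (y, o) : Ix k r) ≠ Sum.inl (x, none) := by
          intro o h2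
          exact hy (congrArg Prod.fst (Sum.inl_injective h2))
        rw [upd_other p (Sum.inl (x, none)) a (fun o => Sum.inl (y, o)) h2,
          upd_other q (Sum.inl (x, none)) (f₀ a) (fun o => Sum.inl (y, o)) h2]
        exact hF y
    · refine ⟨_, _, hF' z, fun y => ?_⟩
      by_cases hy : y = x
      · subst hy
        right
        refine ⟨m, ?_, ?_⟩
        · rw [Function.update_self]
          congr 2
          funext l
          exact (hinj.extend_apply z p l).symm
        · rw [Function.update_self]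
          show Sum.inr (F z, m) = _
          congr 2
          funext l
          exact (hinj.extend_apply (F z) q l).symm
      · rw [Function.update_of_ne hy, Function.update_of_ne hy]
        have h1 : ∀ {C : Type} (u : Ix k r → C) (z : Fin r → C),
            (fun o => Function.extend (fun l : Fin r => (Sum.inl (x, some l) : Ix k r)) z u
              (Sum.inl (y, o))) = fun o => u (Sum.inl (y, o)) := by
          intro C u z
          funext o
          rw [Function.extend_apply']
          rintro ⟨l, hl⟩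
          exact hy (congrArg Prod.fst (Sum.inl_injective hl)).symm
        rw [h1, h1]
        exact hF y

end XLIFT

open XLIFT in
/-- Pairs for the expansion by a primitively positively definable relation give pairs. -/
theorem pair_pp {σ : Sig} {C : Type} [Nonempty C] {𝔅 : Str σ C} {r : ℕ} {T : (Fin r → C) → Prop}
    (hT : PP 𝔅 T) (h : ∀ k, Pair (CSP (adds 𝔅 T)) k) (k : ℕ) : Pair (CSP 𝔅) k := by
  obtain ⟨n, as, has⟩ := hT
  have e : Ix k r ≃ Fin (Fintype.card (Ix k r)) := Fintype.equivFin _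
  obtain ⟨A, B, _, _, 𝔄, 𝔄', Z, hZ, ⟨v, w, hvw⟩, h1, h2⟩ := h (Fintype.card (Ix k r))
  refine ⟨_, _, inferInstance, inferInstance, ext as 𝔄, ext as 𝔄', New n (tr e Z),
    bfsys_new as e hZ, ?_, (csp_ext has 𝔄).1 h1, fun h3 => h2 ((csp_ext has 𝔄').2 h3)⟩
  refine ⟨fun x => Sum.inl (v (e (Sum.inl (x, none)))), fun x => Sum.inl (w (e (Sum.inl (x, none)))),
    fun i => v (e i), fun i => w (e i), ?_, fun x => Or.inl ⟨rfl, rfl⟩⟩
  unfold tr
  simpa using hvw

end Pool.Agent.Work.MP_8dbde4_lc.Loc
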