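import Pool.Agent.Work.MP_8dbde4_lc.Loc.I_NEG1
import Pool.Agent.Work.MP_8dbde4_lc.Loc.Lift

/-!
The negative part in a form which can be used for primitively positively definable split relations:
helper52's proof of `S_NEG1`, with the conclusion before the game is applied.
-/

set_option autoImplicit false
open Classical

namespace Pool.Agent.Work.MP_8dbde4_lc.Loc

open Pool.Agent.Work.MP_8dbde4_lc.TS
open Pool.Agent.Work.MP_8dbde4_lc.Tree (Word Agr Sp Cc SameT Fam Gad El anch trip Den row BFSys)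

open XNEG1 in
/-- The negative part, before the game is applied. -/
theorem pairs_of (hPG : Tree.S_PGRP) (hDen : Tree.S_DEN) (hGad : Tree.S_GAD) (hTwin : Tree.S_TWIN)
    (hJ0 : S_J0) (hJ1 : S_J1) (hJZ : S_JZ) (hDesc : S_DESC) (hRes1 : S_RES1) (hRes2 : S_RES2)
    (σ : Sig) (K : Type) [Finite K] (L : MLang σ K) (c : ℚ → K) (C : σ.S) (hC : IsSplit L C)
    (hReal : Real L c) (hGS : ¬ GS L) : ∀ k, Pair (CSP (L.str c)) k := by
  -- the set of the sizes
  have hex : ∃ n : ℕ, ∃ (A : Type) (_ : Finite A) (𝔄 : Str σ A) (W : Set A), Bad L 𝔄 W ∧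
      (TT L 𝔄 W).ncard = n := by
    unfold GS at hGS
    push Not at hGS
    obtain ⟨A, hA, 𝔄, W, h1, h2, h3⟩ := hGS
    refine ⟨_, A, hA, 𝔄, W, ⟨h1, h2, ?_⟩, rfl⟩
    rintro ⟨a, b, hg, h, hs, hab, hn⟩
    exact h3 a b hg h hs hab hn
  obtain ⟨A, hA, 𝔄, W, ⟨hR, hS, hB⟩, hn⟩ := Nat.find_spec hex
  have hmin : ∀ (A' : Type) (_ : Finite A') (𝔄' : Str σ A') (W' : Set A'), Bad L 𝔄' W' →
      (TT L 𝔄 W).ncard ≤ (TT L 𝔄' W').ncard := by
    intro A' hA' 𝔄' W' hB'
    rw [hn]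
    exact Nat.find_min' hex ⟨A', hA', 𝔄', W', hB', rfl⟩
  have hcl := clean hR
  -- the set `U`
  have hNC : NC L 𝔄 W Set.univ := by
    obtain ⟨h, hs, hn'⟩ := hR W subset_rfl hS
    exact ⟨h, hs, fun _ _ => Set.mem_univ _, hn'⟩
  obtain ⟨U₀, _, hU₀1, hU₀2⟩ := hDesc σ K L A 𝔄 W Set.univ hcl hNC
  have hfin : (TT L 𝔄 W).Finite := Set.toFinite _
  obtain ⟨U, hU, hUmin⟩ := Set.exists_min_image (TT L 𝔄 W) (fun V => V.ncard) hfin
    ⟨U₀, hU₀1, hU₀2⟩
  obtain ⟨hM, h₀, hs₀, hv₀, hn₀⟩ := hU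
  have honto : ∀ u ∈ U, ∃ x ∈ W, h₀ x = u := by
    have h1 : NC L 𝔄 W (h₀ '' W) := ⟨h₀, hs₀, fun x hx => ⟨x, hx, rfl⟩, hn₀⟩
    obtain ⟨U', hU'1, hU'2, hU'3⟩ := hDesc σ K L A 𝔄 W _ hcl h1
    have h2 := hUmin U' ⟨hU'2, hU'3⟩
    have h3 : h₀ '' W ⊆ U := by
      rintro _ ⟨x, hx, rfl⟩
      exact hv₀ x hx
    have h4 : U'.ncard ≤ (h₀ '' W).ncard := Set.ncard_le_ncard hU'1 (Set.toFinite _)
    have h5 : h₀ '' W = U := Set.eq_of_subset_of_ncard_le h3 (h2.trans h4) (Set.toFinite _)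
    intro u hu
    rw [← h5] at hu
    exact hu
  -- the twin property
  have hTP : Tree.TP (fam L U) := by
    by_contra hTP
    obtain ⟨a, b, hab, hall, hmeet⟩ := hTwin (mk σ) U (fam L U) hM hTP
    apply hB
    refine ⟨a, b, ⟨fun h => hab (Subtype.ext h), ?_⟩, h₀, hs₀, ?_, hn₀⟩
    · intro R hL s p p' hp hp' h1 h2
      have hmem : ∀ z : K, (z = (a : K) ∨ z = (b : K)) → z ∈ U := by
        rintro z (h | h)
        · rw [h]; exact a.2
        · rw [h]; exact b.2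
      let q : Fin (σ.ar R) → U := fun j => if hj : s j = true then ⟨p j, hmem _ (hp j hj)⟩ else a
      let q' : Fin (σ.ar R) → U :=
        fun j => if hj : s j = true then ⟨p' j, hmem _ (hp' j hj)⟩ else a
      have hq : ∀ j, s j = true → (q j : K) = p j := by
        intro j hj
        show ((if hj : s j = true then (⟨p j, hmem _ (hp j hj)⟩ : U) else a : U) : K) = p j
        rw [dif_pos hj]
      have hq' : ∀ j, s j = true → (q' j : K) = p' j := by
        intro j hj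
        show ((if hj : s j = true then (⟨p' j, hmem _ (hp' j hj)⟩ : U) else a : U) : K) = p' j
        rw [dif_pos hj]
      have e1 : L.P R s (fun j => (q j : K)) := L.mono R _ _ _ _ h1 (fun i hi => ⟨hi, hq i hi⟩)
      have e2 : L.P R s (fun j => (q' j : K)) := L.mono R _ _ _ _ h2 (fun i hi => ⟨hi, hq' i hi⟩)
      have e3 : L.P R s (fun j => ((Tree.meet a b (q j) (q' j) : U) : K)) :=
        hmeet ⟨R, s⟩ q q' (fun _ => e1) (fun _ => e2) hL
      refine L.mono R _ _ _ _ e3 (fun i hi => ⟨hi, ?_⟩)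
      rw [Tree.XNEG1.meet_coe, hq i hi, hq' i hi]
    · intro x hx
      rcases hall ⟨h₀ x, hv₀ x hx⟩ with h | h
      · left
        rw [← h]
      · right
        rw [← h]
  obtain ⟨p, I, D, hp, hI, hD⟩ := hGad (mk σ) U (fam L U) hM hTP
  have hpz : NeZero p := ⟨hp.ne_zero⟩
  have hCL : L.live C := by
    obtain ⟨⟨a, b, hab⟩, _⟩ := hM
    exact hC.2.1 ⟨a, b, fun h => hab (Subtype.ext h)⟩
  -- the game
  intro k
  obtain ⟨G, _, hGf, g, h, hG, hw⟩ := hPG p (2 * (3 * k + 5)) hp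
  have hDn : Den (row g h) (3 * k + 5) := hDen G g h (3 * k + 5) hw
  have hrow : ∀ v : G, (row g h v).card = 3 := by
    intro v
    have h1 := hDn {v} (Finset.singleton_nonempty v) (by simp)
    rw [Finset.singleton_biUnion, Finset.card_singleton] at h1
    have h2 : (row g h v).card ≤ 3 := Finset.card_le_three
    omega
  obtain ⟨Z, hZ1, hZ2⟩ := hJZ σ K L C U G g h p I D k hC.1 hp hrow hDn
  refine ⟨El (mk σ) U G p I, El (mk σ) U G p I, inferInstance, inferInstance, JJ L C U g h D 0,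
    JJ L C U g h D 1, Z, hZ1, hZ2, ?_, ?_⟩
  · apply hRes2 σ K L c
    exact hJ0 σ K L c C U G g h p I D hC hCL hReal hD
  · intro hcsp
    have hR0 := hRes1 σ K L c _ _ hcsp
    have hR1 : Res L (JJ L C U g h D 1) (core σ U G p I) := fun W' _ => hR0 W' (Set.subset_univ _)
    have hstep : ∀ V : Set K, (V = U ∨ ∀ k : U → V, (∀ (R : (mk σ).S)
        (q : Fin ((mk σ).ar R) → U), (fam L U).P R q → (fam L V).P R (fun j => k (q j))) →
        ∃ c, ∀ x, k x = c) → ¬ NC L (JJ L C U g h D 1) (core σ U G p I) V := by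
      rintro V hV ⟨F, hF1, hF2, x, hx, y, hy, hxy⟩
      obtain ⟨c', hc'⟩ := hJ1 σ K L C U V G g h p I D hC hCL hG hD F hF1 hF2 hV
      exact hxy (by rw [hc' x hx, hc' y hy])
    have hhom : ∀ V : Set K, ¬ NC L 𝔄 W V → ∀ k : U → V, (∀ (R : (mk σ).S)
        (q : Fin ((mk σ).ar R) → U), (fam L U).P R q → (fam L V).P R (fun j => k (q j))) →
        ∃ c, ∀ x, k x = c := by
      intro V hV k hk
      by_contra hcon
      push Not at hcon
      apply hV
      obtain ⟨⟨u₁, _, _⟩, _⟩ := hM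
      obtain ⟨u₂, hu₂⟩ := hcon (k u₁)
      obtain ⟨x₁, hw₁, hx₁⟩ := honto u₁ u₁.2
      obtain ⟨x₂, hw₂, hx₂⟩ := honto u₂ u₂.2
      refine ⟨_, comp_step hcl u₁ hs₀ hv₀ k hk, fun x hx => ?_, x₂, hw₂, x₁, hw₁, ?_⟩
      · rw [cmp_eq (hv₀ x hx)]
        exact (k ⟨h₀ x, hv₀ x hx⟩).2
      · rw [cmp_eq (hv₀ x₁ hw₁), cmp_eq (hv₀ x₂ hw₂)]
        have e1 : (⟨h₀ x₁, hv₀ x₁ hw₁⟩ : U) = u₁ := Subtype.ext hx₁
        have e2 : (⟨h₀ x₂, hv₀ x₂ hw₂⟩ : U) = u₂ := Subtype.ext hx₂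
        rw [e1, e2]
        exact fun h => hu₂ (Subtype.ext h)
    have hBad1 : Bad L (JJ L C U g h D 1) (core σ U G p I) := by
      refine ⟨hR1, ?_, ?_⟩
      · refine ⟨C, trip (anch (El.main 1 (0 : ZMod p))) (El.site 1 0 0 (D.u 0))
          (El.main 1 (0 : ZMod p)), ?_, ?_⟩
        · right
          exact ⟨rfl, _, _, Tie.u 1 0 0 0, rfl⟩
        · rw [hC.2.2.2 hCL]
          have hmem : ∀ j, trip (n := σ.ar C)
              (anch (El.main 1 (0 : ZMod p)) : El (mk σ) U G p I) (El.site 1 0 0 (D.u 0))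
              (El.main 1 (0 : ZMod p)) j ∈ core σ U G p I := by
            intro j v α β R t j' hj
            exfalso
            unfold trip anch at hj
            split_ifs at hj
          refine ⟨⟨0, by rw [hC.1]; omega⟩, ⟨1, by rw [hC.1]; omega⟩, rfl, one_ne_zero,
            decide_eq_true (hmem _), decide_eq_true (hmem _)⟩
      · rintro ⟨a, b, hg, F, hF, hab, hnF⟩
        refine hstep {a, b} (Or.inr (hhom {a, b} ?_)) ⟨F, hF, hab, hnF⟩
        rintro ⟨F', hF', hab', hnF'⟩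
        exact hB ⟨a, b, hg, F', hF', hab', hnF'⟩
    have hle := hmin _ inferInstance _ _ hBad1
    have hsub : TT L (JJ L C U g h D 1) (core σ U G p I) ⊆ TT L 𝔄 W \ {U} := by
      rintro V ⟨hV1, hV2⟩
      refine ⟨⟨hV1, ?_⟩, ?_⟩
      · by_contra hV3
        exact hstep V (Or.inr (hhom V hV3)) hV2
      · intro hVU
        rw [Set.mem_singleton_iff] at hVU
        exact hstep V (Or.inl hVU) hV2
    have hlt : (TT L (JJ L C U g h D 1) (core σ U G p I)).ncard < (TT L 𝔄 W).ncard := by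
      refine lt_of_le_of_lt (Set.ncard_le_ncard hsub (Set.toFinite _)) ?_
      exact Set.ncard_sdiff_singleton_lt_of_mem ⟨hM, h₀, hs₀, hv₀, hn₀⟩ (Set.toFinite _)
    omega

end Pool.Agent.Work.MP_8dbde4_lc.Loc
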