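import Pool.Agent.Work.MP_8dbde4_lc.Loc.Defs

/-!
Statements of the block Loc of MP_8dbde4_lc (local languages; it generalises the block Tree of
helper90). Most proofs are adaptations of the files `Tree/I_*.lean`; every docstring says what
changes. The final theorem is `main_of` at the end.
-/

set_option autoImplicit false
open Classical

namespace Pool.Agent.Work.MP_8dbde4_lc.Loc

open Pool.Agent.Work.MP_8dbde4_lc.TS
open Pool.Agent.Work.MP_8dbde4_lc.Tree (Word Agr Sp Cc SameT Fam Gad El anch trip Den row BFSys)

variable {σ : Sig} {K : Type}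

/-! ### Part R: combinatorial form -/

/-- Given a solution `f` and `W ⊆ W₀` with a strict constraint `R t` (strict for `mask W t`): the words
`f x`, `x ∈ W`, are not all equal, so (finitely many words, finitely many differences) there is a
first place `q` where they are not all equal; `h x = f x q`. For a constraint `R t` and `s = mask W t`
either `FS s (f ∘ t) q`, or the pattern at `q` is constant on `s` (use `const`, `mono`; `R` is live:
otherwise `dead` with the empty mask contradicts `MLang.rel`). See `Tree/I_RES1.lean`. -/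
def S_RES1 : Prop := ∀ (σ : Sig) (K : Type) (L : MLang σ K) (c : ℚ → K) (A : Type) [Finite A]
  (𝔄 : Str σ A), CSP (L.str c) A 𝔄 → Res L 𝔄 Set.univ

/-- Claim by strong induction on the size of `W`: for every rational `q₀` there is `f : A → Word c`
such that all `f x`, `x ∈ W`, agree with `c` below `q₀`, and for all constraints `R t` and all masks
`s ≤ mask W t`: `FS s (f ∘ t) q → P R s (letters at q)`, and if `R` is strict on `s` then `f ∘ t` is not
constant on `s`. If there is no strict constraint on `W` take `f = c` (`strict_mono`). Otherwise take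
a non-constant step `h`, the classes `{x ∈ W : h x = a}` are smaller; take solutions `f_a` for them with
`q₀ + 1` in place of `q₀` and change the letter at the place `q₀` to `h x` (`upd`). Masks `s` on which
`h` is constant belong to one class, for the others the first split is `q₀` with the pattern
`h ∘ t` (`mono`). See `Tree/I_RES2.lean`. -/
def S_RES2 : Prop := ∀ (σ : Sig) (K : Type) (L : MLang σ K) (c : ℚ → K) (A : Type) [Finite A]
  (𝔄 : Str σ A), Res L 𝔄 Set.univ → CSP (L.str c) A 𝔄

/-! ### Part P: the positive part -/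

/-- If the entries in `I` are `b` then the entry `j` is `b`, in all the patterns on `{a, b}`. -/
def Forced (L : MLang σ K) (a b : K) (R : σ.S) (s : Fin (σ.ar R) → Bool)
    (I : Finset (Fin (σ.ar R))) (j : Fin (σ.ar R)) : Prop :=
  ∀ p, L.P R s p → (∀ i, s i = true → p i = a ∨ p i = b) → (∀ i ∈ I, p i = b) → p j = b

/-- The Horn closure of `y` inside `W`. -/
inductive Hull {A : Type} (L : MLang σ K) (𝔄 : Str σ A) (a b : K) (W : Set A) (y : A) : A → Prop
  | base : Hull L 𝔄 a b W y y
  | step (R : σ.S) (t : Fin (σ.ar R) → A) (I : Finset (Fin (σ.ar R))) (j : Fin (σ.ar R)) :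
      𝔄.rel R t → (∀ i ∈ I, t i ∈ W) → t j ∈ W → Forced L a b R (mask W t) I j →
      (∀ i ∈ I, Hull L 𝔄 a b W y (t i)) → Hull L 𝔄 a b W y (t j)

/-- The Horn step and its minimality. (1) For a constraint `R t` and `s = mask W t` let `I` be the
set of the `i` with `s i = true` and `t i` in the hull; the meet of all the patterns in `P R s` which
have values in `{a, b}` on `s` and are `b` on `I` is a pattern (`Good`; the constant `b` is one of
them; only the coordinates in `s` matter) and is, on `s`, `b` exactly in the forced places, i.e. on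
`I`. (2) Induction on the hull. See `Tree/I_HORN.lean`. -/
def S_HORN : Prop := ∀ (σ : Sig) (K : Type) (L : MLang σ K) (A : Type) (𝔄 : Str σ A) (a b : K)
  (W : Set A) (y : A), Good L a b →
  ((∀ (R : σ.S) (t : Fin (σ.ar R) → A), 𝔄.rel R t → L.live R) →
    IsStep L 𝔄 W (fun x => if Hull L 𝔄 a b W y x then b else a)) ∧
  ∀ h : A → K, IsStep L 𝔄 W h → (∀ x ∈ W, h x = a ∨ h x = b) → h y = b →
    ∀ x, Hull L 𝔄 a b W y x → h x = b

/-- One round of the refinement: `S x x'` means that `x, x'` are separated. -/
def refine {A : Type} (L : MLang σ K) (𝔄 : Str σ A) (S : A → A → Prop) (x x' : A) : Prop :=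
  ¬ S x x' ∧ ∃ (a b : K) (y : A), Good L a b ∧ ¬ S y x ∧
    ¬ (Hull L 𝔄 a b {z | ¬ S y z} y x ↔ Hull L 𝔄 a b {z | ¬ S y z} y x')

/-- The stages. -/
def Sep {A : Type} (L : MLang σ K) (𝔄 : Str σ A) : ℕ → A → A → Prop
  | 0 => fun _ _ => False
  | n + 1 => fun x x' => Sep L 𝔄 n x x' ∨ refine L 𝔄 (Sep L 𝔄 n) x x'

/-- No dead constraints, and every strict constraint is separated at some stage. -/
def Acc {A : Type} (L : MLang σ K) (𝔄 : Str σ A) : Prop :=
  (∀ (R : σ.S) (t : Fin (σ.ar R) → A), 𝔄.rel R t → L.live R) ∧
  ∀ (R : σ.S) (t : Fin (σ.ar R) → A) (s : Fin (σ.ar R) → Bool), 𝔄.rel R t → L.strict R s →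
    ∃ i j, s i = true ∧ s j = true ∧ ∃ n, Sep L 𝔄 n (t i) (t j)

/-- Correctness of the refinement. All `¬ Sep n` are equivalence relations (induction). (→) no dead
constraints: `dead`, `Res` for `W = ∅`; the stages are stable from some `n` on (finite); if `W` is a
class at this stage (or the class of one element) and there is a strict constraint on `W`, then GS
gives a non-constant step `h` on `W` with values in a good `{a, b}`; take `y ∈ W` with `h y = b` and
`x ∈ W` with `h x = a`: `x` is not in the hull of `y` (S_HORN) and `y` is: they are separated in the next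
round. So for a constraint `R t` with `R` strict on `s` not all `t i`, `s i`, are in one class (if `s`
were empty then `Res` fails for `W = ∅`). (←) Let there be a strict constraint `R t` on `W`,
`s = mask W t`; so two elements of `W` are separated. Take the first stage `n + 1` at which two elements
`x, x'` of `W` are separated: `W` is contained in the class `{z | ¬ Sep n y z}` and the Horn step of
the round (S_HORN) is a non-constant step on it, so on `W` (`mono`). See `Tree/I_REF.lean`. -/
def S_REF : Prop := ∀ (σ : Sig) (K : Type) [Finite K] (L : MLang σ K), GS L →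
  ∀ (A : Type) [Finite A] (𝔄 : Str σ A), Res L 𝔄 Set.univ ↔ Acc L 𝔄

/-- The formula (helper28 proves this one, with `HP/Logic.lean`). -/
def S_FORM : Prop := ∀ (σ : Sig) (K : Type) [Finite K] (L : MLang σ K),
  InFP (fun (A : Type) (𝔄 : Str σ A) => Acc L 𝔄)

/-- The positive part. -/
def S_POS : Prop := ∀ (σ : Sig) (K : Type) [Finite K] (L : MLang σ K) (c : ℚ → K), GS L →
  InFP (CSP (L.str c))

theorem S_POS_of (h1 : S_RES1) (h2 : S_RES2) (h3 : S_REF) (h4 : S_FORM) : S_POS := by
  intro σ K _ L c hG
  obtain ⟨φ, hφ⟩ := h4 σ K L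
  refine ⟨φ, ?_⟩
  intro A _ _ 𝔄 v
  rw [hφ A 𝔄 v]
  exact (h3 σ K L hG A 𝔄).symm.trans ⟨h2 σ K L c A 𝔄, h1 σ K L c A 𝔄⟩

/-! ### Part J: the instances -/

/-- The signature with a symbol `(R, s)` for every symbol `R` and mask `s`, of the arity of `R`. -/
abbrev mk (σ : Sig) : Sig := HP.markSig σ

/-- The patterns of the live symbols on `U`. -/
def fam (L : MLang σ K) (U : Set K) : Fam (mk σ) U where
  P R q := L.live R.1 → L.P R.1 R.2 (fun j => (q j : K))
  const R a := fun h => L.const R.1 R.2 (a : K) h

/-- The pairs which are tied. The elements are those of the block Tree for the signature `mk σ`; for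
the symbol `(R, s)` the fresh elements with the coordinates outside `s` (the dummies) are not
tied. -/
inductive Tie {U G : Type} [Group G] {p : ℕ} {I : Type} (D : Gad U p I) (g h : G) (b : ZMod p) :
    El (mk σ) U G p I → El (mk σ) U G p I → Prop
  | f (v : G) (α β : ZMod p) (R : (mk σ).S) (t : Fin ((mk σ).ar R) → I → U)
      (j : Fin ((mk σ).ar R)) : R.2 j = true →
      Tie D g h b (.fresh v α β R t j) (.site v α β (t j))
  | u (v α β s) : Tie D g h b (.site v α β (D.u s)) (.main 1 s)
  | x (v α β s) : Tie D g h b (.site v α β (D.x s)) (.main v (s + α))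
  | y (v α β s) : Tie D g h b (.site v α β (D.y s)) (.main (v * g) (s + β))
  | z (v α β s) : Tie D g h b (.site v α β (D.z s)) (.main (v * h) (s + α + β - b))

/-- The instances `J_b`. -/
noncomputable def JJ (L : MLang σ K) (C : σ.S) (U : Set K) {G : Type} [Group G] (g h : G) {p : ℕ}
    {I : Type} (D : Gad U p I) (b : ZMod p) : Str σ (El (mk σ) U G p I) where
  rel R T := (L.live R ∧ ∃ (s : Fin (σ.ar R) → Bool) (v : G) (α β : ZMod p)
      (t : Fin (σ.ar R) → I → U), (∀ i, L.P R s (fun j => (t j i : K))) ∧
      T = fun j => El.fresh (σ := mk σ) v α β ⟨R, s⟩ t j) ∨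
    (R = C ∧ ∃ a w, Tie D g h b a w ∧ T = trip (anch w) a w)

/-- Everything but the dummies. -/
def core (σ : Sig) (U G : Type) (p : ℕ) (I : Type) : Set (El (mk σ) U G p I) :=
  {x | ∀ v α β (R : (mk σ).S) t j, x = .fresh v α β R t j → R.2 j = true}

/-- `J_0` is solvable. Let `Φ (main v s) = io s`, `Φ (site v α β t) = f_(α,β) t`
(`Gad.OK.sol`). For each fresh tuple `r = (v, α, β, (R, s), t)` with `R` live and `t` a tuple of
patterns, the pattern `j ↦ f_(α,β) (t j)` is in `P R s`; by `Real` choose `w^r` in the relation `R`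
and `q_r` such that the `w^r_j`, `s j`, agree below `q_r` and have the letters `f_(α,β) (t j)` at `q_r`;
put `Φ (fresh r j) = w^r_j q_r` for all `j`, also for the dummies. (For the other fresh tuples
`Φ` is arbitrary, they are in no constraint.) Let `W` be a set with a strict constraint, `o = main 1 0`,
`i = main 1 1`, `W_r = {j : fresh r j ∈ W}`. `IsStep` has to be checked for the constraints `r` (with
the mask `W_r`) and for the ties `(anch w, a, w)`: the pattern of a tie must satisfy
`h a = h w` if all three are in `W`, otherwise nothing (`IsSplit`).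
Case 1: for some `r` the words `w^r_j`, `j ∈ W_r`, do not all agree below `q_r`: let `q' < q_r` be their
first split; `h (fresh r j) = w^r_j q'`, everything else is mapped to `k`, the common letter of the
`w^r_j q'` with `s j`, `j ∈ W_r` (any letter if there is no such `j`). Ties: only the `fresh r j` with
`s j` are in ties; they have the letter `k`.
Case 2: not case 1 and `Φ` is not constant on `W`: take `Φ` (the words `w^r_j`, `j ∈ W_r`, agree below
`q_r`, so the pattern at `q_r` is in `P R W_r` by `MLang.rel`, if it is not constant on `W_r`).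
Case 3: not case 1, `Φ` is constant on `W`, `o ∈ W`: then `i ∉ W` (`io 0 ≠ io 1`); `o ↦ k`, everything
else `↦ k' ≠ k`; the ties with all three entries in `W` are `(o, a, w)` with `a, w ≠ o`; `W ≠ {o}`: a
strict mask contains two different elements (`Real` and `MLang.rel`, or `IsSplit`).
Case 4: not case 1, `Φ` is constant on `W`, `o ∉ W`: no tie is completely inside `W` (if `w = o` then
`w ∉ W`, otherwise `anch w = o ∉ W`). If the strict constraint is a tie, the strict mask contains
`anch w` and `a`, so `anch w = i` and `a` are in `W`: `i ↦ k`, everything else `↦ k' ≠ k`. If it is the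
constraint `r`: `w^r` is in the relation `R`, so not constant on `W_r`; at its first split `q''` on `W_r`
put `h (fresh r j) = w^r_j q''`, everything else constant.
See `Tree/I_J0.lean`. (`MLang.rel` for `w^r` gives the patterns: `FS W_r w^r q → P R W_r ..`.) -/
def S_J0 : Prop := ∀ (σ : Sig) (K : Type) (L : MLang σ K) (c : ℚ → K) (C : σ.S) (U : Set K)
  (G : Type) [Group G] (g h : G) (p : ℕ) (I : Type) (D : Gad U p I), IsSplit L C → L.live C →
  Real L c → D.OK (fam L U) → Res L (JJ L C U g h D 0) Set.univ

/-- All steps of `J_1` on the core are constant. Same proof as in `Tree/I_J1.lean`: a step `F` on the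
core with values in `V` satisfies `F a = F w` for all ties (all three entries are in the core, so
the mask is full), and for the constraint on `fresh v α β (R, s) t` the mask is `s`, so on each copy
it is a homomorphism from the power of `fam L U` to `fam L V`; the rest is the same. -/
def S_J1 : Prop := ∀ (σ : Sig) (K : Type) (L : MLang σ K) (C : σ.S) (U V : Set K) (G : Type)
  [Group G] [Finite G] (g h : G) (p : ℕ) (I : Type) [Finite I] (D : Gad U p I), IsSplit L C →
  L.live C → IsPGroup p G → D.OK (fam L U) → ∀ F : El (mk σ) U G p I → K,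
  IsStep L (JJ L C U g h D 1) (core σ U G p I) F → (∀ x ∈ core σ U G p I, F x ∈ V) →
  (V = U ∨ ∀ k : U → V, (∀ (R : (mk σ).S) (q : Fin ((mk σ).ar R) → U), (fam L U).P R q →
    (fam L V).P R (fun j => k (q j))) → ∃ c, ∀ x, k x = c) → ∃ c, ∀ x ∈ core σ U G p I, F x = c

/-- The two instances are equivalent for `k` pebbles. Same proof as in `Tree/I_JZ.lean` (the
elements are those of the block Tree for the signature `mk σ`; the flips do not change the
symbol `(R, s)`, `t` and `j` of a fresh element; the only change is the side condition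
`R.2 j = true` in `Tie.f`, and the form of the first kind of constraint). -/
def S_JZ : Prop := ∀ (σ : Sig) (K : Type) (L : MLang σ K) (C : σ.S) (U : Set K) (G : Type) [Group G]
  [Finite G] (g h : G) (p : ℕ) (I : Type) (D : Gad U p I) (k : ℕ), σ.ar C = 3 → p.Prime →
  (∀ v : G, (row g h v).card = 3) → Den (row g h) (3 * k + 5) →
  ∃ Z : (Fin k → El (mk σ) U G p I) → (Fin k → El (mk σ) U G p I) → Prop,
    BFSys (JJ L C U g h D 0) (JJ L C U g h D 1) k Z ∧ ∃ v w, Z v w

/-! ### Part N: the negative part -/

/-- `U` is a minimal set. -/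
def MinSet (L : MLang σ K) (U : Set K) : Prop := (fam L U).Min

/-- There is a non-constant step on `W` with values in `U`. -/
def NC {A : Type} (L : MLang σ K) (𝔄 : Str σ A) (W : Set A) (U : Set K) : Prop :=
  ∃ h : A → K, IsStep L 𝔄 W h ∧ (∀ x ∈ W, h x ∈ U) ∧ NonC W h

/-- Descent to minimal sets, by induction on the size of `V`. If `V` is not minimal there is an
endomorphism `f` of `fam L V`, not injective and not constant. If `f ∘ h` is not constant on `W` it
has values in `f '' V`, otherwise `h` has values in a set `{x ∈ V : f x = c}` on `W`; both are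
smaller. (Outside `W` the value of `f ∘ h` is arbitrary, `mono`.) See `DESC_pf` in
`Tree/I_CLEAN.lean`. -/
def S_DESC : Prop := ∀ (σ : Sig) (K : Type) [Finite K] (L : MLang σ K) (A : Type) (𝔄 : Str σ A)
  (W : Set A) (V : Set K), (∀ (R : σ.S) (t : Fin (σ.ar R) → A), 𝔄.rel R t → L.live R) →
  NC L 𝔄 W V → ∃ U ⊆ V, MinSet L U ∧ NC L 𝔄 W U

/-- The negative part. -/
def S_NEG : Prop := ∀ (σ : Sig) (K : Type) [Finite K] (L : MLang σ K) (c : ℚ → K) (C : σ.S),
  IsSplit L C → Real L c → ¬ GS L → ¬ InFPC (CSP (L.str c))

/-- The assembly of the negative part. Same proof as in `Tree/I_NEG1.lean` with the pairs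
`(𝔄, W)` in place of the structures `𝔄`: `TT 𝔄 W` is the set of the minimal `U` with `NC L 𝔄 W U`;
among the `(𝔄, W)`, `𝔄` finite, `Res L 𝔄 W`, `HasStrict L 𝔄 W`, without a non-constant step on `W` into
a good two-element set take one with `(TT 𝔄 W).ncard` minimal. No dead constraints: `dead` and
`Res` for `∅`. For `J_1` use the pair `(J_1, core)`: `Res L J_1 univ` implies `Res L J_1 core`; a tie
(`IsSplit`: strict) is inside the core; steps on the core are constant by S_J1. Live `C`: there is a
non-constant step, so `K` has two elements (`IsSplit`). -/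
def S_NEG1 : Prop := Tree.S_GAME → Tree.S_PGRP → Tree.S_DEN → Tree.S_GAD → Tree.S_TWIN → S_J0 →
  S_J1 → S_JZ → S_DESC → S_RES1 → S_RES2 → S_NEG

/-! ### Part B: from structures to languages with masks -/

variable {c : ℚ → K}

/-- Members of a relation satisfy all its conditions; and for local structures conversely. For the
second part let `s` be a set of coordinates: if `w` is constant on `s` then `s` is not strict, which
gives `u`; otherwise `w` has a first split on `s` (finitely many words with finitely many
differences), the pattern is shown by some `u`. -/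
def S_LOC : Prop := ∀ (σ : Sig) (K : Type) (c : ℚ → K) (𝔅 : Str σ (Word c)) (hB : Inv 𝔅),
  (∀ R w, 𝔅.rel R w → (lang 𝔅 hB).rel R w) ∧
  (IsLocal 𝔅 → ∀ R w, (lang 𝔅 hB).rel R w → 𝔅.rel R w)

/-- The split relation. Live: if `a ≠ b` in `K` change the letter of `c` at `0` to `a` or `b`, or do not
change it. The patterns on three coordinates are those with `p 1 = p 2`: take `z = c` with the letter
`p 0` at the place `0` and `x, y` with the letter `p 1` there if `p 0 ≠ p 1`; if the pattern is
constant use `const`. On a mask with at most two coordinates all patterns occur: let the third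
word split off before, or, if the two coordinates are `z, x`, take `y = x`; if the two letters are
equal take a later split (and `upd`). The mask `s` is strict iff it contains `z` and one of `x, y`. -/
def S_ISC : Prop := ∀ (σ : Sig) (K : Type) (c : ℚ → K) (𝔅 : Str σ (Word c)) (hB : Inv 𝔅)
  (C : σ.S), IsC 𝔅 C → IsSplit (lang 𝔅 hB) C

/-- The expansion of an invariant structure by the labelled split relations. -/
noncomputable def plus [Finite K] (𝔅 : Str σ (Word c)) : Str (Tree.Sig.plus σ K) (Word c) where
  rel
    | .inl R => fun t => 𝔅.rel R t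
    | .inr (.inl p) => fun t => Sp p.1 p.2 (t (0 : Fin 2)) (t (1 : Fin 2))
    | .inr (.inr _) => fun t => Cc (t (0 : Fin 3)) (t (1 : Fin 3)) (t (2 : Fin 3))

/-- Homogeneity. Same proof as in `Tree/I_HOM.lean`, with `Inv` in place of S_TYP. -/
def S_HOM : Prop := ∀ (σ : Sig) (K : Type) [Finite K] (c : ℚ → K) (𝔅 : Str σ (Word c)),
  Inv 𝔅 → Tree.DenseW c → Tree.Homog (plus 𝔅)

/-- Finite boundedness. Same proof as in `Tree/I_FB.lean`, with `Inv` in place of S_TYP. -/
def S_FB : Prop := ∀ (σ : Sig) (K : Type) [Finite K] (c : ℚ → K) (𝔅 : Str σ (Word c)),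
  Inv 𝔅 → Tree.FinBdd (plus 𝔅)

theorem RFBH_of (h1 : S_HOM) (h2 : S_FB) (h3 : Tree.S_CTB) (σ : Sig) (K : Type) [Finite K]
    (c : ℚ → K) (𝔅 : Str σ (Word c)) (hB : Inv 𝔅) (hc : Tree.DenseW c) : Tree.RFBH 𝔅 := by
  refine ⟨h3 K c, Tree.Sig.plus σ K, plus 𝔅, h1 σ K c 𝔅 hB hc, h2 σ K c 𝔅 hB, ?_⟩
  intro R
  exact ⟨Sum.inl R, rfl, fun t => Iff.rfl⟩

/-- The theorem. -/
theorem main_of (h1 : S_POS) (h2 : S_NEG) (h3 : S_LOC) (h4 : S_ISC) (σ : Sig) (K : Type) [Finite K]
    (c : ℚ → K) (𝔅 : Str σ (Word c)) (hB : Inv 𝔅) (hl : IsLocal 𝔅) (C : σ.S) (hC : IsC 𝔅 C)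
    (h : InFPC (CSP 𝔅)) : InFP (CSP 𝔅) := by
  obtain ⟨h5, h6⟩ := h3 σ K c 𝔅 hB
  have he : (lang 𝔅 hB).str c = 𝔅 := by
    cases 𝔅 with
    | mk rel =>
      unfold MLang.str
      congr 1
      funext R w
      exact propext ⟨h6 hl R w, h5 R w⟩
  rw [← he] at h ⊢
  by_cases hg : GS (lang 𝔅 hB)
  · exact h1 σ K _ c hg
  · refine absurd h (h2 σ K _ c C (h4 σ K c 𝔅 hB C hC) ?_ hg)
    rintro R s p - ⟨w, hw, q, h7, h8⟩
    exact ⟨w, h5 R w hw, q, h7, h8⟩

end Pool.Agent.Work.MP_8dbde4_lc.Loc
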